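import Pool.Agent.Helper81.PS.Circ

/-!
# Block PS-CN: the number of points and of orthogonal pairs in `W`

Let `C` be the set of the `(u₁, u₂)` with `u₁² + u₂² = 1` (`q + 1` elements, `card_circle`) and `C'` the
set of the `(a, k) ∈ C` with `a k ≠ 0` (`q - 3` elements: remove `(± 1, 0)`, `(0, ± 1)`).
`card_W`: the map `(u, (a, k)) ↦ (k u₁, k u₂, a)` from `C × C'` onto `W K` is two-to-one
(`(-u, (a, -k))` has the same image).
`pairs_W`: count the quadruples `u, v ∈ C`, `(a, k), (a', k') ∈ C'` with `k k' (u·v) + a a' = 0`; there are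
four times as many as pairs. For given `(a, k)`, `(a', k')`, `u` put `c = -a a' / (k k')`; then
`v = c u + t (-u₂, u₁)` with `t² = 1 - c²` (`v = (u·v) u + (Ju·v) Ju`). For the data
`(k, a)`, `(k', a')` in place of `(a, k)`, `(a', k')` one has `1 / c` in place of `c`, and
`1 - 1 / c² = -(1 - c²) / c²`, so by `card_sqrt` (the numbers of roots of `d` and of `d / c²` are equal)
the two numbers of `t` add up to `2`. Summing over all `(a, k)`, `(a', k')` and `u`: the number of
quadruples is `(q - 3)² (q + 1)`.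
-/

set_option autoImplicit false

namespace Pool.Agent.Helper81.PS

variable {K : Type*} [Field K] [Fintype K] [DecidableEq K]

/-! ### Private lemmas -/

variable (K) in
private def Ci65 : Finset (K × K) := Finset.univ.filter fun z => z.1 * z.1 + z.2 * z.2 = 1

variable (K) in
private def Di65 : Finset (K × K) := (Ci65 K).filter fun z => z.1 ≠ 0 ∧ z.2 ≠ 0

omit [Fintype K] [DecidableEq K] in
private def ph65 (p : (K × K) × (K × K)) : K × K × K := (p.2.2 * p.1.1, p.2.2 * p.1.2, p.2.1)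

private def n65 (s : K) : ℕ := (Finset.univ.filter fun t : K => t * t = s).card

private theorem mem_Ci65 {z : K × K} : z ∈ Ci65 K ↔ z.1 * z.1 + z.2 * z.2 = 1 := by simp [Ci65]

private theorem mem_Di65 {z : K × K} : z ∈ Di65 K ↔ z.1 * z.1 + z.2 * z.2 = 1 ∧ z.1 ≠ 0 ∧ z.2 ≠ 0 := by
  simp [Di65, mem_Ci65]

private theorem card_Ci65 (hq : Fintype.card K % 4 = 3) : (Ci65 K).card = Fintype.card K + 1 :=
  card_circle hq one_ne_zero

private theorem one_ne65 (hq : Fintype.card K % 4 = 3) : (1 : K) ≠ -1 := fun h =>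
  two_ne_zero' hq (by linear_combination h)

private theorem card_Di65 (hq : Fintype.card K % 4 = 3) : (Di65 K).card = Fintype.card K - 3 := by
  have h1 := card_Ci65 (K := K) hq
  have h := Finset.card_filter_add_card_filter_not (s := Ci65 K) (fun z : K × K => z.1 ≠ 0 ∧ z.2 ≠ 0)
  have h4 : ((Ci65 K).filter fun z => ¬(z.1 ≠ 0 ∧ z.2 ≠ 0)) = {((1 : K), (0 : K)), (-1, 0), (0, 1), (0, -1)} := by
    ext ⟨a, k⟩
    simp only [Finset.mem_filter, mem_Ci65, Finset.mem_insert, Finset.mem_singleton, Prod.mk.injEq, not_and_or,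
      not_not]
    constructor
    · rintro ⟨h, h0 | h0⟩
      · subst h0
        have : k * k = 1 := by linear_combination h
        rcases mul_self_eq_one_iff.mp this with h2 | h2 <;> simp [h2]
      · subst h0
        have : a * a = 1 := by linear_combination h
        rcases mul_self_eq_one_iff.mp this with h2 | h2 <;> simp [h2]
    · rintro (⟨rfl, rfl⟩ | ⟨rfl, rfl⟩ | ⟨rfl, rfl⟩ | ⟨rfl, rfl⟩) <;> simp
  have h5 : ({((1 : K), (0 : K)), (-1, 0), (0, 1), (0, -1)} : Finset (K × K)).card = 4 := by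
    have hne := one_ne65 (K := K) hq
    rw [Finset.card_insert_of_notMem, Finset.card_insert_of_notMem, Finset.card_insert_of_notMem,
      Finset.card_singleton]
    · simp [hne]
    · simp
    · simp [hne]
  rw [h4, h5, h1] at h
  unfold Di65
  omega

private theorem maps65 {p : (K × K) × (K × K)} (hp : p ∈ Ci65 K ×ˢ Di65 K) : ph65 p ∈ W K := by
  obtain ⟨h1, h2⟩ := Finset.mem_product.mp hp
  rw [mem_Ci65] at h1
  obtain ⟨h3, h4, h5⟩ := mem_Di65.mp h2
  refine mem_W.mpr ⟨?_, h4, p.2.2, h5, ?_⟩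
  · simp only [dot, ph65]
    linear_combination (p.2.2 * p.2.2) * h1 + h3
  · simp only [ph65]
    linear_combination h3

private theorem fib65 (hq : Fintype.card K % 4 = 3) {x : K × K × K} (hx : x ∈ W K) :
    ((Ci65 K ×ˢ Di65 K).filter fun p => ph65 p = x).card = 2 := by
  obtain ⟨h1, h2, k0, h3, h4⟩ := mem_W.mp hx
  obtain ⟨x1, x2, x3⟩ := x
  simp only [dot] at h1 h2 h4
  have hne := two_ne_zero' (K := K) hq
  have h6 : k0 ≠ -k0 := fun h => h3 (by
    have : (2 : K) * k0 = 0 := by linear_combination h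
    exact (mul_eq_zero.mp this).resolve_left hne)
  rw [Finset.card_eq_two]
  refine ⟨((x1 / k0, x2 / k0), (x3, k0)), ((x1 / -k0, x2 / -k0), (x3, -k0)), ?_, ?_⟩
  · intro h
    simp only [Prod.mk.injEq] at h
    exact h6 h.2.2
  · ext ⟨⟨u1, u2⟩, ⟨a, k⟩⟩
    simp only [Finset.mem_filter, Finset.mem_product, mem_Ci65, mem_Di65, ph65, Finset.mem_insert,
      Finset.mem_singleton, Prod.mk.injEq]
    constructor
    · rintro ⟨⟨h7, h8, h9, h10⟩, h11, h12, h13⟩
      have h14 : k * k = k0 * k0 := by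
        rw [h4]
        rw [← h13]
        linear_combination h8
      rcases mul_self_eq_mul_self_iff.mp h14 with h15 | h15
      · left
        subst h15
        refine ⟨⟨?_, ?_⟩, h13, rfl⟩
        · rw [eq_div_iff h3, ← h11]; ring
        · rw [eq_div_iff h3, ← h12]; ring
      · right
        subst h15
        refine ⟨⟨?_, ?_⟩, h13, rfl⟩
        · rw [eq_div_iff (neg_ne_zero.mpr h3), ← h11]; ring
        · rw [eq_div_iff (neg_ne_zero.mpr h3), ← h12]; ring
    · have h16 : x1 * x1 + x2 * x2 = k0 * k0 := by rw [h4]; linear_combination h1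
      rintro (⟨⟨rfl, rfl⟩, rfl, rfl⟩ | ⟨⟨rfl, rfl⟩, rfl, rfl⟩)
      · refine ⟨⟨?_, ?_, h2, h3⟩, ?_, ?_, rfl⟩
        · field_simp
          linear_combination h16
        · linear_combination h4
        · field_simp
        · field_simp
      · refine ⟨⟨?_, ?_, h2, neg_ne_zero.mpr h3⟩, ?_, ?_, rfl⟩
        · field_simp
          linear_combination h16
        · linear_combination h4
        · field_simp
        · field_simp

private theorem two65 (hq : Fintype.card K % 4 = 3) (F : K × K × K → ℕ) :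
    ∑ p ∈ Ci65 K ×ˢ Di65 K, F (ph65 p) = 2 * ∑ x ∈ W K, F x := by
  rw [← Finset.sum_fiberwise_of_maps_to (g := ph65) (t := W K) (fun p hp => maps65 hp), Finset.mul_sum]
  refine Finset.sum_congr rfl fun x hx => ?_
  rw [Finset.sum_congr rfl (g := fun _ => F x) (fun p hp => by rw [(Finset.mem_filter.mp hp).2]), Finset.sum_const,
    fib65 hq hx, smul_eq_mul]

private theorem inner65 {c : K} {u : K × K} (hu : u ∈ Ci65 K) :
    ((Ci65 K).filter fun v => u.1 * v.1 + u.2 * v.2 = c).card = n65 (1 - c * c) := by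
  rw [mem_Ci65] at hu
  unfold n65
  refine Finset.card_nbij' (fun v => u.1 * v.2 - u.2 * v.1) (fun t => (c * u.1 - t * u.2, c * u.2 + t * u.1))
    ?_ ?_ ?_ ?_
  · intro v hv
    obtain ⟨h1, h2⟩ := Finset.mem_filter.mp (Finset.mem_coe.mp hv)
    rw [mem_Ci65] at h1
    refine Finset.mem_coe.mpr (Finset.mem_filter.mpr ⟨Finset.mem_univ _, ?_⟩)
    rw [← h2]
    linear_combination (u.1 * u.1 + u.2 * u.2) * h1 + hu
  · intro t ht
    have h1 := (Finset.mem_filter.mp (Finset.mem_coe.mp ht)).2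
    refine Finset.mem_coe.mpr (Finset.mem_filter.mpr ⟨mem_Ci65.mpr ?_, ?_⟩)
    · show (c * u.1 - t * u.2) * (c * u.1 - t * u.2) + (c * u.2 + t * u.1) * (c * u.2 + t * u.1) = 1
      linear_combination (c * c + t * t) * hu + h1
    · show u.1 * (c * u.1 - t * u.2) + u.2 * (c * u.2 + t * u.1) = c
      linear_combination c * hu
  · intro v hv
    obtain ⟨h1, h2⟩ := Finset.mem_filter.mp (Finset.mem_coe.mp hv)
    rw [← h2]
    refine Prod.ext ?_ ?_
    · show (u.1 * v.1 + u.2 * v.2) * u.1 - (u.1 * v.2 - u.2 * v.1) * u.2 = v.1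
      linear_combination v.1 * hu
    · show (u.1 * v.1 + u.2 * v.2) * u.2 + (u.1 * v.2 - u.2 * v.1) * u.1 = v.2
      linear_combination v.2 * hu
  · intro t ht
    show u.1 * (c * u.2 + t * u.1) - u.2 * (c * u.1 - t * u.2) = t
    linear_combination t * hu

private theorem n_scale65 {c : K} (hc : c ≠ 0) : n65 (1 - 1 / c * (1 / c)) = n65 (-(1 - c * c)) := by
  unfold n65
  refine Finset.card_nbij' (fun t => t * c) (fun t => t / c) ?_ ?_ ?_ ?_
  · intro t ht
    have h1 := (Finset.mem_filter.mp (Finset.mem_coe.mp ht)).2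
    refine Finset.mem_coe.mpr (Finset.mem_filter.mpr ⟨Finset.mem_univ _, ?_⟩)
    have : t * c * (t * c) = (t * t) * (c * c) := by ring
    rw [this, h1]
    field_simp
    ring
  · intro t ht
    have h1 := (Finset.mem_filter.mp (Finset.mem_coe.mp ht)).2
    refine Finset.mem_coe.mpr (Finset.mem_filter.mpr ⟨Finset.mem_univ _, ?_⟩)
    have : t / c * (t / c) = (t * t) / (c * c) := by field_simp
    rw [this, h1]
    field_simp
    ring
  · intro t _
    show t * c / c = t
    field_simp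
  · intro t _
    show t / c * c = t
    field_simp

omit [Fintype K] [DecidableEq K] in
private def cc65 (d d' : K × K) : K := -(d.1 * d'.1) / (d.2 * d'.2)

private theorem pair65 (hq : Fintype.card K % 4 = 3) {d d' : K × K} (hd : d ∈ Di65 K) (hd' : d' ∈ Di65 K) :
    n65 (1 - cc65 d d' * cc65 d d') + n65 (1 - cc65 d.swap d'.swap * cc65 d.swap d'.swap) = 2 := by
  obtain ⟨-, h1, h2⟩ := mem_Di65.mp hd
  obtain ⟨-, h3, h4⟩ := mem_Di65.mp hd'
  have hc : cc65 d d' ≠ 0 := by
    unfold cc65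
    exact div_ne_zero (neg_ne_zero.mpr (mul_ne_zero h1 h3)) (mul_ne_zero h2 h4)
  have e : cc65 d.swap d'.swap = 1 / cc65 d d' := by
    unfold cc65
    simp only [Prod.fst_swap, Prod.snd_swap]
    field_simp
  rw [e, n_scale65 hc]
  exact card_sqrt hq _

private theorem swap_mem65 {d : K × K} (hd : d ∈ Di65 K) : d.swap ∈ Di65 K := by
  obtain ⟨h0, h1, h2⟩ := mem_Di65.mp hd
  exact mem_Di65.mpr ⟨by rw [← h0]; exact add_comm _ _, h2, h1⟩

private theorem sum65 (hq : Fintype.card K % 4 = 3) :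
    ∑ d ∈ Di65 K, ∑ d' ∈ Di65 K, n65 (1 - cc65 d d' * cc65 d d') = (Di65 K).card ^ 2 := by
  have sw : ∀ F : K × K → ℕ, ∑ d ∈ Di65 K, F d.swap = ∑ d ∈ Di65 K, F d := by
    intro F
    exact Finset.sum_nbij' Prod.swap Prod.swap (fun d hd => swap_mem65 hd) (fun d hd => swap_mem65 hd)
      (fun d _ => Prod.swap_swap d) (fun d _ => Prod.swap_swap d) (fun d _ => rfl)
  have h1 : ∑ d ∈ Di65 K, ∑ d' ∈ Di65 K, n65 (1 - cc65 d.swap d'.swap * cc65 d.swap d'.swap) =
      ∑ d ∈ Di65 K, ∑ d' ∈ Di65 K, n65 (1 - cc65 d d' * cc65 d d') := by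
    rw [sw (fun d => ∑ d' ∈ Di65 K, n65 (1 - cc65 d d'.swap * cc65 d d'.swap))]
    exact Finset.sum_congr rfl fun d _ => sw (fun d' => n65 (1 - cc65 d d' * cc65 d d'))
  have h2 : ∑ d ∈ Di65 K, ∑ d' ∈ Di65 K, (n65 (1 - cc65 d d' * cc65 d d') +
      n65 (1 - cc65 d.swap d'.swap * cc65 d.swap d'.swap)) = ∑ d ∈ Di65 K, ∑ d' ∈ Di65 K, 2 :=
    Finset.sum_congr rfl fun d hd => Finset.sum_congr rfl fun d' hd' => pair65 hq hd hd'
  simp only [Finset.sum_add_distrib] at h2
  rw [h1] at h2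
  simp only [Finset.sum_const, smul_eq_mul] at h2
  nlinarith [h2]

private theorem dotc65 {u v d d' : K × K} (hd : d ∈ Di65 K) (hd' : d' ∈ Di65 K) :
    dot (ph65 (u, d)) (ph65 (v, d')) = 0 ↔ u.1 * v.1 + u.2 * v.2 = cc65 d d' := by
  obtain ⟨-, h1, h2⟩ := mem_Di65.mp hd
  obtain ⟨-, h3, h4⟩ := mem_Di65.mp hd'
  simp only [dot, ph65, cc65]
  rw [eq_div_iff (mul_ne_zero h2 h4)]
  constructor
  · intro h
    linear_combination h
  · intro h
    linear_combination h

theorem card_W (hq : Fintype.card K % 4 = 3) :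
    2 * (W K).card = (Fintype.card K + 1) * (Fintype.card K - 3) := by
  have h := two65 hq (fun _ : K × K × K => 1)
  simp only [Finset.sum_const, smul_eq_mul, mul_one, Finset.card_product] at h
  rw [← h, card_Ci65 hq, card_Di65 hq]

theorem pairs_W (hq : Fintype.card K % 4 = 3) :
    4 * ((W K ×ˢ W K).filter fun p => dot p.1 p.2 = 0).card =
      (Fintype.card K + 1) * (Fintype.card K - 3) ^ 2 := by
  rw [Finset.card_filter, Finset.sum_product]
  have h1 : 4 * ∑ x ∈ W K, ∑ y ∈ W K, (if dot x y = 0 then 1 else 0) =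
      ∑ p ∈ Ci65 K ×ˢ Di65 K, ∑ p' ∈ Ci65 K ×ˢ Di65 K, (if dot (ph65 p) (ph65 p') = 0 then 1 else 0) := by
    have e1 : ∀ x : K × K × K, ∑ p' ∈ Ci65 K ×ˢ Di65 K, (if dot x (ph65 p') = 0 then 1 else 0) =
        2 * ∑ y ∈ W K, (if dot x y = 0 then 1 else 0) := fun x => two65 hq (fun y => if dot x y = 0 then 1 else 0)
    have e2 := two65 hq (fun x => ∑ p' ∈ Ci65 K ×ˢ Di65 K, (if dot x (ph65 p') = 0 then 1 else 0))
    rw [e2]
    simp only [e1]
    rw [← Finset.mul_sum]
    ring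
  rw [h1]
  have h2 : ∑ p ∈ Ci65 K ×ˢ Di65 K, ∑ p' ∈ Ci65 K ×ˢ Di65 K, (if dot (ph65 p) (ph65 p') = 0 then 1 else 0) =
      ∑ d ∈ Di65 K, ∑ d' ∈ Di65 K, ∑ u ∈ Ci65 K, ∑ v ∈ Ci65 K,
        (if dot (ph65 (u, d)) (ph65 (v, d')) = 0 then 1 else 0) := by
    rw [Finset.sum_product_right]
    refine Finset.sum_congr rfl fun d _ => ?_
    rw [Finset.sum_comm]
    rw [Finset.sum_product_right]
    refine Finset.sum_congr rfl fun d' _ => ?_
    rw [Finset.sum_comm]
  rw [h2]
  have h3 : ∀ d ∈ Di65 K, ∀ d' ∈ Di65 K, ∑ u ∈ Ci65 K, ∑ v ∈ Ci65 K,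
      (if dot (ph65 (u, d)) (ph65 (v, d')) = 0 then 1 else 0) =
      (Fintype.card K + 1) * n65 (1 - cc65 d d' * cc65 d d') := by
    intro d hd d' hd'
    have h4 : ∀ u ∈ Ci65 K, ∑ v ∈ Ci65 K, (if dot (ph65 (u, d)) (ph65 (v, d')) = 0 then 1 else 0) =
        n65 (1 - cc65 d d' * cc65 d d') := by
      intro u hu
      rw [← inner65 hu, Finset.card_filter]
      refine Finset.sum_congr rfl fun v _ => ?_
      simp only [dotc65 hd hd']
    rw [Finset.sum_congr rfl h4, Finset.sum_const, card_Ci65 hq, smul_eq_mul]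
  rw [Finset.sum_congr rfl fun d hd => Finset.sum_congr rfl fun d' hd' => h3 d hd d' hd']
  simp only [← Finset.mul_sum]
  rw [sum65 hq, card_Di65 hq]

end Pool.Agent.Helper81.PS
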