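import Pool.Agent.Helper81.PS.Circ

/-!
# Block PS-GA: the multiplier of a `PT` map

Let `x ∈ W K`, `k² = 1 - x₃² = x₁² + x₂²`, `k ≠ 0`, `b = (-x₂ / k, x₁ / k, 0)`: a unit vector with third
coordinate `0` orthogonal to `x`, so `T b = ± b` and `dot (T x) b = 0`, that is
`(T x)₁ x₂ = (T x)₂ x₁`. As `(x₁, x₂) ≠ 0` there is `l` with `(T x)₁ = l x₁`, `(T x)₂ = l x₂`. Moreover
`(T x)₃ = dot (T x) e3 ≠ 0` because `dot x e3 ≠ 0` and `T e3 = ± e3`. Put `g x = l x₃ / (T x)₃`. It is not
changed if `T x` is replaced by `-T x` (so `g (-x) = g x`). For orthogonal `x`, `y` in `W`: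
`x₁ y₁ + x₂ y₂ = -x₃ y₃` and `l l' (x₁ y₁ + x₂ y₂) = -(T x)₃ (T y)₃` give `g x * g y = 1`. If `g x = 1` then
`T x = ((T x)₃ / x₃) x`, two unit vectors, so the factor is `± 1`; if `g x = -1` then
`T x = ((T x)₃ / x₃) rho x`. Conversely clear.
-/

set_option autoImplicit false

namespace Pool.Agent.Helper81.PS

variable {K : Type*} [Field K] [Fintype K] [DecidableEq K]

private theorem facts42 {T : K × K × K → K × K × K} (hT : PT T) {x : K × K × K} (hx : x ∈ W K) :
    (T x).1 * x.2.1 = (T x).2.1 * x.1 ∧ (T x).2.2 ≠ 0 ∧ (x.1 ≠ 0 ∨ x.2.1 ≠ 0) := by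
  have hU := W_subset_U hx
  obtain ⟨h1, h3, k, hk, hkk⟩ := mem_W.1 hx
  have h1' : x.1 * x.1 + x.2.1 * x.2.1 + x.2.2 * x.2.2 = 1 := h1
  refine ⟨?_, ?_, ?_⟩
  · obtain ⟨b, hb⟩ : ∃ b : K × K × K, b = (-x.2.1 / k, x.1 / k, 0) := ⟨_, rfl⟩
    have hbU : b ∈ U K := by
      rw [mem_U, hb]
      unfold dot
      field_simp
      linear_combination h1' - hkk
    have hb0 : b.2.2 = 0 := by rw [hb]
    have h4 : dot x b = 0 := by
      rw [hb]
      unfold dot
      field_simp
      ring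
    have h5 := (hT.perp x hU b hbU).2 h4
    have h6 : dot (T x) b = 0 := by
      rcases hT.eq b hbU hb0 with h7 | h7
      · rwa [h7] at h5
      · rw [h7, dot_neg_right, neg_eq_zero] at h5
        exact h5
    rw [hb] at h6
    unfold dot at h6
    field_simp at h6
    linear_combination -h6
  · intro h0
    have h4 : dot (T x) (T e3) = 0 := by
      rcases hT.e with h5 | h5
      · rw [h5, dot_e3, h0]
      · rw [h5, dot_neg_right, dot_e3, h0, neg_zero]
    have h5 := (hT.perp x hU e3 e3_mem_U).1 h4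
    rw [dot_e3] at h5
    exact h3 h5
  · by_contra hc
    push Not at hc
    rw [hc.1, hc.2] at h1'
    have h5 : k * k = 0 := by
      rw [hkk]
      linear_combination -h1'
    exact hk (mul_self_eq_zero.1 h5)

private theorem ex42 {T : K × K × K → K × K × K} (hT : PT T) {x : K × K × K} (hx : x ∈ W K) :
    ∃ c : K, (T x).1 * x.2.2 = c * x.1 * (T x).2.2 ∧ (T x).2.1 * x.2.2 = c * x.2.1 * (T x).2.2 := by
  obtain ⟨h1, h2, h3⟩ := facts42 hT hx
  rcases h3 with h3 | h3
  · refine ⟨(T x).1 / x.1 * x.2.2 / (T x).2.2, ?_, ?_⟩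
    · field_simp
    · field_simp
      linear_combination -(x.2.2) * h1
  · refine ⟨(T x).2.1 / x.2.1 * x.2.2 / (T x).2.2, ?_, ?_⟩
    · field_simp
      linear_combination (x.2.2) * h1
    · field_simp

private theorem uniq42 {T : K × K × K → K × K × K} (hT : PT T) {x : K × K × K} (hx : x ∈ W K) {c d : K}
    (hc : (T x).1 * x.2.2 = c * x.1 * (T x).2.2 ∧ (T x).2.1 * x.2.2 = c * x.2.1 * (T x).2.2)
    (hd : (T x).1 * x.2.2 = d * x.1 * (T x).2.2 ∧ (T x).2.1 * x.2.2 = d * x.2.1 * (T x).2.2) : c = d := by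
  obtain ⟨h1, h2, h3⟩ := facts42 hT hx
  rcases h3 with h3 | h3
  · have h4 := hc.1.symm.trans hd.1
    exact mul_right_cancel₀ h3 (mul_right_cancel₀ h2 h4)
  · have h4 := hc.2.symm.trans hd.2
    exact mul_right_cancel₀ h3 (mul_right_cancel₀ h2 h4)

theorem exists_mul (h2 : (2 : K) ≠ 0) {T : K × K × K → K × K × K} (hT : PT T) :
    ∃ g : K × K × K → K, (∀ x ∈ W K, g (-x) = g x) ∧
      (∀ x ∈ W K, (T x).2.2 ≠ 0 ∧ (T x).1 * x.2.2 = g x * x.1 * (T x).2.2 ∧
        (T x).2.1 * x.2.2 = g x * x.2.1 * (T x).2.2) ∧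
      (∀ x ∈ W K, ∀ y ∈ W K, dot x y = 0 → g x * g y = 1) ∧
      (∀ x ∈ W K, g x = 1 ↔ T x = x ∨ T x = -x) ∧
      (∀ x ∈ W K, g x = -1 ↔ T x = rho x ∨ T x = -rho x) := by
  have hex : ∀ x : K × K × K, ∃ c : K, x ∈ W K →
      (T x).1 * x.2.2 = c * x.1 * (T x).2.2 ∧ (T x).2.1 * x.2.2 = c * x.2.1 * (T x).2.2 := by
    intro x
    by_cases hx : x ∈ W K
    · obtain ⟨c, hc⟩ := ex42 hT hx
      exact ⟨c, fun _ => hc⟩
    · exact ⟨0, fun h => absurd h hx⟩
  choose g hg using hex
  have hsc : ∀ x ∈ W K, ∀ c : K, T x = c • x → T x = x ∨ T x = -x := by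
    intro x hx c hc
    have hU := W_subset_U hx
    have h1 := mem_U.1 (hT.mem x hU)
    rw [hc, dot_smul_left, dot_smul_right, mem_U.1 hU, mul_one] at h1
    rcases mul_self_eq_one_iff.1 h1 with h | h
    · left
      rw [hc, h, one_smul]
    · right
      rw [hc, h, neg_one_smul]
  have hsr : ∀ x ∈ W K, ∀ c : K, T x = c • rho x → T x = rho x ∨ T x = -rho x := by
    intro x hx c hc
    have hU := W_subset_U hx
    have h1 := mem_U.1 (hT.mem x hU)
    rw [hc, dot_smul_left, dot_smul_right, dot_rho_rho, mem_U.1 hU, mul_one] at h1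
    rcases mul_self_eq_one_iff.1 h1 with h | h
    · left
      rw [hc, h, one_smul]
    · right
      rw [hc, h, neg_one_smul]
  refine ⟨g, fun x hx => ?_, fun x hx => ⟨(facts42 hT hx).2.1, hg x hx⟩, fun x hx y hy hxy => ?_, fun x hx => ⟨fun h => ?_, fun h => ?_⟩,
    fun x hx => ⟨fun h => ?_, fun h => ?_⟩⟩
  · have hU := W_subset_U hx
    have h1 := hg (-x) (neg_mem_W.2 hx)
    refine uniq42 hT hx ?_ (hg x hx)
    simp only [Prod.fst_neg, Prod.snd_neg] at h1
    rcases hT.neg x hU with h | h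
    · rw [h] at h1
      exact ⟨by linear_combination -h1.1, by linear_combination -h1.2⟩
    · rw [h] at h1
      simp only [Prod.fst_neg, Prod.snd_neg] at h1
      exact ⟨by linear_combination h1.1, by linear_combination h1.2⟩
  · have h1 := hg x hx
    have h3 := hg y hy
    have h4 := (hT.perp x (W_subset_U hx) y (W_subset_U hy)).2 hxy
    have hx3 := (mem_W.1 hx).2.1
    have hy3 := (mem_W.1 hy).2.1
    have hTx := (facts42 hT hx).2.1
    have hTy := (facts42 hT hy).2.1
    unfold dot at h4 hxy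
    have h5 : (g x * g y) * ((T x).2.2 * (T y).2.2 * x.2.2 * y.2.2) = 1 * ((T x).2.2 * (T y).2.2 * x.2.2 * y.2.2) := by
      linear_combination (g x * g y * (T x).2.2 * (T y).2.2) * hxy - (x.2.2 * y.2.2) * h4 + ((T y).1 * y.2.2) * h1.1
        + (g x * x.1 * (T x).2.2) * h3.1 + ((T y).2.1 * y.2.2) * h1.2 + (g x * x.2.1 * (T x).2.2) * h3.2
    exact mul_right_cancel₀ (mul_ne_zero (mul_ne_zero (mul_ne_zero hTx hTy) hx3) hy3) h5
  · have h1 := hg x hx
    rw [h, one_mul, one_mul] at h1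
    have hx3 := (mem_W.1 hx).2.1
    refine hsc x hx ((T x).2.2 / x.2.2) ?_
    refine Prod.ext ?_ (Prod.ext ?_ ?_)
    · simp only [Prod.smul_fst, smul_eq_mul]
      field_simp
      linear_combination h1.1
    · simp only [Prod.smul_snd, Prod.smul_fst, smul_eq_mul]
      field_simp
      linear_combination h1.2
    · simp only [Prod.smul_snd, smul_eq_mul]
      field_simp
  · refine uniq42 hT hx (hg x hx) ?_
    rcases h with h | h
    · rw [h]
      exact ⟨by ring, by ring⟩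
    · rw [h]
      simp only [Prod.fst_neg, Prod.snd_neg]
      exact ⟨by ring, by ring⟩
  · have h1 := hg x hx
    rw [h] at h1
    have hx3 := (mem_W.1 hx).2.1
    refine hsr x hx ((T x).2.2 / x.2.2) ?_
    refine Prod.ext ?_ (Prod.ext ?_ ?_)
    · simp only [Prod.smul_fst, smul_eq_mul, rho]
      field_simp
      linear_combination h1.1
    · simp only [Prod.smul_snd, Prod.smul_fst, smul_eq_mul, rho]
      field_simp
      linear_combination h1.2
    · simp only [Prod.smul_snd, smul_eq_mul, rho]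
      field_simp
  · refine uniq42 hT hx (hg x hx) ?_
    rcases h with h | h
    · rw [h]
      simp only [rho]
      exact ⟨by ring, by ring⟩
    · rw [h]
      simp only [Prod.fst_neg, Prod.snd_neg, rho]
      exact ⟨by ring, by ring⟩

end Pool.Agent.Helper81.PS
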