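import Pool.Agent.Helper81.PS.EnC

/-!
# Block PS-SE: the spectral inequalities

Write `q = r²`, `s = ∑ h`, `n = ∑ h²`, `b = ∑_{x ∈ U} h x * nb h x`, `e = 1` or `e = -1`. Sum
`(nb h y + 2 e r h y - s / q)² ≥ 0` over `y ∈ U` and `(nb h y - s / q)² ≥ 0` over `y ∈ N`; there are
`2 q²` points altogether (`card_U`, `card_N`). With `energy`, `sum_nb_U`, `sum_nb_N`:
`0 ≤ 2 s² + 4 q n + 4 r² n + 2 s² + 4 e r b - 4 (q + 1) s² / q - 4 e r s² / q`, that is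
`0 ≤ 8 q n + 4 e r b - 4 s² (1 + e r) / q`. For `e = 1` this gives `-b ≤ 2 r n`; for `e = -1` it gives
`b ≤ 2 r n + s² (r - 1) / (q r) ≤ 2 r n + s² / q`.
-/

set_option autoImplicit false

namespace Pool.Agent.Helper81.PS

variable {K : Type*} [Field K] [Fintype K] [DecidableEq K]

private theorem core_h12 (hq : Fintype.card K % 4 = 3) {r e : ℝ} (hrq : r ^ 2 = Fintype.card K)
    (he : e ^ 2 = 1) (h : K × K × K → ℝ) (hh : ∀ x, h (-x) = h x) :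
    0 ≤ 8 * (Fintype.card K : ℝ) * ∑ x ∈ U K, h x ^ 2 + 4 * e * r * ∑ x ∈ U K, h x * nb h x -
      4 * (∑ x ∈ U K, h x) ^ 2 * (1 + e * r) / Fintype.card K := by
  have hE := energy hq h hh
  have hU := sum_nb_U hq h
  have hN := sum_nb_N hq h
  have cU : ((U K).card : ℝ) + Fintype.card K = Fintype.card K * Fintype.card K := by
    exact_mod_cast card_U hq
  have cN : ((N K).card : ℝ) = Fintype.card K * Fintype.card K + Fintype.card K := by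
    exact_mod_cast card_N hq
  have hq0 : (0 : ℝ) < Fintype.card K := by
    have : 0 < Fintype.card K := by omega
    exact_mod_cast this
  generalize (Fintype.card K : ℝ) = q at *
  obtain ⟨c, hc⟩ : ∃ c : ℝ, c = (∑ x ∈ U K, h x) / q := ⟨_, rfl⟩
  have hcq : c * q = ∑ x ∈ U K, h x := by rw [hc, div_mul_cancel₀ _ hq0.ne']
  have h1 : 0 ≤ ∑ y ∈ U K, (nb h y + 2 * e * r * h y - c) ^ 2 :=
    Finset.sum_nonneg fun y _ => sq_nonneg _
  have h2 : 0 ≤ ∑ y ∈ N K, (nb h y - c) ^ 2 := Finset.sum_nonneg fun y _ => sq_nonneg _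
  have h3 : ∑ y ∈ U K, (nb h y + 2 * e * r * h y - c) ^ 2 =
      ∑ y ∈ U K, nb h y ^ 2 + 4 * e ^ 2 * r ^ 2 * ∑ y ∈ U K, h y ^ 2 + (U K).card * c ^ 2 +
        4 * e * r * ∑ y ∈ U K, h y * nb h y - 2 * c * ∑ y ∈ U K, nb h y -
        4 * e * r * c * ∑ y ∈ U K, h y := by
    rw [← nsmul_eq_mul, ← Finset.sum_const, Finset.mul_sum, Finset.mul_sum, Finset.mul_sum,
      Finset.mul_sum, ← Finset.sum_add_distrib, ← Finset.sum_add_distrib, ← Finset.sum_add_distrib,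
      ← Finset.sum_sub_distrib, ← Finset.sum_sub_distrib]
    refine Finset.sum_congr rfl fun y _ => ?_
    ring
  have h4 : ∑ y ∈ N K, (nb h y - c) ^ 2 =
      ∑ y ∈ N K, nb h y ^ 2 + (N K).card * c ^ 2 - 2 * c * ∑ y ∈ N K, nb h y := by
    rw [← nsmul_eq_mul, ← Finset.sum_const, Finset.mul_sum, ← Finset.sum_add_distrib,
      ← Finset.sum_sub_distrib]
    refine Finset.sum_congr rfl fun y _ => ?_
    ring
  have h5 : 4 * (∑ x ∈ U K, h x) ^ 2 * (1 + e * r) / q = 4 * c ^ 2 * q * (1 + e * r) := by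
    rw [← hcq]
    field_simp
  rw [h5]
  rw [h3, hU, he, hrq, ← hcq] at h1
  rw [h4, hN, ← hcq, cN] at h2
  rw [← hcq] at hE
  have cU' : ((U K).card : ℝ) = q * q - q := by linarith
  rw [cU'] at h1
  have h6 := add_nonneg h1 h2
  have h7 : 8 * q * ∑ x ∈ U K, h x ^ 2 + 4 * e * r * ∑ x ∈ U K, h x * nb h x -
      4 * c ^ 2 * q * (1 + e * r) = (∑ y ∈ U K, nb h y ^ 2 + ∑ y ∈ N K, nb h y ^ 2 -
        (2 * (c * q) ^ 2 + 4 * q * ∑ x ∈ U K, h x ^ 2)) * (-1) +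
      (∑ y ∈ U K, nb h y ^ 2 + 4 * 1 * q * ∑ y ∈ U K, h y ^ 2 + (q * q - q) * c ^ 2 +
        4 * e * r * ∑ y ∈ U K, h y * nb h y - 2 * c * ((q + 1) * (c * q)) -
        4 * e * r * c * (c * q) +
      (∑ y ∈ N K, nb h y ^ 2 + (q * q + q) * c ^ 2 - 2 * c * ((q + 1) * (c * q)))) := by
    ring
  rw [h7, hE, sub_self, zero_mul, zero_add]
  exact h6

theorem spec_neg (hq : Fintype.card K % 4 = 3) {r : ℝ} (hr : 0 < r) (hrq : r ^ 2 = Fintype.card K)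
    (h : K × K × K → ℝ) (hh : ∀ x, h (-x) = h x) :
    -(∑ x ∈ U K, h x * nb h x) ≤ 2 * r * ∑ x ∈ U K, h x ^ 2 := by
  have h1 := core_h12 hq (e := 1) hrq (by norm_num) h hh
  rw [← hrq] at h1
  have h2 : 0 ≤ 4 * (∑ x ∈ U K, h x) ^ 2 * (1 + 1 * r) / r ^ 2 := by positivity
  have h3 : 0 ≤ r * (2 * r * ∑ x ∈ U K, h x ^ 2 + ∑ x ∈ U K, h x * nb h x) := by
    nlinarith
  have h4 := nonneg_of_mul_nonneg_right h3 hr
  linarith

theorem spec_pos (hq : Fintype.card K % 4 = 3) {r : ℝ} (hr : 0 < r) (hrq : r ^ 2 = Fintype.card K)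
    (h : K × K × K → ℝ) (hh : ∀ x, h (-x) = h x) :
    ∑ x ∈ U K, h x * nb h x ≤
      2 * r * ∑ x ∈ U K, h x ^ 2 + (∑ x ∈ U K, h x) ^ 2 / Fintype.card K := by
  have h1 := core_h12 hq (e := -1) hrq (by norm_num) h hh
  rw [← hrq] at h1 ⊢
  have h2 : 4 * (∑ x ∈ U K, h x) ^ 2 * (1 + -1 * r) / r ^ 2 =
      4 * ((∑ x ∈ U K, h x) ^ 2 / r ^ 2) * (1 - r) := by ring
  rw [h2] at h1
  have h3 : 0 ≤ (∑ x ∈ U K, h x) ^ 2 / r ^ 2 := by positivity
  generalize (∑ x ∈ U K, h x) ^ 2 / r ^ 2 = a at *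
  have h4 : 0 ≤ r * (2 * r * ∑ x ∈ U K, h x ^ 2 + a - ∑ x ∈ U K, h x * nb h x) := by
    nlinarith
  have h5 := nonneg_of_mul_nonneg_right h4 hr
  linarith

end Pool.Agent.Helper81.PS
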