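import Pool.Agent.Helper81.PS.Fix
import Pool.Agent.Helper81.PS.Gam
import Pool.Agent.Helper81.PS.Cnt
import Pool.Agent.Helper81.PS.Spec

/-!
# Block PS-BG: the partition of `W` by the multiplier

`g` as in `exists_mul`. `G e` (`e = 1`, `-1`) is the set of the `x ∈ W` with `g x = e`, `R` the rest.
For orthogonal `x`, `y ∈ W` one has `g y = (g x)⁻¹`; so there are no orthogonal pairs between `G 1`,
`G (-1)` and `R`, and the number `P` of orthogonal pairs in `W` is the sum of the numbers in `G 1`,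
`G (-1)`, `R`. By `spec_pos` for the indicator functions (`#G e = n_e`) the first two are at most
`2 r n_e + n_e² / q`. For `R` choose an injection `f : K → ℕ` and put `s x = 1` if
`f (g x) < f ((g x)⁻¹)` and `-1` otherwise; since `g x ≠ (g x)⁻¹` for `x ∈ R` with a neighbour in `R`,
`s x s y = -1` for orthogonal `x`, `y ∈ R`, so `spec_neg` for `h = s` on `R`, `0` elsewhere, gives
`#pairs in R ≤ 2 r #R`. Sum up.
-/

set_option autoImplicit false

namespace Pool.Agent.Helper81.PS

variable {K : Type*} [Field K] [Fintype K] [DecidableEq K]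

omit [Field K] [DecidableEq K] in
private theorem exists_inj_h54 : ∃ f : K → ℕ, Function.Injective f :=
  ⟨fun a => (Fintype.equivFin K a : ℕ), fun _ _ h =>
    (Fintype.equivFin K).injective (Fin.val_injective h)⟩

private noncomputable def sg_h54 (f : K → ℕ) (a : K) : ℝ := if f a < f a⁻¹ then 1 else -1

omit [Fintype K] [DecidableEq K] in
private theorem sg_sq_h54 (f : K → ℕ) (a : K) : sg_h54 f a ^ 2 = 1 := by
  unfold sg_h54
  split_ifs <;> norm_num

omit [Fintype K] [DecidableEq K] in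
private theorem sg_mul_h54 {f : K → ℕ} (hf : Function.Injective f) {a b : K} (hab : a * b = 1)
    (h1 : a ≠ 1) (h2 : a ≠ -1) : sg_h54 f a * sg_h54 f b = -1 := by
  have hb : b = a⁻¹ := (eq_inv_of_mul_eq_one_right hab)
  have hne : f a ≠ f a⁻¹ := by
    intro h
    have h3 := hf h
    rw [← hb] at h3
    rw [← h3] at hab
    rcases mul_self_eq_one_iff.1 hab with h4 | h4
    · exact h1 h4
    · exact h2 h4
  unfold sg_h54
  rw [hb, inv_inv]
  rcases lt_or_gt_of_ne hne with h | h
  · rw [if_pos h, if_neg (not_lt.2 h.le)]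
    norm_num
  · rw [if_pos h, if_neg (not_lt.2 h.le)]
    norm_num

private theorem B_h54 (h : K × K × K → ℝ) (h0 : ∀ x, x ∉ W K → h x = 0) :
    ∑ x ∈ U K, h x * nb h x =
      ∑ x ∈ W K, ∑ y ∈ W K, h x * (if dot x y = 0 then h y else 0) := by
  rw [← Finset.sum_subset W_subset_U (fun x _ hx => by rw [h0 x hx, zero_mul])]
  refine Finset.sum_congr rfl fun x _ => ?_
  unfold nb
  rw [← Finset.sum_subset W_subset_U (fun y _ hy => by rw [h0 y hy, ite_self]), Finset.mul_sum]
  exact Finset.sum_congr rfl fun y _ => by rw [dot_comm]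

private theorem S_h54 (h : K × K × K → ℝ) (h0 : ∀ x, x ∉ W K → h x = 0) :
    ∑ x ∈ U K, h x = ∑ x ∈ W K, h x :=
  (Finset.sum_subset W_subset_U (fun x _ hx => h0 x hx)).symm

private theorem Q_h54 (h : K × K × K → ℝ) (h0 : ∀ x, x ∉ W K → h x = 0) :
    ∑ x ∈ U K, h x ^ 2 = ∑ x ∈ W K, h x ^ 2 :=
  (Finset.sum_subset W_subset_U (fun x _ hx => by rw [h0 x hx]; norm_num)).symm

theorem partition (hq : Fintype.card K % 4 = 3) {r : ℝ} (hr : 0 < r)
    (hrq : r ^ 2 = Fintype.card K) (g : K × K × K → K) (hg : ∀ x ∈ W K, g (-x) = g x)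
    (hgg : ∀ x ∈ W K, ∀ y ∈ W K, dot x y = 0 → g x * g y = 1) :
    (((W K ×ˢ W K).filter fun p => dot p.1 p.2 = 0).card : ℝ) ≤ 2 * r * (W K).card +
      (((W K).filter fun x => g x = 1).card : ℝ) ^ 2 / Fintype.card K +
      (((W K).filter fun x => g x = -1).card : ℝ) ^ 2 / Fintype.card K := by
  obtain ⟨f, hf⟩ := exists_inj_h54 (K := K)
  have hone : (1 : K) ≠ -1 := fun h => two_ne_zero' hq (by linear_combination h)
  obtain ⟨a, ha⟩ : ∃ a : K × K × K → ℝ, ∀ x, a x = if x ∈ W K ∧ g x = 1 then 1 else 0 :=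
    ⟨_, fun _ => rfl⟩
  obtain ⟨b, hb⟩ : ∃ b : K × K × K → ℝ, ∀ x, b x = if x ∈ W K ∧ g x = -1 then 1 else 0 :=
    ⟨_, fun _ => rfl⟩
  obtain ⟨c, hc⟩ : ∃ c : K × K × K → ℝ,
      ∀ x, c x = if x ∈ W K ∧ g x ≠ 1 ∧ g x ≠ -1 then sg_h54 f (g x) else 0 :=
    ⟨_, fun _ => rfl⟩
  have ha0 : ∀ x, x ∉ W K → a x = 0 := fun x hx => by rw [ha, if_neg (fun h => hx h.1)]
  have hb0 : ∀ x, x ∉ W K → b x = 0 := fun x hx => by rw [hb, if_neg (fun h => hx h.1)]
  have hc0 : ∀ x, x ∉ W K → c x = 0 := fun x hx => by rw [hc, if_neg (fun h => hx h.1)]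
  have hane : ∀ x, a (-x) = a x := by
    intro x
    by_cases hx : x ∈ W K
    · simp only [ha, neg_mem_W, hg x hx]
    · rw [ha0 x hx, ha0 (-x) (fun h => hx (neg_mem_W.1 h))]
  have hbne : ∀ x, b (-x) = b x := by
    intro x
    by_cases hx : x ∈ W K
    · simp only [hb, neg_mem_W, hg x hx]
    · rw [hb0 x hx, hb0 (-x) (fun h => hx (neg_mem_W.1 h))]
  have hcne : ∀ x, c (-x) = c x := by
    intro x
    by_cases hx : x ∈ W K
    · simp only [hc, neg_mem_W, hg x hx]
    · rw [hc0 x hx, hc0 (-x) (fun h => hx (neg_mem_W.1 h))]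
  have h1 := spec_pos hq hr hrq a hane
  have h2 := spec_pos hq hr hrq b hbne
  have h3 := spec_neg hq hr hrq c hcne
  rw [B_h54 a ha0, S_h54 a ha0, Q_h54 a ha0] at h1
  rw [B_h54 b hb0, S_h54 b hb0, Q_h54 b hb0] at h2
  rw [B_h54 c hc0, Q_h54 c hc0] at h3
  have hsa : ∑ x ∈ W K, a x = (((W K).filter fun x => g x = 1).card : ℝ) := by
    rw [Finset.card_filter, Nat.cast_sum]
    refine Finset.sum_congr rfl fun x hx => ?_
    rw [ha]
    simp [hx]
  have hsb : ∑ x ∈ W K, b x = (((W K).filter fun x => g x = -1).card : ℝ) := by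
    rw [Finset.card_filter, Nat.cast_sum]
    refine Finset.sum_congr rfl fun x hx => ?_
    rw [hb]
    simp [hx]
  rw [hsa] at h1
  rw [hsb] at h2
  have hsq : ∑ x ∈ W K, a x ^ 2 + ∑ x ∈ W K, b x ^ 2 + ∑ x ∈ W K, c x ^ 2 = (W K).card := by
    rw [← Finset.sum_add_distrib, ← Finset.sum_add_distrib, Finset.cast_card]
    refine Finset.sum_congr rfl fun x hx => ?_
    rw [ha, hb, hc]
    by_cases h4 : g x = 1
    · have h5 : g x ≠ -1 := by rw [h4]; exact hone
      simp [hx, h4, hone]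
    · by_cases h5 : g x = -1
      · simp [hx, h5, hone.symm]
      · simp [hx, h4, h5, sg_sq_h54]
  have hP : (((W K ×ˢ W K).filter fun p => dot p.1 p.2 = 0).card : ℝ) =
      ∑ x ∈ W K, ∑ y ∈ W K, a x * (if dot x y = 0 then a y else 0) +
      ∑ x ∈ W K, ∑ y ∈ W K, b x * (if dot x y = 0 then b y else 0) +
      -∑ x ∈ W K, ∑ y ∈ W K, c x * (if dot x y = 0 then c y else 0) := by
    rw [Finset.card_filter, Finset.sum_product, Nat.cast_sum, ← Finset.sum_neg_distrib,
      ← Finset.sum_add_distrib, ← Finset.sum_add_distrib]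
    refine Finset.sum_congr rfl fun x hx => ?_
    rw [Nat.cast_sum, ← Finset.sum_neg_distrib, ← Finset.sum_add_distrib,
      ← Finset.sum_add_distrib]
    refine Finset.sum_congr rfl fun y hy => ?_
    by_cases hxy : dot x y = 0
    · have h4 := hgg x hx y hy hxy
      simp only [hxy, if_true, Nat.cast_one]
      rw [ha, ha, hb, hb, hc, hc]
      by_cases h5 : g x = 1
      · have h6 : g y = 1 := by rwa [h5, one_mul] at h4
        simp [hx, hy, h5, h6, hone]
      · by_cases h6 : g x = -1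
        · have h7 : g y = -1 := by
            rw [h6] at h4
            linear_combination -h4
          simp [hx, hy, h6, h7, hone.symm]
        · have h7 : g y ≠ 1 := by
            intro h
            rw [h, mul_one] at h4
            exact h5 h4
          have h8 : g y ≠ -1 := by
            intro h
            rw [h] at h4
            exact h6 (by linear_combination -h4)
          have h9 := sg_mul_h54 hf h4 h5 h6
          simp [hx, hy, h5, h6, h7, h8, h9]
    · simp [hxy]
  rw [hP]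
  have h5 : 2 * r * ((W K).card : ℝ) = 2 * r * ∑ x ∈ W K, a x ^ 2 + 2 * r * ∑ x ∈ W K, b x ^ 2 +
      2 * r * ∑ x ∈ W K, c x ^ 2 := by
    rw [← hsq]
    ring
  rw [h5]
  linarith

end Pool.Agent.Helper81.PS
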