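import Pool.Agent.Helper81.PS.Defs

/-!
# Block PS-CH: chains of values in the fields with 7, 11, 19, 23 elements

`K` is isomorphic to `ZMod p` (prime cardinality: characteristic `p`, `ZMod.castHom` is injective and
hence bijective; or `FiniteField` / `ZMod.ringEquivOfPrime`), and for `ZMod p` the statement is a finite
check (`decide` or `decide +kernel` for an explicit statement, for instance: every `c` with `c ≠ 0`,
`c² ≠ 1`, `4 c² ≠ 1` has a step to some `s` with `4 s² = 1`, or a step to some `s'` which has a step to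
some `s` with `4 s² = 1`; for `q = 7, 11, 19, 23` paths of length at most two or three are enough).
-/

set_option autoImplicit false

namespace Pool.Agent.Helper81.PS

variable {K : Type*} [Field K] [Fintype K] [DecidableEq K]

namespace CH

/-- Values which are there from the start. -/
def G0 {F : Type*} [Field F] (c : F) : Prop := c = 0 ∨ c * c = 1 ∨ 4 * (c * c) = 1

/-- A step from `s` to `c`. -/
def Stp {F : Type*} [Field F] (c s : F) : Prop :=
  c * c ≠ 1 ∧ s ≠ 0 ∧ ∃ k : F, k ≠ 0 ∧ k * k = 1 - c * c - s * s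

/-- Every value is reached in at most two steps. -/
def Two (F : Type*) [Field F] : Prop :=
  ∀ c : F, G0 c ∨ ∃ s : F, Stp c s ∧ (G0 s ∨ ∃ t : F, Stp s t ∧ G0 t)

scoped instance fact7 : Fact (Nat.Prime 7) := ⟨by norm_num⟩
scoped instance fact11 : Fact (Nat.Prime 11) := ⟨by norm_num⟩
scoped instance fact19 : Fact (Nat.Prime 19) := ⟨by norm_num⟩
scoped instance fact23 : Fact (Nat.Prime 23) := ⟨by norm_num⟩

theorem two7 : Two (ZMod 7) := by unfold Two G0 Stp; decide +kernel
theorem two11 : Two (ZMod 11) := by unfold Two G0 Stp; decide +kernel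
theorem two19 : Two (ZMod 19) := by unfold Two G0 Stp; decide +kernel
theorem two23 : Two (ZMod 23) := by unfold Two G0 Stp; decide +kernel

theorem two_transfer {F : Type*} [Field F] {K : Type*} [Field K] (e : F ≃+* K) (h : Two F) :
    Two K := by
  have hG : ∀ x : F, G0 x → G0 (e x) := by
    rintro x (hx | hx | hx)
    · left; rw [hx, map_zero]
    · right; left; rw [← map_mul, hx, map_one]
    · right; right
      have := congrArg e hx
      simpa [map_mul, map_ofNat] using this
  have hS : ∀ c s : F, Stp c s → Stp (e c) (e s) := by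
    rintro c s ⟨h1, h2, k, h3, h4⟩
    refine ⟨?_, ?_, e k, ?_, ?_⟩
    · intro h5
      apply h1
      apply e.injective
      rw [map_mul, h5, map_one]
    · intro h5; exact h2 ((map_eq_zero_iff e e.injective).1 h5)
    · intro h5; exact h3 ((map_eq_zero_iff e e.injective).1 h5)
    · rw [← map_mul, h4]; simp
  intro c
  obtain ⟨x, rfl⟩ := e.surjective c
  rcases h x with h1 | ⟨s, h1, h2 | ⟨t, h2, h3⟩⟩
  · exact Or.inl (hG x h1)
  · exact Or.inr ⟨e s, hS _ _ h1, Or.inl (hG _ h2)⟩
  · exact Or.inr ⟨e s, hS _ _ h1, Or.inr ⟨e t, hS _ _ h2, hG _ h3⟩⟩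

end CH

open CH in
theorem chain (hq : Fintype.card K = 7 ∨ Fintype.card K = 11 ∨ Fintype.card K = 19 ∨
    Fintype.card K = 23) (V : K → Prop) (h0 : V 0) (h1 : ∀ c, c * c = 1 → V c)
    (h3 : ∀ c, 4 * (c * c) = 1 → V c)
    (hs : ∀ c s k : K, c * c ≠ 1 → s ≠ 0 → k ≠ 0 → k * k = 1 - c * c - s * s → V s → V c) :
    ∀ c, V c := by
  have hT : Two K := by
    rcases hq with h | h | h | h
    · exact two_transfer (ZMod.ringEquivOfPrime K (by norm_num) h) two7
    · exact two_transfer (ZMod.ringEquivOfPrime K (by norm_num) h) two11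
    · exact two_transfer (ZMod.ringEquivOfPrime K (by norm_num) h) two19
    · exact two_transfer (ZMod.ringEquivOfPrime K (by norm_num) h) two23
  have hG : ∀ c, G0 c → V c := by
    rintro c (hc | hc | hc)
    · rw [hc]; exact h0
    · exact h1 c hc
    · exact h3 c hc
  have hS : ∀ c s, Stp c s → V s → V c := by
    rintro c s ⟨g1, g2, k, g3, g4⟩ hv
    exact hs c s k g1 g2 g3 g4 hv
  intro c
  rcases hT c with h1 | ⟨s, h1, h2 | ⟨t, h2, h3⟩⟩
  · exact hG c h1
  · exact hS c s h1 (hG s h2)
  · exact hS c s h1 (hS s t h2 (hG t h3))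

end Pool.Agent.Helper81.PS
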