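import Pool.Agent.Helper81.PS.Defs

/-!
# Block PS-CI: the circle over a finite field with `q = 3 mod 4` elements

`neg_one_not_sq`: `FiniteField.isSquare_neg_one_iff`. `sum_sq_eq_zero`: if `b ≠ 0` then `(a / b)^2 = -1`.
`exists_sum_sq`: every element of a finite field is a sum of two squares (pigeonhole, or
`FiniteField.exists_root_sum_quadratic`, or by `sq_or_neg_sq` it is enough to do `c = -1`).
`card_circle`: put `n c` = number of solutions of `a² + b² = c`. If `u² + v² = c ≠ 0` then
`(a, b) ↦ (u a - v b, u b + v a)` is a bijection between the solutions for `1` and for `c`, so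
`n c = n 1`; `n 0 = 1` and `∑_c n c = q²`, hence `(q - 1) n 1 = q² - 1`.
`card_sqrt`: exactly one of `c`, `-c` is a square if `c ≠ 0` (`-1` is not a square, and the squares have
index two: `FiniteField.isSquare_iff` or `quadraticChar`), and a nonzero square has two roots.
-/

set_option autoImplicit false

namespace Pool.Agent.Helper81.PS

variable {K : Type*} [Field K] [Fintype K] [DecidableEq K]

theorem neg_one_not_sq (hq : Fintype.card K % 4 = 3) (k : K) : k * k ≠ -1 := by
  intro h
  have h1 : IsSquare (-1 : K) := ⟨k, h.symm⟩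
  exact (FiniteField.isSquare_neg_one_iff.1 h1) hq

theorem two_ne_zero' (hq : Fintype.card K % 4 = 3) : (2 : K) ≠ 0 := by
  intro h
  apply neg_one_not_sq hq (1 : K)
  have h1 : (1 : K) + 1 = 0 := by
    rw [one_add_one_eq_two, h]
  rw [one_mul]
  exact eq_neg_of_add_eq_zero_left h1

theorem sum_sq_eq_zero (hq : Fintype.card K % 4 = 3) {a b : K} (h : a * a + b * b = 0) :
    a = 0 ∧ b = 0 := by
  by_cases hb : b = 0
  · subst hb
    refine ⟨?_, rfl⟩
    have : a * a = 0 := by simpa using h
    exact mul_self_eq_zero.1 this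
  · exfalso
    apply neg_one_not_sq hq (a / b)
    have h1 : a * a = -(b * b) := eq_neg_of_add_eq_zero_left h
    rw [div_mul_div_comm, h1, neg_div, div_self (mul_ne_zero hb hb)]

theorem sq_or_neg_sq (hq : Fintype.card K % 4 = 3) {c : K} (hc : c ≠ 0) :
    ∃ k : K, k ≠ 0 ∧ (k * k = c ∨ k * k = -c) := by
  have h2 : ringChar K ≠ 2 := by
    intro h
    apply two_ne_zero' hq (K := K)
    have := CharP.cast_eq_zero K (ringChar K)
    rw [h] at this
    simpa using this
  rcases FiniteField.pow_dichotomy h2 hc with h | h
  · obtain ⟨k, hk⟩ := (FiniteField.isSquare_iff h2 hc).2 h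
    refine ⟨k, ?_, Or.inl hk.symm⟩
    rintro rfl
    apply hc
    simpa using hk
  · have h3 : (-c) ^ (Fintype.card K / 2) = 1 := by
      rw [neg_pow, h]
      have hodd : Odd (Fintype.card K / 2) := by
        rw [Nat.odd_iff]
        omega
      rw [hodd.neg_one_pow]
      ring
    obtain ⟨k, hk⟩ := (FiniteField.isSquare_iff h2 (neg_ne_zero.2 hc)).2 h3
    refine ⟨k, ?_, Or.inr hk.symm⟩
    rintro rfl
    apply hc
    simpa using hk

theorem exists_sum_sq (hq : Fintype.card K % 4 = 3) (c : K) : ∃ a b : K, a * a + b * b = c := by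
  obtain ⟨a, b, h⟩ := FiniteField.exists_root_sum_quadratic (R := K)
    (f := Polynomial.X ^ 2 - Polynomial.C c) (g := Polynomial.X ^ 2)
    (Polynomial.degree_X_pow_sub_C (by norm_num) c) (Polynomial.degree_X_pow 2) (by omega)
  refine ⟨a, b, ?_⟩
  simp only [Polynomial.eval_sub, Polynomial.eval_pow, Polynomial.eval_X, Polynomial.eval_C] at h
  linear_combination h

theorem card_circle (hq : Fintype.card K % 4 = 3) {c : K} (hc : c ≠ 0) :
    (Finset.univ.filter fun z : K × K => z.1 * z.1 + z.2 * z.2 = c).card = Fintype.card K + 1 := by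
  classical
  have key : ∀ d : K, d ≠ 0 → (Finset.univ.filter fun z : K × K => z.1 * z.1 + z.2 * z.2 = d).card =
      (Finset.univ.filter fun z : K × K => z.1 * z.1 + z.2 * z.2 = 1).card := by
    intro d hd
    obtain ⟨u, v, huv⟩ := exists_sum_sq hq d
    symm
    refine Finset.card_bij' (fun z _ => (u * z.1 - v * z.2, u * z.2 + v * z.1))
      (fun z _ => ((u * z.1 + v * z.2) / d, (u * z.2 - v * z.1) / d)) ?_ ?_ ?_ ?_
    · intro z hz
      simp only [Finset.mem_filter, Finset.mem_univ, true_and] at hz ⊢
      linear_combination (u * u + v * v) * hz + huv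
    · intro z hz
      simp only [Finset.mem_filter, Finset.mem_univ, true_and] at hz ⊢
      field_simp
      linear_combination (u * u + v * v) * hz + d * huv
    · intro z _
      refine Prod.ext ?_ ?_
      · show (u * (u * z.1 - v * z.2) + v * (u * z.2 + v * z.1)) / d = z.1
        rw [div_eq_iff hd]
        linear_combination z.1 * huv
      · show (u * (u * z.2 + v * z.1) - v * (u * z.1 - v * z.2)) / d = z.2
        rw [div_eq_iff hd]
        linear_combination z.2 * huv
    · intro z _
      refine Prod.ext ?_ ?_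
      · show u * ((u * z.1 + v * z.2) / d) - v * ((u * z.2 - v * z.1) / d) = z.1
        field_simp
        linear_combination z.1 * huv
      · show u * ((u * z.2 - v * z.1) / d) + v * ((u * z.1 + v * z.2) / d) = z.2
        field_simp
        linear_combination z.2 * huv
  have h0 : (Finset.univ.filter fun z : K × K => z.1 * z.1 + z.2 * z.2 = (0 : K)).card = 1 := by
    rw [Finset.card_eq_one]
    refine ⟨(0, 0), ?_⟩
    ext z
    simp only [Finset.mem_filter, Finset.mem_univ, true_and, Finset.mem_singleton]
    constructor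
    · intro h
      obtain ⟨h1, h2⟩ := sum_sq_eq_zero hq h
      exact Prod.ext h1 h2
    · rintro rfl
      simp
  have hsum : (Finset.univ : Finset (K × K)).card =
      ∑ d : K, (Finset.univ.filter fun z : K × K => z.1 * z.1 + z.2 * z.2 = d).card :=
    Finset.card_eq_sum_card_fiberwise (f := fun z : K × K => z.1 * z.1 + z.2 * z.2)
      (fun _ _ => Finset.mem_coe.2 (Finset.mem_univ _))
  rw [← Finset.add_sum_erase Finset.univ _ (Finset.mem_univ (0 : K)), h0,
    Finset.sum_congr rfl (fun d hd => key d (Finset.ne_of_mem_erase hd)), Finset.sum_const,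
    Finset.card_erase_of_mem (Finset.mem_univ _), Finset.card_univ, Finset.card_univ, Fintype.card_prod,
    smul_eq_mul] at hsum
  rw [key c hc]
  obtain ⟨m, hm⟩ : ∃ m, Fintype.card K = m + 2 := ⟨Fintype.card K - 2, by omega⟩
  rw [hm] at hsum ⊢
  have h3 : m + 2 - 1 = m + 1 := by omega
  rw [h3] at hsum
  have h4 : (m + 1) * (Finset.univ.filter fun z : K × K => z.1 * z.1 + z.2 * z.2 = (1 : K)).card =
      (m + 1) * (m + 2 + 1) := by
    have h5 : (m + 2) * (m + 2) = 1 + (m + 1) * (m + 2 + 1) := by ring
    omega
  exact Nat.eq_of_mul_eq_mul_left (by omega) h4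

theorem card_sqrt (hq : Fintype.card K % 4 = 3) (c : K) :
    (Finset.univ.filter fun t : K => t * t = c).card +
      (Finset.univ.filter fun t : K => t * t = -c).card = 2 := by
  classical
  have two : ∀ k : K, k ≠ 0 → (Finset.univ.filter fun t : K => t * t = k * k).card = 2 := by
    intro k hk
    rw [Finset.card_eq_two]
    refine ⟨k, -k, ?_, ?_⟩
    · intro h
      have h1 : (2 : K) * k = 0 := by linear_combination h
      rcases mul_eq_zero.1 h1 with h2 | h2
      · exact two_ne_zero' hq h2
      · exact hk h2
    · ext t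
      simp only [Finset.mem_filter, Finset.mem_univ, true_and, Finset.mem_insert, Finset.mem_singleton]
      exact mul_self_eq_mul_self_iff
  have zero : ∀ k : K, k ≠ 0 → (Finset.univ.filter fun t : K => t * t = -(k * k)).card = 0 := by
    intro k hk
    rw [Finset.card_eq_zero, Finset.filter_eq_empty_iff]
    intro t _ h
    have h1 := sum_sq_eq_zero hq (show t * t + k * k = 0 by rw [h]; ring)
    exact hk h1.2
  by_cases hc : c = 0
  · subst hc
    have h1 : (Finset.univ.filter fun t : K => t * t = 0).card = 1 := by
      rw [Finset.card_eq_one]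
      refine ⟨0, ?_⟩
      ext t
      simp
    rw [neg_zero, h1]
  · obtain ⟨k, hk, h | h⟩ := sq_or_neg_sq hq hc
    · rw [← h, two k hk, zero k hk]
    · have h1 : c = -(k * k) := by rw [h, neg_neg]
      rw [h1, neg_neg, two k hk, zero k hk]

end Pool.Agent.Helper81.PS
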