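import Pool.Agent.Helper81.PS.EnC

/-!
# Block PS-CL: a large set with few neighbours outside is everything

Let `n = #F`, `m = #(U \ F) = q² - q - n` (`card_U`), `h` the indicator function of `F`. By `sum_nb_U` and
`hnb`, `∑_{x ∈ F} nb h x ≥ (q + 1) n - 2 m`, which is `≥ 0` by `h2`; Cauchy-Schwarz on `F` and on `N`
(`sum_nb_N`, `card_N`) and `energy` give
`((q + 1) n - 2 m)² / n + (q + 1) n² / q ≤ 2 n² + 4 q n`. Multiply by `n` and insert `n = q² - q - m`:
this is `m` times `(n² (q - 1) - 4 q (q + 2) n + 4 q² (q - 1)) / (positive)` `≤ 0`; precisely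
`(q - 1)/q * n² * m + 4 m² ≤ 4 (q + 1) n m`, and for `m > 0` this contradicts `h1`.
-/

set_option autoImplicit false

namespace Pool.Agent.Helper81.PS

variable {K : Type*} [Field K] [Fintype K] [DecidableEq K]

theorem clos (hq : Fintype.card K % 4 = 3) (F : Finset (K × K × K)) (hF : F ⊆ U K)
    (hneg : ∀ x ∈ F, -x ∈ F)
    (hnb : ∀ x ∈ U K, x ∉ F → nb (fun y => if y ∈ F then 1 else 0) x ≤ 2)
    (h1 : 0 < (F.card : ℝ) ^ 2 * ((Fintype.card K : ℝ) - 1) -
      4 * Fintype.card K * ((Fintype.card K : ℝ) + 2) * F.card +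
      4 * (Fintype.card K : ℝ) ^ 2 * ((Fintype.card K : ℝ) - 1))
    (h2 : 2 * (Fintype.card K : ℝ) * ((Fintype.card K : ℝ) - 1) ≤
      ((Fintype.card K : ℝ) + 3) * F.card) : F = U K := by
  classical
  set q : ℝ := (Fintype.card K : ℝ) with hqdef
  set h : K × K × K → ℝ := fun y => if y ∈ F then 1 else 0 with hh
  have hq3 : 3 ≤ Fintype.card K := by omega
  have hq3' : (3 : ℝ) ≤ q := by rw [hqdef]; exact_mod_cast hq3
  have hsym : ∀ x, h (-x) = h x := by
    intro x
    have e : (-x ∈ F) ↔ (x ∈ F) := by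
      constructor
      · intro hx
        have := hneg _ hx
        rwa [neg_neg] at this
      · exact hneg x
    simp only [hh, e]
  set n : ℝ := (F.card : ℝ) with hn
  have hsum1 : ∑ x ∈ U K, h x = n := by
    rw [hh, Finset.sum_ite_mem, Finset.inter_eq_right.2 hF, Finset.sum_const, nsmul_eq_mul, mul_one]
  have hsum2 : ∑ x ∈ U K, h x ^ 2 = n := by
    rw [← hsum1]
    refine Finset.sum_congr rfl fun x _ => ?_
    simp only [hh]
    split_ifs <;> norm_num
  have hE := energy hq h hsym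
  rw [hsum1, hsum2] at hE
  have hSU := sum_nb_U hq h
  have hSN := sum_nb_N hq h
  rw [hsum1] at hSU hSN
  have hcU : ((U K).card : ℝ) + q = q * q := by
    have := card_U (K := K) hq
    rw [hqdef]; exact_mod_cast this
  have hcN : ((N K).card : ℝ) = q * q + q := by
    have := card_N (K := K) hq
    rw [hqdef]; exact_mod_cast this
  have hcard : ((U K \ F).card : ℝ) + n = (U K).card := by
    have := Finset.card_sdiff_add_card_eq_card hF
    rw [hn]; exact_mod_cast this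
  set m : ℝ := ((U K \ F).card : ℝ) with hm
  have hm0 : 0 ≤ m := Nat.cast_nonneg _
  have hn0 : 0 ≤ n := Nat.cast_nonneg _
  have hmn : m = q * q - q - n := by linarith
  -- the sum over the outside
  have hout : ∑ x ∈ U K \ F, nb h x ≤ 2 * m := by
    calc ∑ x ∈ U K \ F, nb h x ≤ ∑ x ∈ U K \ F, (2 : ℝ) := by
          refine Finset.sum_le_sum fun x hx => ?_
          rw [Finset.mem_sdiff] at hx
          exact hnb x hx.1 hx.2
      _ = 2 * m := by rw [Finset.sum_const, nsmul_eq_mul]; ring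
  have hsplit : ∑ x ∈ U K \ F, nb h x + ∑ x ∈ F, nb h x = ∑ x ∈ U K, nb h x :=
    Finset.sum_sdiff hF
  set A : ℝ := ∑ x ∈ F, nb h x with hA
  have hA1 : (q + 1) * n - 2 * m ≤ A := by linarith
  have hA0 : 0 ≤ (q + 1) * n - 2 * m := by
    rw [hmn]; nlinarith [h2]
  have hCSF : A ^ 2 ≤ n * ∑ x ∈ F, nb h x ^ 2 := by
    have := sq_sum_le_card_mul_sum_sq (s := F) (f := fun x => nb h x)
    exact this
  have hCSN : ((q + 1) * n) ^ 2 ≤ (q * q + q) * ∑ x ∈ N K, nb h x ^ 2 := by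
    have := sq_sum_le_card_mul_sum_sq (s := N K) (f := fun x => nb h x)
    rw [hSN, hcN] at this
    exact this
  have hFU : ∑ x ∈ F, nb h x ^ 2 ≤ ∑ x ∈ U K, nb h x ^ 2 :=
    Finset.sum_le_sum_of_subset_of_nonneg hF fun _ _ _ => sq_nonneg _
  have hCSN2 : (q + 1) * n ^ 2 ≤ q * ∑ x ∈ N K, nb h x ^ 2 := by
    have h3 : (q + 1) * ((q + 1) * n ^ 2) ≤ (q + 1) * (q * ∑ x ∈ N K, nb h x ^ 2) := by
      linarith
    exact le_of_mul_le_mul_left h3 (by linarith)
  have hAsq : ((q + 1) * n - 2 * m) ^ 2 ≤ A ^ 2 := by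
    exact pow_le_pow_left₀ hA0 hA1 2
  -- the main inequality
  have key : q * ((q + 1) * n - 2 * m) ^ 2 + n * ((q + 1) * n ^ 2) ≤ q * n * (2 * n ^ 2 + 4 * q * n) := by
    have s1 : q * ((q + 1) * n - 2 * m) ^ 2 ≤ q * (n * ∑ x ∈ U K, nb h x ^ 2) := by
      refine mul_le_mul_of_nonneg_left ?_ (by linarith)
      exact (hAsq.trans hCSF).trans (mul_le_mul_of_nonneg_left hFU hn0)
    have s2 : n * ((q + 1) * n ^ 2) ≤ n * (q * ∑ x ∈ N K, nb h x ^ 2) :=
      mul_le_mul_of_nonneg_left hCSN2 hn0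
    calc q * ((q + 1) * n - 2 * m) ^ 2 + n * ((q + 1) * n ^ 2)
        ≤ q * (n * ∑ x ∈ U K, nb h x ^ 2) + n * (q * ∑ x ∈ N K, nb h x ^ 2) := add_le_add s1 s2
      _ = q * n * (∑ x ∈ U K, nb h x ^ 2 + ∑ x ∈ N K, nb h x ^ 2) := by ring
      _ = q * n * (2 * n ^ 2 + 4 * q * n) := by rw [hE]
  have key2 : m * ((q - 1) * n ^ 2 - 4 * q * (q + 1) * n + 4 * q * m) ≤ 0 := by
    have e : q * ((q + 1) * n - 2 * m) ^ 2 + n * ((q + 1) * n ^ 2) - q * n * (2 * n ^ 2 + 4 * q * n) =
        m * ((q - 1) * n ^ 2 - 4 * q * (q + 1) * n + 4 * q * m) := by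
      have e1 : n = q * q - q - m := by linarith
      rw [e1]
      ring
    rw [← e]
    linarith
  by_contra hne
  have hmpos : 0 < m := by
    rw [hm]
    have : (U K \ F).Nonempty := by
      rw [Finset.sdiff_nonempty]
      intro hUF
      exact hne (Finset.Subset.antisymm hF hUF)
    exact_mod_cast Finset.card_pos.2 this
  have key3 : (q - 1) * n ^ 2 - 4 * q * (q + 1) * n + 4 * q * m ≤ 0 := by
    by_contra hc
    push Not at hc
    have := mul_pos hmpos hc
    linarith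
  rw [hmn] at key3
  nlinarith [key3, h1]

end Pool.Agent.Helper81.PS
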