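import Pool.Agent.Helper2.AN.John

/-!
# Block PS-ST: permutations of the pairs which preserve adjacency

`F` identifies the index set with the set of the pairs of `X`. Apply `Joh.exists_perm` with `k = 1` to
`φ S = F (τ (F⁻¹ S))` and `φ' S = F (τ⁻¹ (F⁻¹ S))` (for `S.card = 2`, `φ S = S` otherwise). For two pairs
`(S \ T).card = 1` says `(S ∩ T).card = 1`. The property `typ`: `S = {x, y}`, `T = {x, z}`, `U = {x, w}` with
different `y, z, w`; choose a fifth element `v` and put `V = {x, v}`. The four pairs `φ S`, `φ T`, `φ U`, `φ V` are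
distinct and meet pairwise, and four distinct pairs which meet pairwise have a common element (three
pairs without a common element are the sides of a triangle, and a fourth pair meets all of them in
no way except being one of them), so `φ S ∩ φ T ⊆ φ U`.
-/

set_option autoImplicit false

namespace Pool.Agent.Helper81.PS

private theorem pair_inter65 {X : Type*} [DecidableEq X] {x y : X} (hxy : x ≠ y) (D : Finset X) :
    (({x, y} : Finset X) ∩ D).card = (if x ∈ D then 1 else 0) + (if y ∈ D then 1 else 0) := by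
  by_cases hx : x ∈ D <;> by_cases hy : y ∈ D
  · rw [Finset.insert_inter_of_mem hx, Finset.singleton_inter_of_mem hy, Finset.card_pair hxy]
    simp [hx, hy]
  · rw [Finset.insert_inter_of_mem hx, Finset.singleton_inter_of_notMem hy]
    simp [hx, hy]
  · rw [Finset.insert_inter_of_notMem hx, Finset.singleton_inter_of_mem hy]
    simp [hx, hy]
  · rw [Finset.insert_inter_of_notMem hx, Finset.singleton_inter_of_notMem hy]
    simp [hx, hy]

private theorem four65 {X : Type*} [DecidableEq X] {A B C D : Finset X} (hA : A.card = 2) (hB : B.card = 2)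
    (hC : C.card = 2) (hAB : (A ∩ B).card = 1) (hAC : (A ∩ C).card = 1) (hBC : (B ∩ C).card = 1)
    (hAD : (A ∩ D).card = 1) (hBD : (B ∩ D).card = 1) (hCD : (C ∩ D).card = 1) : A ∩ B ⊆ C := by
  intro p hp
  by_contra hpC
  obtain ⟨hpA, hpB⟩ := Finset.mem_inter.mp hp
  obtain ⟨a, ha⟩ := Finset.card_eq_one.mp hAC
  obtain ⟨b, hb⟩ := Finset.card_eq_one.mp hBC
  obtain ⟨haA, haC⟩ := Finset.mem_inter.mp (ha ▸ Finset.mem_singleton_self a : a ∈ A ∩ C)
  obtain ⟨hbB, hbC⟩ := Finset.mem_inter.mp (hb ▸ Finset.mem_singleton_self b : b ∈ B ∩ C)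
  have hpa : p ≠ a := fun h => hpC (h ▸ haC)
  have hpb : p ≠ b := fun h => hpC (h ▸ hbC)
  have eA : ({p, a} : Finset X) = A := by
    refine Finset.eq_of_subset_of_card_le ?_ (by rw [hA, Finset.card_pair hpa])
    intro t ht
    rcases Finset.mem_insert.mp ht with h | h
    · exact h ▸ hpA
    · exact (Finset.mem_singleton.mp h) ▸ haA
  have eB : ({p, b} : Finset X) = B := by
    refine Finset.eq_of_subset_of_card_le ?_ (by rw [hB, Finset.card_pair hpb])
    intro t ht
    rcases Finset.mem_insert.mp ht with h | h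
    · exact h ▸ hpB
    · exact (Finset.mem_singleton.mp h) ▸ hbB
  have hab : a ≠ b := by
    intro h
    rw [← eA, ← eB, h, Finset.inter_self, Finset.card_pair hpb] at hAB
    omega
  have eC : ({a, b} : Finset X) = C := by
    refine Finset.eq_of_subset_of_card_le ?_ (by rw [hC, Finset.card_pair hab])
    intro t ht
    rcases Finset.mem_insert.mp ht with h | h
    · exact h ▸ haC
    · exact (Finset.mem_singleton.mp h) ▸ hbC
  rw [← eA, pair_inter65 hpa] at hAD
  rw [← eB, pair_inter65 hpb] at hBD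
  rw [← eC, pair_inter65 hab] at hCD
  omega

open scoped Classical in
private noncomputable def phi65 {X ι : Type*} (F : ι → Finset X)
    (hsurj : ∀ s : Finset X, s.card = 2 → ∃ i, F i = s) (τ : Equiv.Perm ι) (S : Finset X) : Finset X :=
  if h : S.card = 2 then F (τ (hsurj S h).choose) else S

private theorem phi_F65 {X ι : Type*} {F : ι → Finset X} (hF : ∀ i, (F i).card = 2) (hinj : Function.Injective F)
    (hsurj : ∀ s : Finset X, s.card = 2 → ∃ i, F i = s) (τ : Equiv.Perm ι) (i : ι) :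
    phi65 F hsurj τ (F i) = F (τ i) := by
  unfold phi65
  rw [dif_pos (hF i)]
  have h := (hsurj (F i) (hF i)).choose_spec
  rw [hinj h]

private theorem joh65 {X ι : Type*} [Fintype X] [DecidableEq X] (hX : 6 ≤ Fintype.card X)
    {F : ι → Finset X} (hF : ∀ i, (F i).card = 2) (hinj : Function.Injective F)
    (hsurj : ∀ s : Finset X, s.card = 2 → ∃ i, F i = s) {τ τ' : Equiv.Perm ι} (hinv : ∀ i, τ' (τ i) = i)
    (hτ : ∀ i j, (F (τ i) ∩ F (τ j)).card = 1 ↔ (F i ∩ F j).card = 1) :
    Pool.Agent.Helper2.AN.Joh 2 (phi65 F hsurj τ) (phi65 F hsurj τ') := by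
  have key : ∀ {A B : Finset X}, A.card = 2 → ((A \ B).card = 1 ↔ (A ∩ B).card = 1) := by
    intro A B hA
    have h1 := Finset.card_sdiff_add_card_inter A B
    omega
  refine ⟨?_, ?_, ?_, ?_⟩
  · intro S hS
    obtain ⟨i, rfl⟩ := hsurj S hS
    rw [phi_F65 hF hinj]
    exact hF _
  · intro S hS
    obtain ⟨i, rfl⟩ := hsurj S hS
    rw [phi_F65 hF hinj, phi_F65 hF hinj, hinv]
  · intro S T hS hT h
    obtain ⟨i, rfl⟩ := hsurj S hS
    obtain ⟨j, rfl⟩ := hsurj T hT
    rw [phi_F65 hF hinj, phi_F65 hF hinj, key (hF _), hτ, ← key (hF _)]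
    exact h
  · intro S T U hS hT hU hST hSU hTU hsub
    obtain ⟨i, rfl⟩ := hsurj S hS
    obtain ⟨j, rfl⟩ := hsurj T hT
    obtain ⟨l, rfl⟩ := hsurj U hU
    rw [key (hF _)] at hST hSU hTU
    obtain ⟨x, hx⟩ := Finset.card_eq_one.mp hST
    have hx' : x ∈ F i ∩ F j := hx ▸ Finset.mem_singleton_self x
    obtain ⟨hxi, hxj⟩ := Finset.mem_inter.mp hx'
    have hxl : x ∈ F l := hsub hx'
    obtain ⟨v, -, hv⟩ := Finset.exists_mem_notMem_of_card_lt_card (s := F i ∪ F j ∪ F l) (t := Finset.univ) (by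
      have h1 := Finset.card_union_le (F i ∪ F j) (F l)
      have h2 := Finset.card_union_add_card_inter (F i) (F j)
      rw [Finset.card_univ]
      have h3 := hF i
      have h4 := hF j
      have h5 := hF l
      omega)
    simp only [Finset.mem_union, not_or] at hv
    have hxv : x ≠ v := fun h => hv.1.1 (h ▸ hxi)
    obtain ⟨m, hm⟩ := hsurj {x, v} (Finset.card_pair hxv)
    have hi : (F i ∩ F m).card = 1 := by
      rw [Finset.inter_comm, hm, pair_inter65 hxv, if_pos hxi, if_neg hv.1.1]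
    have hj : (F j ∩ F m).card = 1 := by
      rw [Finset.inter_comm, hm, pair_inter65 hxv, if_pos hxj, if_neg hv.1.2]
    have hl : (F l ∩ F m).card = 1 := by
      rw [Finset.inter_comm, hm, pair_inter65 hxv, if_pos hxl, if_neg hv.2]
    rw [phi_F65 hF hinj, phi_F65 hF hinj, phi_F65 hF hinj]
    exact four65 (hF _) (hF _) (hF _) ((hτ _ _).mpr hST) ((hτ _ _).mpr hSU) ((hτ _ _).mpr hTU)
      ((hτ _ _).mpr hi) ((hτ _ _).mpr hj) ((hτ _ _).mpr hl)

theorem star {X ι : Type*} [Fintype X] [DecidableEq X] (hX : 6 ≤ Fintype.card X)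
    (F : ι → Finset X) (hF : ∀ i, (F i).card = 2) (hinj : Function.Injective F)
    (hsurj : ∀ s : Finset X, s.card = 2 → ∃ i, F i = s) (τ : Equiv.Perm ι)
    (hτ : ∀ i j, (F (τ i) ∩ F (τ j)).card = 1 ↔ (F i ∩ F j).card = 1) :
    ∃ π : Equiv.Perm X, ∀ i, F (τ i) = (F i).map π.toEmbedding := by
  have hτ' : ∀ i j, (F (τ.symm i) ∩ F (τ.symm j)).card = 1 ↔ (F i ∩ F j).card = 1 := by
    intro i j
    have h := hτ (τ.symm i) (τ.symm j)
    rw [Equiv.apply_symm_apply, Equiv.apply_symm_apply] at h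
    exact h.symm
  have J1 := joh65 hX hF hinj hsurj (τ := τ) (τ' := τ.symm) (fun i => Equiv.symm_apply_apply τ i) hτ
  have J2 := joh65 hX hF hinj hsurj (τ := τ.symm) (τ' := τ) (fun i => Equiv.apply_symm_apply τ i) hτ'
  obtain ⟨g, hg⟩ := Pool.Agent.Helper2.AN.Joh.exists_perm 1 (by omega) J1 J2
  refine ⟨g, fun i => ?_⟩
  have h := hg (F i) (hF i)
  rwa [phi_F65 hF hinj] at h

end Pool.Agent.Helper81.PS
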