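import Pool.Agent.Helper81.PS.PtP
import Pool.Agent.Helper81.PS.Star

/-!
# Block PS-CO: conjugation is preserved, `q = 1 mod 4`

`star` for `ι = D`, `F = Fp` (`fp_card`, `fp_inj`, `fp_surj`, `fp_ord`; `card_PL`, `q ≥ 5`) gives a permutation
`π` of the projective line with `Fp (τ a) = π (Fp a)` for `a ∈ D`. Claim: `π (a • R) = τ a • π R` for all points
`R`. Clear if `R ∈ Fp a`. Otherwise let `b ∈ D` with `Fp b = {R, a • R}` (`fp_surj`); `a • a • R = R`, so
`a b a⁻¹` has the same fixed points as `b` (`fp_conj`), `a b a⁻¹ = b` (`fp_inj`), `a ≠ b` and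
`orderOf (a * b) = 2`. So `orderOf (τ a * τ b) = 2`, `τ a` commutes with `τ b` and permutes
`Fp (τ b) = {π R, π (a • R)}`; it does not fix `π R` because `π R ∉ π (Fp a) = Fp (τ a)`. So
`τ a • π R = π (a • R)`. Now `Fp (τ c) = π (Fp (a b a⁻¹)) = π (a • Fp b) = τ a • π (Fp b) = τ a • Fp (τ b) =
Fp (τ a * τ b * (τ a)⁻¹)` and `fp_inj`.
-/

set_option autoImplicit false

open scoped LinearAlgebra.Projectivization

namespace Pool.Agent.Helper81.PS

variable {K : Type*} [Field K] [Fintype K] [DecidableEq K]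

omit [DecidableEq K] in
private theorem mem_Fp50 {a : Matrix.ProjectiveSpecialLinearGroup (Fin 2) K}
    {R : ℙ K (Fin 2 → K)} : R ∈ Fp a ↔ a • R = R := by
  simp [Fp]

omit [Fintype K] [DecidableEq K] in
private theorem conj50 {a b : Matrix.ProjectiveSpecialLinearGroup (Fin 2) K} (hb : orderOf b = 2) :
    orderOf (a * b * a⁻¹) = 2 := by
  exact (orderOf_injective (MulAut.conj a).toMonoidHom (MulAut.conj a).injective b).trans hb

private theorem claim50 (hq : Fintype.card K % 4 = 1)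
    {D : Set (Matrix.ProjectiveSpecialLinearGroup (Fin 2) K)} (hD : ∀ a, a ∈ D ↔ orderOf a = 2)
    (τ : Equiv.Perm D)
    (h2 : ∀ a b : D, a ≠ b →
      (orderOf ((τ a : Matrix.ProjectiveSpecialLinearGroup (Fin 2) K) * τ b) = 2 ↔
        orderOf ((a : Matrix.ProjectiveSpecialLinearGroup (Fin 2) K) * b) = 2))
    (π : Equiv.Perm (ℙ K (Fin 2 → K)))
    (hπ : ∀ i : D, Fp (τ i : Matrix.ProjectiveSpecialLinearGroup (Fin 2) K) =
      (Fp (i : Matrix.ProjectiveSpecialLinearGroup (Fin 2) K)).map π.toEmbedding)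
    (a : D) (R : ℙ K (Fin 2 → K)) :
    π ((a : Matrix.ProjectiveSpecialLinearGroup (Fin 2) K) • R) =
      (τ a : Matrix.ProjectiveSpecialLinearGroup (Fin 2) K) • π R := by
  have hmem : ∀ (i : D) (S : ℙ K (Fin 2 → K)),
      π S ∈ Fp (τ i : Matrix.ProjectiveSpecialLinearGroup (Fin 2) K) ↔
        S ∈ Fp (i : Matrix.ProjectiveSpecialLinearGroup (Fin 2) K) := by
    intro i S
    rw [hπ i]
    simp
  have hsq : ∀ d : D, (d : Matrix.ProjectiveSpecialLinearGroup (Fin 2) K) * d = 1 := by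
    intro d
    have h := pow_orderOf_eq_one (d : Matrix.ProjectiveSpecialLinearGroup (Fin 2) K)
    rwa [(hD _).1 d.2, pow_two] at h
  by_cases hR : R ∈ Fp (a : Matrix.ProjectiveSpecialLinearGroup (Fin 2) K)
  · have h1 := (hmem a R).2 hR
    rw [mem_Fp50] at hR h1
    rw [hR, h1]
  · have hne : (a : Matrix.ProjectiveSpecialLinearGroup (Fin 2) K) • R ≠ R := fun h =>
      hR (mem_Fp50.2 h)
    obtain ⟨b, hb, hFb⟩ := fp_surj hq
      (s := {R, (a : Matrix.ProjectiveSpecialLinearGroup (Fin 2) K) • R})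
      (Finset.card_pair hne.symm)
    have hbD : b ∈ D := (hD b).2 hb
    have hab : (a : Matrix.ProjectiveSpecialLinearGroup (Fin 2) K) * b *
        (a : Matrix.ProjectiveSpecialLinearGroup (Fin 2) K)⁻¹ = b := by
      apply fp_inj hq (conj50 hb) hb
      ext S
      have h3 := fp_conj (a : Matrix.ProjectiveSpecialLinearGroup (Fin 2) K) b
        ((a : Matrix.ProjectiveSpecialLinearGroup (Fin 2) K)⁻¹ • S)
      rw [smul_inv_smul] at h3
      rw [h3, hFb]
      simp only [Finset.mem_insert, Finset.mem_singleton]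
      have h4 : (a : Matrix.ProjectiveSpecialLinearGroup (Fin 2) K)⁻¹ = a :=
        inv_eq_of_mul_eq_one_right (hsq a)
      constructor
      · rintro (h | h)
        · right
          rw [← h, smul_inv_smul]
        · left
          rw [h4] at h
          exact smul_left_cancel _ h
      · rintro (h | h)
        · right
          rw [h, h4]
        · left
          rw [h, inv_smul_smul]
    have hcomm : (a : Matrix.ProjectiveSpecialLinearGroup (Fin 2) K) * b = b * a :=
      mul_inv_eq_iff_eq_mul.1 hab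
    have hne2 : a ≠ ⟨b, hbD⟩ := by
      intro h
      apply hR
      rw [h]
      show R ∈ Fp b
      rw [hFb]
      simp
    have hord : orderOf ((a : Matrix.ProjectiveSpecialLinearGroup (Fin 2) K) *
        ((⟨b, hbD⟩ : D) : Matrix.ProjectiveSpecialLinearGroup (Fin 2) K)) = 2 := by
      apply orderOf_eq_prime
      · show ((a : Matrix.ProjectiveSpecialLinearGroup (Fin 2) K) * b) ^ 2 = 1
        have h5 : b * b = 1 := hsq ⟨b, hbD⟩
        rw [pow_two, mul_assoc, ← mul_assoc b, ← hcomm, mul_assoc, h5, mul_one, hsq]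
      · show (a : Matrix.ProjectiveSpecialLinearGroup (Fin 2) K) * b ≠ 1
        intro h
        apply hne2
        apply Subtype.ext
        show (a : Matrix.ProjectiveSpecialLinearGroup (Fin 2) K) = b
        have h5 : b * b = 1 := hsq ⟨b, hbD⟩
        exact mul_right_cancel (h.trans h5.symm)
    have hord2 := (h2 a ⟨b, hbD⟩ hne2).2 hord
    have hconj : (τ a : Matrix.ProjectiveSpecialLinearGroup (Fin 2) K) * τ ⟨b, hbD⟩ *
        (τ a : Matrix.ProjectiveSpecialLinearGroup (Fin 2) K)⁻¹ = τ ⟨b, hbD⟩ := by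
      have h6 := pow_orderOf_eq_one
        ((τ a : Matrix.ProjectiveSpecialLinearGroup (Fin 2) K) * τ ⟨b, hbD⟩)
      rw [hord2, pow_two] at h6
      have h7 : (τ a : Matrix.ProjectiveSpecialLinearGroup (Fin 2) K)⁻¹ = τ a :=
        inv_eq_of_mul_eq_one_right (hsq (τ a))
      rw [h7]
      apply mul_right_cancel (b := (τ ⟨b, hbD⟩ : Matrix.ProjectiveSpecialLinearGroup (Fin 2) K))
      rw [hsq (τ ⟨b, hbD⟩), mul_assoc]
      exact h6
    have h8 : R ∈ Fp ((⟨b, hbD⟩ : D) : Matrix.ProjectiveSpecialLinearGroup (Fin 2) K) := by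
      show R ∈ Fp b
      rw [hFb]
      simp
    have h9 := (hmem ⟨b, hbD⟩ R).2 h8
    have h10 := (fp_conj (τ a : Matrix.ProjectiveSpecialLinearGroup (Fin 2) K)
      (τ ⟨b, hbD⟩ : Matrix.ProjectiveSpecialLinearGroup (Fin 2) K) (π R)).2 h9
    rw [hconj, hπ ⟨b, hbD⟩] at h10
    have h11 : Fp ((⟨b, hbD⟩ : D) : Matrix.ProjectiveSpecialLinearGroup (Fin 2) K) =
        {R, (a : Matrix.ProjectiveSpecialLinearGroup (Fin 2) K) • R} := hFb
    rw [h11] at h10
    simp only [Finset.map_insert, Finset.map_singleton, Finset.mem_insert, Finset.mem_singleton,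
      Equiv.coe_toEmbedding] at h10
    rcases h10 with h10 | h10
    · exfalso
      exact hR ((hmem a R).1 (mem_Fp50.2 h10))
    · exact h10.symm

theorem conj_one (hq : Fintype.card K % 4 = 1) {p : ℕ} [Fact p.Prime] [CharP K p]
    {D : Set (Matrix.ProjectiveSpecialLinearGroup (Fin 2) K)} (hD : ∀ a, a ∈ D ↔ orderOf a = 2)
    (τ : Equiv.Perm D)
    (h2 : ∀ a b : D, a ≠ b →
      (orderOf ((τ a : Matrix.ProjectiveSpecialLinearGroup (Fin 2) K) * τ b) = 2 ↔
        orderOf ((a : Matrix.ProjectiveSpecialLinearGroup (Fin 2) K) * b) = 2))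
    (hp : ∀ a b : D, a ≠ b →
      (orderOf ((τ a : Matrix.ProjectiveSpecialLinearGroup (Fin 2) K) * τ b) = p ↔
        orderOf ((a : Matrix.ProjectiveSpecialLinearGroup (Fin 2) K) * b) = p))
    (a b c : D) (hc : (c : Matrix.ProjectiveSpecialLinearGroup (Fin 2) K) =
      a * b * (a : Matrix.ProjectiveSpecialLinearGroup (Fin 2) K)⁻¹) :
    (τ c : Matrix.ProjectiveSpecialLinearGroup (Fin 2) K) =
      τ a * τ b * (τ a : Matrix.ProjectiveSpecialLinearGroup (Fin 2) K)⁻¹ := by
  have hcard : 5 ≤ Fintype.card K := by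
    have h1 : 1 < Fintype.card K := Fintype.one_lt_card
    omega
  obtain ⟨π, hπ⟩ := star (X := ℙ K (Fin 2 → K)) (ι := D) (by rw [card_PL]; omega)
    (fun a : D => Fp (a : Matrix.ProjectiveSpecialLinearGroup (Fin 2) K))
    (fun a => fp_card hq ((hD _).1 a.2))
    (fun a b h => Subtype.ext (fp_inj hq ((hD _).1 a.2) ((hD _).1 b.2) h))
    (fun s hs => by
      obtain ⟨a, ha, h⟩ := fp_surj hq hs
      exact ⟨⟨a, (hD a).2 ha⟩, h⟩) τ
    (fun i j => by
      by_cases hij : i = j
      · subst hij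
        simp only [Finset.inter_self]
        rw [fp_card hq ((hD _).1 i.2), fp_card hq ((hD _).1 (τ i).2)]
      · rw [← fp_ord hq (p := p) ((hD _).1 i.2) ((hD _).1 j.2),
          ← fp_ord hq (p := p) ((hD _).1 (τ i).2) ((hD _).1 (τ j).2)]
        exact hp i j hij)
  have hclaim := claim50 hq hD τ h2 π hπ
  have hmem : ∀ (i : D) (S : ℙ K (Fin 2 → K)),
      π S ∈ Fp (τ i : Matrix.ProjectiveSpecialLinearGroup (Fin 2) K) ↔
        S ∈ Fp (i : Matrix.ProjectiveSpecialLinearGroup (Fin 2) K) := by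
    intro i S
    rw [hπ i]
    simp
  apply fp_inj hq ((hD _).1 (τ c).2) (conj50 ((hD _).1 (τ b).2))
  ext S
  obtain ⟨S', rfl⟩ := π.surjective S
  obtain ⟨T, rfl⟩ : ∃ T, (a : Matrix.ProjectiveSpecialLinearGroup (Fin 2) K) • T = S' :=
    ⟨(a : Matrix.ProjectiveSpecialLinearGroup (Fin 2) K)⁻¹ • S', smul_inv_smul _ _⟩
  rw [hmem, hc, fp_conj, hclaim, fp_conj, hmem]

end Pool.Agent.Helper81.PS
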