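import Pool.Agent.Helper81.PS.Defs

/-!
# Block PS-GR: `SL(2, K)` and `PSL(2, K)`

`pr_eq_iff`: `QuotientGroup.eq`, `Matrix.SpecialLinearGroup.mem_center_iff` (a scalar matrix `r` with
`r² = 1`, so `r = ± 1`). `cayley` (Cayley-Hamilton, `det = 1`), `inv_val`: entry by entry.
`order_two_iff`: `orderOf (pr A) = 2` says `A² = ± 1`, `A ≠ ± 1`, and `A² = (tr A) A - 1`; if `tr A = 0` then
`A² = -1`, and `A ≠ ± 1` because `± 2 ≠ 0`; conversely `(tr A) A = 1 ± 1` and `tr A ≠ 0` would make `A`
scalar of determinant one, so `A = ± 1`. `order_three_iff`: the same with `A³ = (t² - 1) A - t`,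
`t = tr A` (`t = ± 1` gives `A³ = ∓ 1`, and `A = ± 1` has trace `± 2 ≠ ± 1` since `3 ≠ 0`, `1 ≠ 0`).
-/

set_option autoImplicit false

namespace Pool.Agent.Helper81.PS

variable {K : Type*} [Field K]

theorem pr_surj (a : Matrix.ProjectiveSpecialLinearGroup (Fin 2) K) : ∃ A, pr K A = a :=
  QuotientGroup.mk'_surjective _ a

theorem pr_eq_iff (A B : Matrix.SpecialLinearGroup (Fin 2) K) :
    pr K A = pr K B ↔ A.1 = B.1 ∨ A.1 = -B.1 := by
  have h1 : pr K A = pr K B ↔ A⁻¹ * B ∈ Subgroup.center (Matrix.SpecialLinearGroup (Fin 2) K) :=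
    QuotientGroup.eq
  rw [h1, Matrix.SpecialLinearGroup.mem_center_iff]
  constructor
  · rintro ⟨r, hr, h⟩
    have hr' : r * r = 1 := by simpa [pow_two] using hr
    have h2 : B.1 = A.1 * (A⁻¹ * B).1 := by
      rw [← Matrix.SpecialLinearGroup.coe_mul, mul_inv_cancel_left]
    rw [← h] at h2
    rcases mul_self_eq_one_iff.1 hr' with h3 | h3
    · left
      rw [h2, h3]
      simp
    · right
      rw [h2, h3, map_neg, map_one, mul_neg, mul_one, neg_neg]
  · rintro (h | h)
    · refine ⟨1, by simp, ?_⟩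
      have h2 : A = B := Subtype.ext h
      rw [h2, inv_mul_cancel]
      simp
    · refine ⟨-1, by simp, ?_⟩
      have h2 : (A⁻¹ * B).1 = -(1 : Matrix (Fin 2) (Fin 2) K) := by
        have h3 : B.1 = -A.1 := by rw [h, neg_neg]
        rw [Matrix.SpecialLinearGroup.coe_mul, h3, mul_neg, ← Matrix.SpecialLinearGroup.coe_mul,
          inv_mul_cancel, Matrix.SpecialLinearGroup.coe_one]
      rw [h2, map_neg, map_one]

theorem det81 (A : Matrix.SpecialLinearGroup (Fin 2) K) :
    A.1 0 0 * A.1 1 1 - A.1 0 1 * A.1 1 0 = 1 := by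
  have := A.2
  rwa [Matrix.det_fin_two] at this

theorem cayley (A : Matrix.SpecialLinearGroup (Fin 2) K) : A.1 * A.1 = tr A • A.1 - 1 := by
  have h := det81 A
  ext i j
  fin_cases i <;> fin_cases j <;> simp [Matrix.mul_apply, tr]
  · linear_combination -h
  · ring
  · ring
  · linear_combination -h

theorem inv_val (A : Matrix.SpecialLinearGroup (Fin 2) K) :
    (A⁻¹).1 = tr A • (1 : Matrix (Fin 2) (Fin 2) K) - A.1 := by
  rw [Matrix.SpecialLinearGroup.coe_inv, Matrix.adjugate_fin_two]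
  ext i j
  fin_cases i <;> fin_cases j <;> simp [tr]

theorem tr_conj (P A : Matrix.SpecialLinearGroup (Fin 2) K) : tr (P * A * P⁻¹) = tr A := by
  have h1 : ∀ B : Matrix.SpecialLinearGroup (Fin 2) K, tr B = Matrix.trace B.1 := fun B => by
    rw [Matrix.trace_fin_two, tr]
  rw [h1, h1, Matrix.SpecialLinearGroup.coe_mul, Matrix.trace_mul_comm,
    ← Matrix.SpecialLinearGroup.coe_mul, inv_mul_cancel_left]

theorem pr_eq_one_iff81 (A : Matrix.SpecialLinearGroup (Fin 2) K) :
    pr K A = 1 ↔ A.1 = 1 ∨ A.1 = -1 := by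
  rw [← map_one (pr K), pr_eq_iff, Matrix.SpecialLinearGroup.coe_one]

theorem scalar81 (A : Matrix.SpecialLinearGroup (Fin 2) K) {c d : K} (hc : c ≠ 0)
    (h : c • A.1 = d • (1 : Matrix (Fin 2) (Fin 2) K)) : A.1 = 1 ∨ A.1 = -1 := by
  have h1 : A.1 = (c⁻¹ * d) • (1 : Matrix (Fin 2) (Fin 2) K) := by
    rw [mul_smul, ← h, smul_smul, inv_mul_cancel₀ hc, one_smul]
  have h2 := A.2
  rw [h1, Matrix.det_smul] at h2
  simp only [Fintype.card_fin, Matrix.det_one, mul_one, pow_two] at h2
  rcases mul_self_eq_one_iff.1 h2 with h3 | h3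
  · left
    rw [h1, h3, one_smul]
  · right
    rw [h1, h3, neg_smul, one_smul]

theorem tr_of_val81 (A : Matrix.SpecialLinearGroup (Fin 2) K) :
    (A.1 = 1 → tr A = 2) ∧ (A.1 = -1 → tr A = -2) := by
  constructor
  · intro h
    rw [tr, h]
    norm_num
  · intro h
    rw [tr, h]
    norm_num

theorem order_two_iff (h2 : (2 : K) ≠ 0) (A : Matrix.SpecialLinearGroup (Fin 2) K) :
    orderOf (pr K A) = 2 ↔ tr A = 0 := by
  have h1 : orderOf (pr K A) = 2 ↔ pr K (A * A) = 1 ∧ pr K A ≠ 1 := by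
    rw [orderOf_eq_prime_iff, pow_two, map_mul]
  rw [h1, pr_eq_one_iff81, Ne, pr_eq_one_iff81, Matrix.SpecialLinearGroup.coe_mul, cayley]
  constructor
  · rintro ⟨h3, h4⟩
    by_contra ht
    apply h4
    rcases h3 with h3 | h3
    · refine scalar81 A ht (d := 2) ?_
      rw [sub_eq_iff_eq_add] at h3
      rw [h3, two_smul]
    · refine scalar81 A ht (d := 0) ?_
      rw [sub_eq_iff_eq_add] at h3
      rw [h3, zero_smul, neg_add_cancel]
  · intro ht
    refine ⟨Or.inr ?_, ?_⟩
    · rw [ht, zero_smul, zero_sub]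
    · rintro (h | h)
      · have := (tr_of_val81 A).1 h
        rw [ht] at this
        exact h2 this.symm
      · have := (tr_of_val81 A).2 h
        rw [ht] at this
        exact h2 (neg_eq_zero.1 this.symm)

theorem order_three_iff (h3 : (3 : K) ≠ 0) (A : Matrix.SpecialLinearGroup (Fin 2) K) :
    orderOf (pr K A) = 3 ↔ tr A = 1 ∨ tr A = -1 := by
  have : Fact (Nat.Prime 3) := ⟨Nat.prime_three⟩
  have h1 : orderOf (pr K A) = 3 ↔ pr K (A * A * A) = 1 ∧ pr K A ≠ 1 := by
    rw [orderOf_eq_prime_iff, pow_succ, pow_two, map_mul, map_mul]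
  have h5 : A.1 * A.1 * A.1 = (tr A * tr A - 1) • A.1 - tr A • (1 : Matrix (Fin 2) (Fin 2) K) := by
    rw [cayley, sub_mul, Matrix.smul_mul, cayley, one_mul]
    module
  rw [h1, pr_eq_one_iff81, Ne, pr_eq_one_iff81, Matrix.SpecialLinearGroup.coe_mul,
    Matrix.SpecialLinearGroup.coe_mul, h5]
  constructor
  · rintro ⟨h6, h4⟩
    by_cases ht : tr A * tr A = 1
    · exact mul_self_eq_one_iff.1 ht
    · exfalso
      apply h4
      rcases h6 with h6 | h6
      · refine scalar81 A (sub_ne_zero.2 ht) (d := 1 + tr A) ?_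
        rw [sub_eq_iff_eq_add] at h6
        rw [h6, add_smul, one_smul]
      · refine scalar81 A (sub_ne_zero.2 ht) (d := -1 + tr A) ?_
        rw [sub_eq_iff_eq_add] at h6
        rw [h6, add_smul, neg_smul, one_smul]
  · intro ht
    have ht' : tr A * tr A = 1 := mul_self_eq_one_iff.2 ht
    refine ⟨?_, ?_⟩
    · rw [ht', sub_self, zero_smul, zero_sub]
      rcases ht with ht | ht
      · right
        rw [ht, one_smul]
      · left
        rw [ht, neg_smul, one_smul, neg_neg]
    · rintro (h | h)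
      · have h7 := (tr_of_val81 A).1 h
        rw [h7] at ht'
        apply h3
        linear_combination ht'
      · have h7 := (tr_of_val81 A).2 h
        rw [h7] at ht'
        apply h3
        linear_combination ht'

end Pool.Agent.Helper81.PS
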