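import Pool.Agent.Helper81.PS.Mat
import Pool.Agent.Helper81.PS.Grp
import Pool.Agent.Helper81.PS.Circ

/-!
# Block PS-MO: the involutions of `PSL(2, q)`, `q = 3 mod 4`, as points of the unit sphere

Choose `s`, `t` with `s² + t² = -1` (`exists_sum_sq`). For a unit vector `x` let `m x = pr (M x)`, `M x` as in
`Mat` (determinant one by `Mm_det`, trace zero), and `m x = 1` if `x` is not a unit vector. If
`orderOf a = 2` then `a = pr A` with `tr A = 0` (`order_two_iff`), `A = M x` (`Mm_surj`) and `v a = x`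
(choice). The product `m x * m y` is `pr (M x * M y)`, trace `-2 (x·y)`, so its order is `2` iff
`x·y = 0` and `3` iff `4 (x·y)² = 1`. Conjugation: `(M x)⁻¹ = -M x` and `Mm_mul_mul`.
-/

set_option autoImplicit false

namespace Pool.Agent.Helper81.PS

variable {K : Type*} [Field K] [Fintype K] [DecidableEq K]

theorem exists_model (hq : Fintype.card K % 4 = 3) :
    ∃ (m : K × K × K → Matrix.ProjectiveSpecialLinearGroup (Fin 2) K)
      (v : Matrix.ProjectiveSpecialLinearGroup (Fin 2) K → K × K × K),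
      (∀ x ∈ U K, orderOf (m x) = 2) ∧
      (∀ a, orderOf a = 2 → v a ∈ U K ∧ m (v a) = a) ∧
      (∀ x ∈ U K, ∀ y ∈ U K, m x = m y ↔ x = y ∨ x = -y) ∧
      (∀ x ∈ U K, ∀ y ∈ U K, orderOf (m x * m y) = 2 ↔ dot x y = 0) ∧
      ((3 : K) ≠ 0 → ∀ x ∈ U K, ∀ y ∈ U K,
        orderOf (m x * m y) = 3 ↔ 4 * (dot x y * dot x y) = 1) ∧
      ∀ x ∈ U K, ∀ y ∈ U K, m x * m y * (m x)⁻¹ = m (rot x y) := by
  obtain ⟨s, t, hst⟩ := exists_sum_sq hq (-1)
  have h2 := two_ne_zero' hq
  let Sg : K × K × K → Matrix.SpecialLinearGroup (Fin 2) K := fun x =>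
    if hx : dot x x = 1 then ⟨Mm s t x, by rw [Mm_det hst, hx]⟩ else 1
  have hS : ∀ x ∈ U K, (Sg x).1 = Mm s t x := by
    intro x hx
    have hx' := mem_U.1 hx
    have h0 : Sg x = ⟨Mm s t x, by rw [Mm_det hst, hx']⟩ := dif_pos hx'
    rw [h0]
  have htr : ∀ x ∈ U K, tr (Sg x) = 0 := by
    intro x hx
    rw [tr, hS x hx, Mm_trace]
  have htr2 : ∀ x ∈ U K, ∀ y ∈ U K, tr (Sg x * Sg y) = -(2 * dot x y) := by
    intro x hx y hy
    rw [tr, Matrix.SpecialLinearGroup.coe_mul, hS x hx, hS y hy, Mm_mul_trace hst]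
  have hsurj : ∀ a, ∃ x, orderOf a = 2 → x ∈ U K ∧ pr K (Sg x) = a := by
    intro a
    obtain ⟨A, rfl⟩ := pr_surj a
    by_cases hA : orderOf (pr K A) = 2
    · rw [order_two_iff h2] at hA
      obtain ⟨x, hx⟩ := Mm_surj h2 hst A.1 hA
      have hxU : x ∈ U K := by
        rw [mem_U, ← Mm_det hst, hx]
        exact A.2
      refine ⟨x, fun _ => ⟨hxU, ?_⟩⟩
      congr 1
      exact Subtype.ext ((hS x hxU).trans hx)
    · exact ⟨0, fun h => absurd h hA⟩
  choose v hv using hsurj
  refine ⟨fun x => pr K (Sg x), v, ?_, hv, ?_, ?_, ?_, ?_⟩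
  · intro x hx
    exact (order_two_iff h2 _).2 (htr x hx)
  · intro x hx y hy
    simp only []
    rw [pr_eq_iff, hS x hx, hS y hy]
    constructor
    · rintro (h | h)
      · exact Or.inl (Mm_inj h2 hst h)
      · rw [← Mm_neg] at h
        exact Or.inr (Mm_inj h2 hst h)
    · rintro (h | h)
      · left
        rw [h]
      · right
        rw [h, Mm_neg]
  · intro x hx y hy
    simp only []
    rw [← map_mul, order_two_iff h2, htr2 x hx y hy, neg_eq_zero, mul_eq_zero]
    exact or_iff_right h2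
  · intro h3 x hx y hy
    simp only []
    rw [← map_mul, order_three_iff h3, htr2 x hx y hy]
    constructor
    · rintro (h | h)
      · linear_combination (-(2 * dot x y) + 1) * h
      · linear_combination (-(2 * dot x y) - 1) * h
    · intro h
      have h4 : (-(2 * dot x y)) * (-(2 * dot x y)) = 1 := by linear_combination h
      exact mul_self_eq_one_iff.1 h4
  · intro x hx y hy
    simp only []
    rw [← map_mul, ← map_inv, ← map_mul]
    congr 1
    apply Subtype.ext
    rw [hS (rot x y) ((rot_mem_U hx).2 hy), Matrix.SpecialLinearGroup.coe_mul,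
      Matrix.SpecialLinearGroup.coe_mul, inv_val, htr x hx, hS x hx, hS y hy, zero_smul, zero_sub,
      mul_neg, Mm_mul_mul hst, mem_U.1 hx, one_smul, ← Mm_neg, neg_sub, rot]

end Pool.Agent.Helper81.PS
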