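import Pool.Agent.Helper81.PS.RotAll
import Pool.Agent.Helper81.PS.Model

/-!
# Block PS-CT: conjugation is preserved, `q = 3 mod 4`

`m`, `v` as in `exists_model`. For a unit vector `x` let `T x = v (τ ⟨m x, _⟩)` and
`T' x = v (τ⁻¹ ⟨m x, _⟩)` (`T x = T' x = 0` for other `x`). Then `m (T x) = τ (m x)` for unit vectors `x`, and
`LT T T'`: the point `x` up to sign is determined by `m x` (third property of `exists_model`), and
`dot x y = 0` iff `orderOf (m x * m y) = 2` (`h2` for `m x ≠ m y`; if `m x = m y` then `x = ± y`, `T x = ± T y`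
and both sides are false since `dot x x = 1`). If `q < 27` then `3 ≠ 0` in `K` (otherwise `3` divides
`q`, so `q = 15`: not a prime power) and the relation `4 (x·y)² = 1` is preserved by `h3` (for `x = ± y` both
sides say `4 = 1`, false as `3 ≠ 0`). Now `rot_all` and the last property of `exists_model`:
`τ a * τ b * (τ a)⁻¹ = m (T x) * m (T y) * (m (T x))⁻¹ = m (rot (T x) (T y)) = m (T (rot x y)) = τ (m (rot x y))`
for `a = m x`, `b = m y`.
-/

set_option autoImplicit false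

namespace Pool.Agent.Helper81.PS

variable {K : Type*} [Field K] [Fintype K] [DecidableEq K]

omit [DecidableEq K] in
private theorem threeCT (hq : Fintype.card K % 4 = 3) (h7 : 7 ≤ Fintype.card K) (h27 : Fintype.card K < 27) :
    (3 : K) ≠ 0 := by
  intro h
  have : Fact (Nat.Prime 3) := ⟨by norm_num⟩
  have : CharP K 3 := by
    apply (CharP.charP_iff_prime_eq_zero (by norm_num)).2
    exact_mod_cast h
  obtain ⟨n, -, hn⟩ := FiniteField.card K 3
  rw [hn] at hq h7 h27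
  have hlt : (n : ℕ) < 3 := by
    by_contra hge
    push Not at hge
    have := Nat.pow_le_pow_right (show 0 < 3 by norm_num) hge
    omega
  have hpos : 0 < (n : ℕ) := n.pos
  have : (n : ℕ) = 1 ∨ (n : ℕ) = 2 := by omega
  rcases this with h1 | h1 <;> rw [h1] at hq h7 <;> omega

theorem conj_three (hq : Fintype.card K % 4 = 3) (h7 : 7 ≤ Fintype.card K)
    {D : Set (Matrix.ProjectiveSpecialLinearGroup (Fin 2) K)} (hD : ∀ a, a ∈ D ↔ orderOf a = 2)
    (τ : Equiv.Perm D)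
    (h2 : ∀ a b : D, a ≠ b →
      (orderOf ((τ a : Matrix.ProjectiveSpecialLinearGroup (Fin 2) K) * τ b) = 2 ↔
        orderOf ((a : Matrix.ProjectiveSpecialLinearGroup (Fin 2) K) * b) = 2))
    (h3 : Fintype.card K < 27 → ∀ a b : D, a ≠ b →
      (orderOf ((τ a : Matrix.ProjectiveSpecialLinearGroup (Fin 2) K) * τ b) = 3 ↔
        orderOf ((a : Matrix.ProjectiveSpecialLinearGroup (Fin 2) K) * b) = 3))
    (a b c : D) (hc : (c : Matrix.ProjectiveSpecialLinearGroup (Fin 2) K) =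
      a * b * (a : Matrix.ProjectiveSpecialLinearGroup (Fin 2) K)⁻¹) :
    (τ c : Matrix.ProjectiveSpecialLinearGroup (Fin 2) K) =
      τ a * τ b * (τ a : Matrix.ProjectiveSpecialLinearGroup (Fin 2) K)⁻¹ := by
  classical
  obtain ⟨m, v, hm2, hv, hinj, ho2, ho3, hcj⟩ := exists_model hq
  have hmD : ∀ x ∈ U K, m x ∈ D := fun x hx => (hD _).2 (hm2 x hx)
  let S : Equiv.Perm D → K × K × K → K × K × K := fun σ x =>
    if h : m x ∈ D then v (σ ⟨m x, h⟩ : D).1 else 0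
  have hSd : ∀ (σ : Equiv.Perm D) (x : K × K × K) (h : m x ∈ D), S σ x = v (σ ⟨m x, h⟩ : D).1 := by
    intro σ x h
    simp only [S]
    rw [dif_pos h]
  have hSU : ∀ (σ : Equiv.Perm D), ∀ x ∈ U K, S σ x ∈ U K := by
    intro σ x hx
    rw [hSd σ x (hmD x hx)]
    exact (hv _ ((hD _).1 (σ ⟨m x, hmD x hx⟩).2)).1
  have hSm : ∀ (σ : Equiv.Perm D) (x : K × K × K) (h : m x ∈ D), m (S σ x) = (σ ⟨m x, h⟩ : D).1 := by
    intro σ x h
    rw [hSd σ x h]
    exact (hv _ ((hD _).1 (σ ⟨m x, h⟩).2)).2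
  have hneg : ∀ (σ : Equiv.Perm D), ∀ x ∈ U K, S σ (-x) = S σ x := by
    intro σ x hx
    have h1 : m (-x) = m x := (hinj _ (neg_mem_U.2 hx) _ hx).2 (Or.inr rfl)
    have h2 : m (-x) ∈ D := by rw [h1]; exact hmD x hx
    rw [hSd σ (-x) h2, hSd σ x (hmD x hx)]
    congr 3
    exact Subtype.ext h1
  have hinv : ∀ (σ ρ : Equiv.Perm D), (∀ d, ρ (σ d) = d) → ∀ x ∈ U K, S ρ (S σ x) = x ∨ S ρ (S σ x) = -x := by
    intro σ ρ hρ x hx
    rw [← hinj _ (hSU ρ _ (hSU σ x hx)) _ hx]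
    have h1 := hSm σ x (hmD x hx)
    have h2 : m (S σ x) ∈ D := hmD _ (hSU σ x hx)
    have h3 := hSm ρ (S σ x) h2
    have h4 : (⟨m (S σ x), h2⟩ : D) = σ ⟨m x, hmD x hx⟩ := Subtype.ext h1
    rw [h3, h4, hρ]
  have hsq : ∀ d : D, (d : Matrix.ProjectiveSpecialLinearGroup (Fin 2) K) * d = 1 := by
    intro d
    have h1 := pow_orderOf_eq_one (d : Matrix.ProjectiveSpecialLinearGroup (Fin 2) K)
    rw [(hD _).1 d.2, pow_two] at h1
    exact h1
  have hperp : ∀ x ∈ U K, ∀ y ∈ U K, dot (S τ x) (S τ y) = 0 ↔ dot x y = 0 := by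
    intro x hx y hy
    rw [← ho2 _ (hSU τ x hx) _ (hSU τ y hy), ← ho2 x hx y hy, hSm τ x (hmD x hx), hSm τ y (hmD y hy)]
    by_cases hxy : (⟨m x, hmD x hx⟩ : D) = ⟨m y, hmD y hy⟩
    · have h1 := hsq (τ ⟨m y, hmD y hy⟩)
      have h2 := hsq ⟨m y, hmD y hy⟩
      have h3 : m x = m y := congrArg Subtype.val hxy
      rw [hxy, h1, h3]
      have h2' : m y * m y = 1 := h2
      rw [h2']
    · exact h2 _ _ hxy
  have hr : Fintype.card K < 27 → ∀ x ∈ U K, ∀ y ∈ U K,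
      4 * (dot (S τ x) (S τ y) * dot (S τ x) (S τ y)) = 1 ↔ 4 * (dot x y * dot x y) = 1 := by
    intro h27 x hx y hy
    have h3K := threeCT hq h7 h27
    rw [← ho3 h3K _ (hSU τ x hx) _ (hSU τ y hy), ← ho3 h3K x hx y hy, hSm τ x (hmD x hx), hSm τ y (hmD y hy)]
    by_cases hxy : (⟨m x, hmD x hx⟩ : D) = ⟨m y, hmD y hy⟩
    · have h1 := hsq (τ ⟨m y, hmD y hy⟩)
      have h2 := hsq ⟨m y, hmD y hy⟩
      have h3 : m x = m y := congrArg Subtype.val hxy
      rw [hxy, h1, h3]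
      have h2' : m y * m y = 1 := h2
      rw [h2']
    · exact h3 h27 _ _ hxy
  have hLT : LT (S τ) (S τ.symm) :=
    { mem := hSU τ
      mem' := hSU τ.symm
      neg := fun x hx => Or.inl (hneg τ x hx)
      neg' := fun x hx => Or.inl (hneg τ.symm x hx)
      left := hinv τ τ.symm fun d => τ.symm_apply_apply d
      right := hinv τ.symm τ fun d => τ.apply_symm_apply d
      perp := hperp }
  obtain ⟨hxU, hxm⟩ := hv a.1 ((hD _).1 a.2)
  obtain ⟨hyU, hym⟩ := hv b.1 ((hD _).1 b.2)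
  have hrot := rot_all hq h7 hLT hr hxU hyU
  have hxyU : rot (v a.1) (v b.1) ∈ U K := (rot_mem_U hxU).2 hyU
  have hTr : rot (S τ (v a.1)) (S τ (v b.1)) ∈ U K := (rot_mem_U (hSU τ _ hxU)).2 (hSU τ _ hyU)
  have h1 : m (S τ (rot (v a.1) (v b.1))) = m (rot (S τ (v a.1)) (S τ (v b.1))) :=
    (hinj _ (hSU τ _ hxyU) _ hTr).2 hrot
  have h4 : m (rot (v a.1) (v b.1)) = c.1 := by
    rw [← hcj _ hxU _ hyU, hxm, hym, hc]
  rw [← hcj _ (hSU τ _ hxU) _ (hSU τ _ hyU), hSm τ _ (hmD _ hxyU), hSm τ _ (hmD _ hxU), hSm τ _ (hmD _ hyU)] at h1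
  have h5 : (⟨m (rot (v a.1) (v b.1)), hmD _ hxyU⟩ : D) = c := Subtype.ext h4
  have h6 : (⟨m (v a.1), hmD _ hxU⟩ : D) = a := Subtype.ext hxm
  have h7 : (⟨m (v b.1), hmD _ hyU⟩ : D) = b := Subtype.ext hym
  rw [h5, h6, h7] at h1
  exact h1

end Pool.Agent.Helper81.PS
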