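import Pool.Agent.Helper81.PS.Big

/-!
# Project PS: the core theorem for `q ≥ 27`
-/

set_option autoImplicit false

namespace Pool.Agent.Helper81.PS

variable {K : Type*} [Field K] [Fintype K] [DecidableEq K]

theorem num_one81 {q n : ℝ} (hq : 27 ≤ q) (hn : 3 * q + 8 ≤ n) :
    0 < n ^ 2 * (q - 1) - 4 * q * (q + 2) * n + 4 * q ^ 2 * (q - 1) := by
  obtain ⟨t, ht, rfl⟩ : ∃ t, 0 ≤ t ∧ n = 3 * q + 8 + t := ⟨n - (3 * q + 8), by linarith, by ring⟩
  obtain ⟨s, hs, rfl⟩ : ∃ s, 0 ≤ s ∧ q = 27 + s := ⟨q - 27, by linarith, by ring⟩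
  have h : (3 * (27 + s) + 8 + t) ^ 2 * (27 + s - 1) - 4 * (27 + s) * (27 + s + 2) *
      (3 * (27 + s) + 8 + t) + 4 * (27 + s) ^ 2 * (27 + s - 1) =
      3014 + 1005 * s + 60 * s ^ 2 + s ^ 3 + t * (1496 + 110 * s + 2 * s ^ 2) + t ^ 2 * (26 + s) := by
    ring
  rw [h]
  positivity

theorem num_two81 {q n : ℝ} (hq : 27 ≤ q) (hn : 3 * q + 8 ≤ n) :
    2 * q * (q - 1) ≤ (q + 3) * n := by
  nlinarith

theorem num_three81 {q r a b : ℝ} (hq : 27 ≤ q) (hrq : r ^ 2 = q) (ha0 : 0 ≤ a) (hb0 : 0 ≤ b)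
    (ha : a ≤ 2 * q + 4) (hb : b ≤ 2 * q + 4)
    (h : (q + 1) * (q - 3) ^ 2 / 4 ≤ r * ((q + 1) * (q - 3)) + a ^ 2 / q + b ^ 2 / q) : False := by
  have hq0 : 0 < q := by linarith
  have ha2 : a ^ 2 ≤ (2 * q + 4) ^ 2 := by nlinarith
  have hb2 : b ^ 2 ≤ (2 * q + 4) ^ 2 := by nlinarith
  have h1 : a ^ 2 / q + b ^ 2 / q ≤ 2 * (2 * q + 4) ^ 2 / q := by
    rw [← add_div]
    exact div_le_div_of_nonneg_right (by linarith) hq0.le
  have hr : 52 / 5 * r ≤ q + 676 / 25 := by nlinarith [sq_nonneg (r - 26 / 5)]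
  have h2 : 0 ≤ (q + 1) * (q - 3) := by nlinarith
  have h3 : r * ((q + 1) * (q - 3)) ≤ (5 / 52 * (q + 676 / 25)) * ((q + 1) * (q - 3)) :=
    mul_le_mul_of_nonneg_right (by linarith) h2
  have h4 : (q + 1) * (q - 3) ^ 2 / 4 ≤ (5 / 52 * (q + 676 / 25)) * ((q + 1) * (q - 3)) +
      2 * (2 * q + 4) ^ 2 / q := by linarith
  have h5 : ((q + 1) * (q - 3) ^ 2 / 4) * q ≤
      ((5 / 52 * (q + 676 / 25)) * ((q + 1) * (q - 3))) * q + 2 * (2 * q + 4) ^ 2 := by
    have h6 := mul_le_mul_of_nonneg_right h4 hq0.le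
    have h7 : 2 * (2 * q + 4) ^ 2 / q * q = 2 * (2 * q + 4) ^ 2 := div_mul_cancel₀ _ hq0.ne'
    rw [← h7, ← add_mul]
    exact h6
  obtain ⟨s, hs, rfl⟩ : ∃ s, 0 ≤ s ∧ q = 27 + s := ⟨q - 27, by linarith, by ring⟩
  nlinarith [mul_nonneg hs hs, mul_nonneg (mul_nonneg hs hs) hs,
    mul_nonneg (mul_nonneg hs hs) (mul_nonneg hs hs)]

/-- Block PS-NB. Let `q = card K`, `r = sqrt q`, `n₊`, `n₋` the numbers of the `x ∈ W` fixed by `T`, resp. by
`rho ∘ T`. If `n₊ ≥ 2 q + 5` then `#Fx T ≥ 3 q + 8` (`card_Fx`) and the two numerical conditions of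
`fix_all` hold for `q ≥ 27` (`n ↦ n² (q - 1) - 4 q (q + 2) n` is increasing for `n ≥ 3 q + 8`, and at
`n = 3 q + 8` the value of the first condition is `q³ - 21 q² - 48 q - 64`). Same for `n₋` with
`PT.rho`. Otherwise `n₊, n₋ ≤ 2 q + 4` and `partition` with `card_W`, `pairs_W` says
`(q + 1) (q - 3)² / 4 ≤ r (q + 1) (q - 3) + 8 (q + 2)² / q`, which is false for `q ≥ 27`. -/
theorem core_big (hq : Fintype.card K % 4 = 3) (h27 : 27 ≤ Fintype.card K)
    {T : K × K × K → K × K × K} (hT : PT T) :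
    (∀ x ∈ U K, T x = x ∨ T x = -x) ∨ ∀ x ∈ U K, T x = rho x ∨ T x = -rho x := by
  have hq27 : (27 : ℝ) ≤ Fintype.card K := by exact_mod_cast h27
  have hq0 : (0 : ℝ) ≤ Fintype.card K := by linarith
  have key : ∀ {P : K × K × K → K × K × K}, PT P →
      2 * Fintype.card K + 5 ≤ ((W K).filter fun x => P x = x ∨ P x = -x).card →
      ∀ x ∈ U K, P x = x ∨ P x = -x := by
    intro P hP hn
    have h1 := card_Fx hq hP
    have h2 : 3 * (Fintype.card K : ℝ) + 8 ≤ (Fx P).card := by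
      have h3 : 3 * Fintype.card K + 8 ≤ (Fx P).card := by omega
      exact_mod_cast h3
    exact fix_all hq hP (num_one81 hq27 h2) (num_two81 hq27 h2)
  have hflip : ∀ x : K × K × K, (rho (T x) = x ∨ rho (T x) = -x) ↔
      (T x = rho x ∨ T x = -rho x) := by
    intro x
    have h1 : ∀ y z : K × K × K, rho y = z ↔ y = rho z := by
      intro y z
      constructor
      · rintro rfl
        rw [rho_rho]
      · rintro rfl
        rw [rho_rho]
    rw [h1, h1, rho_neg]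
  by_cases hp : 2 * Fintype.card K + 5 ≤ ((W K).filter fun x => T x = x ∨ T x = -x).card
  · exact Or.inl (key hT hp)
  by_cases hm : 2 * Fintype.card K + 5 ≤
      ((W K).filter fun x => rho (T x) = x ∨ rho (T x) = -x).card
  · exact Or.inr fun x hx => (hflip x).1 (key hT.rho hm x hx)
  exfalso
  have h2 : (2 : K) ≠ 0 := two_ne_zero' hq
  obtain ⟨g, hg1, -, hg3, hg4, hg5⟩ := exists_mul h2 hT
  have hr0 : 0 < Real.sqrt (Fintype.card K) := Real.sqrt_pos.2 (by linarith)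
  have hr : Real.sqrt (Fintype.card K) ^ 2 = Fintype.card K := Real.sq_sqrt hq0
  have hpart := partition hq hr0 hr g hg1 hg3
  have e1 : (W K).filter (fun x => g x = 1) = (W K).filter fun x => T x = x ∨ T x = -x :=
    Finset.filter_congr fun x hx => hg4 x hx
  have e2 : (W K).filter (fun x => g x = -1) =
      (W K).filter fun x => rho (T x) = x ∨ rho (T x) = -x :=
    Finset.filter_congr fun x hx => (hg5 x hx).trans (hflip x).symm
  rw [e1, e2] at hpart
  have h3 : (3 : ℕ) ≤ Fintype.card K := by omega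
  have hW : 2 * ((W K).card : ℝ) = (Fintype.card K + 1) * (Fintype.card K - 3) := by
    have := congrArg (Nat.cast : ℕ → ℝ) (card_W (K := K) hq)
    push_cast [Nat.cast_sub h3] at this
    exact this
  have hP : 4 * (((W K ×ˢ W K).filter fun p => dot p.1 p.2 = 0).card : ℝ) =
      (Fintype.card K + 1) * (Fintype.card K - 3) ^ 2 := by
    have := congrArg (Nat.cast : ℕ → ℝ) (pairs_W (K := K) hq)
    push_cast [Nat.cast_sub h3] at this
    exact this
  have ha : (((W K).filter fun x => T x = x ∨ T x = -x).card : ℝ) ≤ 2 * Fintype.card K + 4 := by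
    have : ((W K).filter fun x => T x = x ∨ T x = -x).card ≤ 2 * Fintype.card K + 4 := by omega
    exact_mod_cast this
  have hb : (((W K).filter fun x => rho (T x) = x ∨ rho (T x) = -x).card : ℝ) ≤
      2 * Fintype.card K + 4 := by
    have : ((W K).filter fun x => rho (T x) = x ∨ rho (T x) = -x).card ≤
      2 * Fintype.card K + 4 := by omega
    exact_mod_cast this
  refine num_three81 hq27 hr (Nat.cast_nonneg _) (Nat.cast_nonneg _) ha hb ?_
  have e3 : 2 * Real.sqrt (Fintype.card K) * ((W K).card : ℝ) =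
      Real.sqrt (Fintype.card K) * ((Fintype.card K + 1) * (Fintype.card K - 3)) := by
    rw [← hW]
    ring
  rw [e3] at hpart
  linarith

end Pool.Agent.Helper81.PS
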