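import Mathlib

/-!
# Project PS (MP_0d9fdb_al): the coloured graph of the involutions of `PSL(2, q)`

`pr : SL(2, K) → PSL(2, K)`, `tr` the trace. For `|K| = 3 mod 4` the involutions of `PSL(2, K)` are the
points `± x` of the unit sphere `U K` of `K³` with the form `dot`; two involutions commute iff the
points are orthogonal. `N K` is the sphere of radius `-1`, `W K` the set of the unit vectors `x` with
`x₃ ≠ 0` and `1 - x₃² = x₁² + x₂²` a nonzero square, `rho` the half turn about `e3 = (0, 0, 1)` and
`nb h y` the sum of `h x` over the unit vectors `x` orthogonal to `y`.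
`PT T`: the map `T` of the unit vectors is the lift of a map of the points which preserves
orthogonality in both directions and fixes the points `± e3` and all points orthogonal to `e3`.
`LT T T'`: `T` and `T'` are the lifts of two mutually inverse permutations of the points which preserve
orthogonality; `rot x` is the half turn about the unit vector `x`.
-/

set_option autoImplicit false

namespace Pool.Agent.Helper81.PS

/-! ### Groups -/

section groups

variable {K : Type*} [Field K]

/-- The projection `SL(2, K) → PSL(2, K)`. -/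
def pr (K : Type*) [Field K] :
    Matrix.SpecialLinearGroup (Fin 2) K →* Matrix.ProjectiveSpecialLinearGroup (Fin 2) K :=
  QuotientGroup.mk' _

/-- The trace. -/
def tr (A : Matrix.SpecialLinearGroup (Fin 2) K) : K := A.1 0 0 + A.1 1 1

end groups

/-! ### The sphere -/

section sphere

variable {K : Type*} [Field K]

/-- The standard bilinear form on `K³`. -/
def dot (x y : K × K × K) : K := x.1 * y.1 + x.2.1 * y.2.1 + x.2.2 * y.2.2

/-- The third basis vector. -/
def e3 : K × K × K := (0, 0, 1)

/-- The half turn about `e3`. -/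
def rho (x : K × K × K) : K × K × K := (-x.1, -x.2.1, x.2.2)

variable (K) in
/-- The unit vectors. -/
def U [Fintype K] [DecidableEq K] : Finset (K × K × K) := Finset.univ.filter fun x => dot x x = 1

variable (K) in
/-- The vectors of norm `-1`. -/
def N [Fintype K] [DecidableEq K] : Finset (K × K × K) := Finset.univ.filter fun x => dot x x = -1

variable (K) in
/-- The unit vectors with `x₃ ≠ 0` and `1 - x₃²` a nonzero square. -/
def W [Fintype K] [DecidableEq K] : Finset (K × K × K) :=
  (U K).filter fun x => x.2.2 ≠ 0 ∧ ∃ k : K, k ≠ 0 ∧ k * k = 1 - x.2.2 * x.2.2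

/-- The sum of `h` over the unit vectors orthogonal to `y`. -/
def nb [Fintype K] [DecidableEq K] (h : K × K × K → ℝ) (y : K × K × K) : ℝ :=
  ∑ x ∈ U K, if dot x y = 0 then h x else 0

/-- The half turn about the unit vector `x`. -/
def rot (x y : K × K × K) : K × K × K := (2 * dot x y) • x - y

/-- `T` lifts a map of the points `± x` of the unit sphere which preserves orthogonality in both
directions and fixes `± e3` and the points orthogonal to `e3`. -/
structure PT [Fintype K] [DecidableEq K] (T : K × K × K → K × K × K) : Prop where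
  mem : ∀ x ∈ U K, T x ∈ U K
  neg : ∀ x ∈ U K, T (-x) = T x ∨ T (-x) = -T x
  perp : ∀ x ∈ U K, ∀ y ∈ U K, dot (T x) (T y) = 0 ↔ dot x y = 0
  e : T e3 = e3 ∨ T e3 = -e3
  eq : ∀ x ∈ U K, x.2.2 = 0 → T x = x ∨ T x = -x

/-- `T` and `T'` lift two mutually inverse permutations of the points `± x` of the unit sphere which
preserve orthogonality. -/
structure LT [Fintype K] [DecidableEq K] (T T' : K × K × K → K × K × K) : Prop where
  mem : ∀ x ∈ U K, T x ∈ U K
  mem' : ∀ x ∈ U K, T' x ∈ U K
  neg : ∀ x ∈ U K, T (-x) = T x ∨ T (-x) = -T x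
  neg' : ∀ x ∈ U K, T' (-x) = T' x ∨ T' (-x) = -T' x
  left : ∀ x ∈ U K, T' (T x) = x ∨ T' (T x) = -x
  right : ∀ x ∈ U K, T (T' x) = x ∨ T (T' x) = -x
  perp : ∀ x ∈ U K, ∀ y ∈ U K, dot (T x) (T y) = 0 ↔ dot x y = 0

/-! ### Basic facts -/

theorem dot_comm (x y : K × K × K) : dot x y = dot y x := by
  unfold dot; ring

theorem dot_neg_right (x y : K × K × K) : dot x (-y) = -dot x y := by
  simp only [dot, Prod.fst_neg, Prod.snd_neg]; ring

theorem dot_neg_left (x y : K × K × K) : dot (-x) y = -dot x y := by
  simp only [dot, Prod.fst_neg, Prod.snd_neg]; ring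

theorem dot_smul_right (c : K) (x y : K × K × K) : dot x (c • y) = c * dot x y := by
  simp only [dot, Prod.smul_fst, Prod.smul_snd, smul_eq_mul]; ring

theorem dot_smul_left (c : K) (x y : K × K × K) : dot (c • x) y = c * dot x y := by
  simp only [dot, Prod.smul_fst, Prod.smul_snd, smul_eq_mul]; ring

theorem dot_add_right (x y z : K × K × K) : dot x (y + z) = dot x y + dot x z := by
  simp only [dot, Prod.fst_add, Prod.snd_add]; ring

theorem dot_add_left (x y z : K × K × K) : dot (x + y) z = dot x z + dot y z := by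
  simp only [dot, Prod.fst_add, Prod.snd_add]; ring

theorem dot_rho_rho (x y : K × K × K) : dot (rho x) (rho y) = dot x y := by
  simp only [dot, rho]; ring

theorem dot_e3 (x : K × K × K) : dot x e3 = x.2.2 := by
  simp [dot, e3]

theorem rho_rho (x : K × K × K) : rho (rho x) = x := by
  simp [rho]

theorem rot_e3 (x : K × K × K) : rot e3 x = rho x := by
  have h : dot e3 x = x.2.2 := by simp [dot, e3]
  rw [rot, h]
  ext <;> simp [e3, rho]
  ring

theorem dot_rot_rot {a : K × K × K} (ha : dot a a = 1) (x y : K × K × K) :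
    dot (rot a x) (rot a y) = dot x y := by
  simp only [rot, dot, Prod.smul_fst, Prod.smul_snd, Prod.fst_sub, Prod.snd_sub, smul_eq_mul] at *
  linear_combination (4 * (a.1 * x.1 + a.2.1 * x.2.1 + a.2.2 * x.2.2) *
    (a.1 * y.1 + a.2.1 * y.2.1 + a.2.2 * y.2.2)) * ha

theorem dot_rot {a : K × K × K} (ha : dot a a = 1) (x : K × K × K) :
    dot a (rot a x) = dot a x := by
  simp only [rot, dot, Prod.smul_fst, Prod.smul_snd, Prod.fst_sub, Prod.snd_sub, smul_eq_mul] at *
  linear_combination (2 * (a.1 * x.1 + a.2.1 * x.2.1 + a.2.2 * x.2.2)) * ha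

theorem rot_rot {a : K × K × K} (ha : dot a a = 1) (x : K × K × K) : rot a (rot a x) = x := by
  have h := dot_rot ha x
  rw [rot, h, rot]
  module

theorem rot_neg (a x : K × K × K) : rot a (-x) = -rot a x := by
  rw [rot, rot, dot_neg_right]
  module

theorem neg_rot (a x : K × K × K) : rot (-a) x = rot a x := by
  rw [rot, rot, dot_neg_left]
  module

theorem rot_self {a : K × K × K} (ha : dot a a = 1) : rot a a = a := by
  rw [rot, ha]
  module

theorem rho_neg (x : K × K × K) : rho (-x) = -rho x := by
  simp [rho]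

variable [Fintype K] [DecidableEq K]

theorem mem_U {x : K × K × K} : x ∈ U K ↔ dot x x = 1 := by simp [U]

theorem mem_N {x : K × K × K} : x ∈ N K ↔ dot x x = -1 := by simp [N]

theorem mem_W {x : K × K × K} : x ∈ W K ↔
    dot x x = 1 ∧ x.2.2 ≠ 0 ∧ ∃ k : K, k ≠ 0 ∧ k * k = 1 - x.2.2 * x.2.2 := by
  simp [W, mem_U]

theorem neg_mem_U {x : K × K × K} : -x ∈ U K ↔ x ∈ U K := by
  rw [mem_U, mem_U, dot_neg_left, dot_neg_right, neg_neg]

theorem neg_mem_W {x : K × K × K} : -x ∈ W K ↔ x ∈ W K := by
  rw [mem_W, mem_W, dot_neg_left, dot_neg_right, neg_neg]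
  simp

theorem rho_mem_U {x : K × K × K} : rho x ∈ U K ↔ x ∈ U K := by
  rw [mem_U, mem_U, dot_rho_rho]

theorem rot_mem_U {a x : K × K × K} (ha : a ∈ U K) : rot a x ∈ U K ↔ x ∈ U K := by
  rw [mem_U, mem_U, dot_rot_rot (mem_U.1 ha)]

theorem e3_mem_U : (e3 : K × K × K) ∈ U K := by
  rw [mem_U]; simp [dot, e3]

theorem W_subset_U : W K ⊆ U K := Finset.filter_subset _ _

end sphere

end Pool.Agent.Helper81.PS
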