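import Pool.Agent.Helper81.PS.Two

/-!
# Block PS-EA: the energy over all vectors

Expand the square: `∑_y nb h y ^ 2 = ∑_{x, x' ∈ U} h x h x' #{y : y ⊥ x, y ⊥ x'}`. The number is `q²` for
`x' = ± x` (`card_perp_one`; `x ≠ -x` by `h2`) and `q` otherwise (`card_perp_two`), so the sum is
`q (∑ h)² + (q² - q) ∑_x h x (h x + h (-x))`.
-/

set_option autoImplicit false

namespace Pool.Agent.Helper81.PS

variable {K : Type*} [Field K] [Fintype K] [DecidableEq K]

/-- The number of the vectors orthogonal to two unit vectors. -/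
private theorem card_two (h2 : (2 : K) ≠ 0) {x x' : K × K × K} (hx : x ∈ U K) (hx' : x' ∈ U K) :
    ((Finset.univ.filter fun y : K × K × K => dot x y = 0 ∧ dot x' y = 0).card : ℝ) =
      Fintype.card K + (Fintype.card K : ℝ) * (Fintype.card K - 1) *
        ((if x' = x then 1 else 0) + (if x' = -x then 1 else 0)) := by
  have hne : x ≠ -x := by
    intro h
    have h1 : dot x x = 1 := mem_U.1 hx
    have h3 : dot x x = -1 := by
      conv_lhs => rw [h]
      rw [dot_neg_left]
      conv_lhs => rw [← h]
      rw [h1]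
    rw [h1] at h3
    apply h2
    linear_combination h3
  by_cases e1 : x' = x
  · subst e1
    have h3 : (Finset.univ.filter fun y : K × K × K => dot x' y = 0 ∧ dot x' y = 0) =
        Finset.univ.filter fun y : K × K × K => dot x' y = 0 := by
      ext y; simp
    rw [h3, card_perp_one hx, if_pos rfl, if_neg hne]
    push_cast
    ring
  · by_cases e2 : x' = -x
    · subst e2
      have h3 : (Finset.univ.filter fun y : K × K × K => dot x y = 0 ∧ dot (-x) y = 0) =
          Finset.univ.filter fun y : K × K × K => dot x y = 0 := by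
        ext y; simp [dot_neg_left]
      rw [h3, card_perp_one hx, if_neg e1, if_pos rfl]
      push_cast
      ring
    · rw [card_perp_two hx hx' e1 e2, if_neg e1, if_neg e2]
      ring

theorem energy_all (h2 : (2 : K) ≠ 0) (h : K × K × K → ℝ) (hh : ∀ x, h (-x) = h x) :
    ∑ y : K × K × K, nb h y ^ 2 = (Fintype.card K : ℝ) * (∑ x ∈ U K, h x) ^ 2 +
      2 * Fintype.card K * (Fintype.card K - 1) * ∑ x ∈ U K, h x ^ 2 := by
  have e1 : ∑ y : K × K × K, nb h y ^ 2 = ∑ x ∈ U K, ∑ x' ∈ U K, h x * h x' *
      ((Finset.univ.filter fun y : K × K × K => dot x y = 0 ∧ dot x' y = 0).card : ℝ) := by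
    have e2 : ∀ y : K × K × K, nb h y ^ 2 = ∑ x ∈ U K, ∑ x' ∈ U K, h x * h x' *
        (if dot x y = 0 ∧ dot x' y = 0 then 1 else 0) := by
      intro y
      rw [nb, sq, Finset.sum_mul_sum]
      refine Finset.sum_congr rfl fun x _ => Finset.sum_congr rfl fun x' _ => ?_
      by_cases h1 : dot x y = 0 <;> by_cases h3 : dot x' y = 0 <;> simp [h1, h3]
    simp_rw [e2]
    rw [Finset.sum_comm]
    refine Finset.sum_congr rfl fun x _ => ?_
    rw [Finset.sum_comm]
    refine Finset.sum_congr rfl fun x' _ => ?_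
    rw [← Finset.mul_sum, Finset.sum_boole]
  rw [e1]
  have e3 : ∀ x ∈ U K, ∑ x' ∈ U K, h x * h x' *
      ((Finset.univ.filter fun y : K × K × K => dot x y = 0 ∧ dot x' y = 0).card : ℝ) =
      (Fintype.card K : ℝ) * h x * (∑ x' ∈ U K, h x') +
        2 * Fintype.card K * (Fintype.card K - 1) * h x ^ 2 := by
    intro x hx
    have e4 : ∀ x' ∈ U K, h x * h x' *
        ((Finset.univ.filter fun y : K × K × K => dot x y = 0 ∧ dot x' y = 0).card : ℝ) =
        (Fintype.card K : ℝ) * h x * h x' +
          (Fintype.card K : ℝ) * (Fintype.card K - 1) * h x *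
          ((if x' = x then h x' else 0) + (if x' = -x then h x' else 0)) := by
      intro x' hx'
      rw [card_two h2 hx hx']
      split_ifs <;> ring
    rw [Finset.sum_congr rfl e4, Finset.sum_add_distrib, ← Finset.mul_sum, ← Finset.mul_sum,
      Finset.sum_add_distrib, Finset.sum_ite_eq' _ x, Finset.sum_ite_eq' _ (-x), if_pos hx,
      if_pos (neg_mem_U.2 hx), hh]
    ring
  rw [Finset.sum_congr rfl e3, Finset.sum_add_distrib, ← Finset.sum_mul, ← Finset.mul_sum,
    ← Finset.mul_sum]
  ring

end Pool.Agent.Helper81.PS
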