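import Pool.Agent.Helper81.PS.Perp

/-!
# Block PS-EB: splitting the energy

`nb h 0 = ∑ h`. If `y ≠ 0` and `dot y y = 0` then no unit vector is orthogonal to `y` (`iso_perp`), so
`nb h y = 0`. If `dot y y = c ≠ 0` then `y = k • u` with `u ∈ U K` or `u ∈ N K`, `k ≠ 0`
(`sq_or_neg_sq`), exactly one of the two happens (`neg_one_not_sq`) and there are exactly two such
pairs `(k, u)`, `(-k, -u)`; moreover `nb h (k • u) = nb h u`. So
`2 ∑_{y ≠ 0} nb h y ^ 2 = (q - 1) (∑_{u ∈ U} nb h u ^ 2 + ∑_{u ∈ N} nb h u ^ 2)`.
-/

set_option autoImplicit false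

namespace Pool.Agent.Helper81.PS

variable {K : Type*} [Field K] [Fintype K] [DecidableEq K]


private theorem nb_smul92 (h : K × K × K → ℝ) {k : K} (hk : k ≠ 0) (y : K × K × K) :
    nb h (k • y) = nb h y := by
  unfold nb
  refine Finset.sum_congr rfl fun x _ => ?_
  have : dot x (k • y) = 0 ↔ dot x y = 0 := by
    rw [dot_smul_right, mul_eq_zero]
    exact ⟨fun h => h.resolve_left hk, Or.inr⟩
  simp only [this]

private theorem count92 (g : K × K × K → ℝ) (hg : ∀ k : K, k ≠ 0 → ∀ y, g (k • y) = g y) (ε : K) :
    ((Fintype.card K : ℝ) - 1) * ∑ u ∈ Finset.univ.filter (fun u : K × K × K => dot u u = ε), g u =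
      ∑ y : K × K × K, ((Finset.univ.filter fun k : K => k ≠ 0 ∧ k * k * ε = dot y y).card : ℝ) *
        g y := by
  have h1 : ∀ k : K, k ≠ 0 →
      ∑ y ∈ Finset.univ.filter (fun y : K × K × K => k * k * ε = dot y y), g y =
        ∑ u ∈ Finset.univ.filter (fun u : K × K × K => dot u u = ε), g u := by
    intro k hk
    refine Finset.sum_bij' (fun y _ => k⁻¹ • y) (fun u _ => k • u) ?_ ?_ ?_ ?_ ?_
    · intro y hy
      simp only [Finset.mem_filter, Finset.mem_univ, true_and] at hy ⊢
      rw [dot_smul_left, dot_smul_right, ← hy]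
      field_simp
    · intro u hu
      simp only [Finset.mem_filter, Finset.mem_univ, true_and] at hu ⊢
      rw [dot_smul_left, dot_smul_right, hu]
      ring
    · intro y _
      rw [smul_smul, mul_inv_cancel₀ hk, one_smul]
    · intro u _
      rw [smul_smul, inv_mul_cancel₀ hk, one_smul]
    · intro y _
      rw [hg _ (inv_ne_zero hk)]
  have h2 : ∀ y : K × K × K,
      ((Finset.univ.filter fun k : K => k ≠ 0 ∧ k * k * ε = dot y y).card : ℝ) * g y =
        ∑ k : K, if k ≠ 0 then (if k * k * ε = dot y y then g y else 0) else 0 := by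
    intro y
    rw [← nsmul_eq_mul, ← Finset.sum_const, Finset.sum_filter]
    refine Finset.sum_congr rfl fun k _ => ?_
    by_cases hk : k ≠ 0
    · by_cases hk2 : k * k * ε = dot y y
      · simp [hk, hk2]
      · simp [hk, hk2]
    · simp [hk]
  rw [Finset.sum_congr rfl fun y _ => h2 y, Finset.sum_comm]
  have h3 : ∀ k : K, (∑ y : K × K × K,
      if k ≠ 0 then (if k * k * ε = dot y y then g y else 0) else 0) =
        if k ≠ 0 then ∑ u ∈ Finset.univ.filter (fun u : K × K × K => dot u u = ε), g u else 0 := by
    intro k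
    by_cases hk : k ≠ 0
    · rw [if_pos hk, ← h1 k hk, Finset.sum_filter]
      refine Finset.sum_congr rfl fun y _ => ?_
      rw [if_pos hk]
    · rw [if_neg hk]
      refine Finset.sum_eq_zero fun y _ => ?_
      rw [if_neg hk]
  rw [Finset.sum_congr rfl fun k _ => h3 k, ← Finset.sum_filter, Finset.sum_const, nsmul_eq_mul]
  have h4 : (Finset.univ.filter fun k : K => k ≠ 0).card + 1 = Fintype.card K := by
    have h5 : (Finset.univ.filter fun k : K => k ≠ 0) = Finset.univ.erase 0 := by
      ext k
      simp
    rw [h5, Finset.card_erase_of_mem (Finset.mem_univ _), Finset.card_univ]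
    have : 0 < Fintype.card K := Fintype.card_pos
    omega
  have h6 : ((Finset.univ.filter fun k : K => k ≠ 0).card : ℝ) = (Fintype.card K : ℝ) - 1 := by
    rw [← h4]; push_cast; ring
  rw [h6]

theorem energy_split (hq : Fintype.card K % 4 = 3) (h : K × K × K → ℝ) :
    2 * ∑ y : K × K × K, nb h y ^ 2 = 2 * (∑ x ∈ U K, h x) ^ 2 +
      ((Fintype.card K : ℝ) - 1) * (∑ y ∈ U K, nb h y ^ 2 + ∑ y ∈ N K, nb h y ^ 2) := by
  obtain ⟨g, hgd⟩ : ∃ g : K × K × K → ℝ, g = fun y => nb h y ^ 2 := ⟨_, rfl⟩
  have hg : ∀ k : K, k ≠ 0 → ∀ y, g (k • y) = g y := by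
    intro k hk y
    rw [hgd]
    simp only
    rw [nb_smul92 h hk]
  have hU := count92 g hg 1
  have hN := count92 g hg (-1)
  have hUe : ∑ u ∈ Finset.univ.filter (fun u : K × K × K => dot u u = 1), g u =
      ∑ y ∈ U K, nb h y ^ 2 := by rw [hgd]; rfl
  have hNe : ∑ u ∈ Finset.univ.filter (fun u : K × K × K => dot u u = -1), g u =
      ∑ y ∈ N K, nb h y ^ 2 := by rw [hgd]; rfl
  rw [hUe] at hU
  rw [hNe] at hN
  rw [mul_add, hU, hN, ← Finset.sum_add_distrib]
  have h0 : g 0 = (∑ x ∈ U K, h x) ^ 2 := by
    rw [hgd]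
    simp only
    congr 1
    unfold nb
    refine Finset.sum_congr rfl fun x _ => ?_
    rw [if_pos (by simp [dot])]
  have hterm : ∀ y : K × K × K,
      ((Finset.univ.filter fun k : K => k ≠ 0 ∧ k * k * 1 = dot y y).card : ℝ) * g y +
        ((Finset.univ.filter fun k : K => k ≠ 0 ∧ k * k * -1 = dot y y).card : ℝ) * g y =
      2 * g y - if y = 0 then 2 * g 0 else 0 := by
    intro y
    by_cases hy : dot y y = 0
    · by_cases hy0 : y = 0
      · subst hy0
        have e1 : (Finset.univ.filter fun k : K => k ≠ 0 ∧ k * k * 1 = dot (0 : K × K × K) 0) = ∅ := by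
          ext k
          simp only [Finset.mem_filter, Finset.mem_univ, true_and, Finset.notMem_empty, iff_false]
          rintro ⟨hk, hk2⟩
          rw [hy, mul_one, mul_self_eq_zero] at hk2
          exact hk hk2
        have e2 : (Finset.univ.filter fun k : K => k ≠ 0 ∧ k * k * -1 = dot (0 : K × K × K) 0) = ∅ := by
          ext k
          simp only [Finset.mem_filter, Finset.mem_univ, true_and, Finset.notMem_empty, iff_false]
          rintro ⟨hk, hk2⟩
          rw [hy, mul_neg, mul_one, neg_eq_zero, mul_self_eq_zero] at hk2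
          exact hk hk2
        rw [e1, e2]
        simp
      · have hgy : g y = 0 := by
          rw [hgd]
          simp only
          have : nb h y = 0 := by
            unfold nb
            refine Finset.sum_eq_zero fun x hx => ?_
            rw [if_neg]
            intro hxy
            exact hy0 (iso_perp hq hx hy hxy)
          rw [this]
          norm_num
        rw [hgy, if_neg hy0]
        ring
    · have hy0 : y ≠ 0 := by
        rintro rfl
        exact hy (by simp [dot])
      have hc := card_sqrt hq (dot y y)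
      have e1 : (Finset.univ.filter fun k : K => k ≠ 0 ∧ k * k * 1 = dot y y) =
          Finset.univ.filter fun t : K => t * t = dot y y := by
        ext k
        simp only [Finset.mem_filter, Finset.mem_univ, true_and, mul_one]
        refine ⟨fun h => h.2, fun h => ⟨?_, h⟩⟩
        rintro rfl
        exact hy (by rw [← h, mul_zero])
      have e2 : (Finset.univ.filter fun k : K => k ≠ 0 ∧ k * k * -1 = dot y y) =
          Finset.univ.filter fun t : K => t * t = -dot y y := by
        ext k
        simp only [Finset.mem_filter, Finset.mem_univ, true_and]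
        constructor
        · rintro ⟨_, h⟩
          rw [← h]; ring
        · intro h
          refine ⟨?_, by rw [h]; ring⟩
          rintro rfl
          apply hy
          rw [mul_zero] at h
          exact neg_eq_zero.1 h.symm
      rw [e1, e2, if_neg hy0, ← add_mul]
      have hc' : ((Finset.univ.filter fun t : K => t * t = dot y y).card : ℝ) +
          ((Finset.univ.filter fun t : K => t * t = -dot y y).card : ℝ) = 2 := by
        exact_mod_cast hc
      rw [hc']
      ring
  rw [Finset.sum_congr rfl fun y _ => hterm y, Finset.sum_sub_distrib, Finset.sum_ite_eq',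
    if_pos (Finset.mem_univ _), h0, ← Finset.mul_sum, hgd]
  ring

end Pool.Agent.Helper81.PS
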