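import Pool.Agent.Helper81.PS.Circ

/-!
# Block PS-SP: the number of points of the two spheres

For a given third coordinate `z` there are `q + 1` points `(x, y)` with `x² + y² = c - z²` if
`z² ≠ c` (`card_circle`) and one otherwise (`sum_sq_eq_zero`). For `c = 1` there are two `z` with `z² = c`,
for `c = -1` there is none (`neg_one_not_sq`).
-/

set_option autoImplicit false

namespace Pool.Agent.Helper81.PS

variable {K : Type*} [Field K] [Fintype K] [DecidableEq K]

private theorem fib (c z : K) :
    ((Finset.univ.filter fun x : K × K × K => dot x x = c).filter fun x => x.2.2 = z).card =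
      (Finset.univ.filter fun p : K × K => p.1 * p.1 + p.2 * p.2 = c - z * z).card := by
  refine Finset.card_bij' (fun x _ => (x.1, x.2.1)) (fun p _ => (p.1, p.2, z)) ?_ ?_ ?_ ?_
  · intro x hx
    rw [Finset.mem_filter, Finset.mem_filter] at hx
    rw [Finset.mem_filter]
    refine ⟨Finset.mem_univ _, ?_⟩
    have h1 : x.1 * x.1 + x.2.1 * x.2.1 + x.2.2 * x.2.2 = c := hx.1.2
    have h2 : x.2.2 = z := hx.2
    show x.1 * x.1 + x.2.1 * x.2.1 = c - z * z
    rw [← h1, h2]
    ring
  · intro p hp
    rw [Finset.mem_filter] at hp
    rw [Finset.mem_filter, Finset.mem_filter]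
    refine ⟨⟨Finset.mem_univ _, ?_⟩, rfl⟩
    show p.1 * p.1 + p.2 * p.2 + z * z = c
    rw [hp.2]
    ring
  · intro x hx
    rw [Finset.mem_filter] at hx
    show (x.1, x.2.1, z) = x
    rw [← hx.2]
  · intro p _
    rfl

private theorem sphere (hq : Fintype.card K % 4 = 3) (c : K) :
    (Finset.univ.filter fun x : K × K × K => dot x x = c).card +
      (Finset.univ.filter fun t : K => t * t = c).card * Fintype.card K =
        Fintype.card K * (Fintype.card K + 1) := by
  have h1 : (Finset.univ.filter fun x : K × K × K => dot x x = c).card =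
      ∑ z : K, (Finset.univ.filter fun p : K × K => p.1 * p.1 + p.2 * p.2 = c - z * z).card := by
    rw [Finset.card_eq_sum_card_fiberwise (f := fun x : K × K × K => x.2.2) (t := Finset.univ)
      (fun x _ => Finset.mem_coe.2 (Finset.mem_univ _))]
    exact Finset.sum_congr rfl fun z _ => fib c z
  have h2 : (Finset.univ.filter fun t : K => t * t = c).card * Fintype.card K =
      ∑ z : K, if z * z = c then Fintype.card K else 0 := by
    rw [← Finset.sum_filter, Finset.sum_const, smul_eq_mul]
  rw [h1, h2, ← Finset.sum_add_distrib]
  rw [Finset.sum_congr rfl (g := fun _ => Fintype.card K + 1)]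
  · rw [Finset.sum_const, Finset.card_univ, smul_eq_mul]
  · intro z _
    by_cases hz : z * z = c
    · rw [if_pos hz]
      have h3 : (Finset.univ.filter fun p : K × K => p.1 * p.1 + p.2 * p.2 = c - z * z) = {(0, 0)} := by
        ext p
        simp only [Finset.mem_filter, Finset.mem_univ, true_and, Finset.mem_singleton, hz, sub_self]
        constructor
        · intro h
          obtain ⟨ha, hb⟩ := sum_sq_eq_zero hq h
          exact Prod.ext ha hb
        · rintro rfl
          simp
      rw [h3, Finset.card_singleton, add_comm]
    · rw [if_neg hz, add_zero]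
      exact card_circle hq fun h => hz (sub_eq_zero.1 h).symm

theorem card_U (hq : Fintype.card K % 4 = 3) :
    (U K).card + Fintype.card K = Fintype.card K * Fintype.card K := by
  have h1 := sphere hq (1 : K)
  have h2 := card_sqrt hq (1 : K)
  have h3 : (Finset.univ.filter fun t : K => t * t = -1) = ∅ := by
    rw [Finset.filter_eq_empty_iff]
    intro t _
    exact neg_one_not_sq hq t
  rw [h3, Finset.card_empty, add_zero] at h2
  rw [h2] at h1
  have h4 : (U K).card = (Finset.univ.filter fun x : K × K × K => dot x x = 1).card := rfl
  rw [← h4] at h1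
  nlinarith [h1]

theorem card_N (hq : Fintype.card K % 4 = 3) :
    (N K).card = Fintype.card K * Fintype.card K + Fintype.card K := by
  have h1 := sphere hq (-1 : K)
  have h3 : (Finset.univ.filter fun t : K => t * t = -1) = ∅ := by
    rw [Finset.filter_eq_empty_iff]
    intro t _
    exact neg_one_not_sq hq t
  rw [h3, Finset.card_empty, zero_mul, add_zero] at h1
  have h4 : (N K).card = (Finset.univ.filter fun x : K × K × K => dot x x = -1).card := rfl
  rw [h4, h1]
  ring

end Pool.Agent.Helper81.PS
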