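import Pool.Agent.Helper81.PS.EnA
import Pool.Agent.Helper81.PS.EnB
import Pool.Agent.Helper81.PS.Sph

/-!
# Block PS-EC: first and second moments

`energy`: `energy_all` and `energy_split`, divide by `q - 1 ≠ 0`. `sum_nb_U`, `sum_nb_N`: exchange the
sums, `card_perp_U`, `card_perp_N`.
-/

set_option autoImplicit false

namespace Pool.Agent.Helper81.PS

variable {K : Type*} [Field K] [Fintype K] [DecidableEq K]

theorem energy (hq : Fintype.card K % 4 = 3) (h : K × K × K → ℝ) (hh : ∀ x, h (-x) = h x) :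
    ∑ y ∈ U K, nb h y ^ 2 + ∑ y ∈ N K, nb h y ^ 2 =
      2 * (∑ x ∈ U K, h x) ^ 2 + 4 * Fintype.card K * ∑ x ∈ U K, h x ^ 2 := by
  have h1 := energy_all (two_ne_zero' hq) h hh
  have h2 := energy_split hq h
  have h3 : ((Fintype.card K : ℝ) - 1) ≠ 0 := by
    have h4 : 3 ≤ Fintype.card K := by omega
    have h5 : (3 : ℝ) ≤ Fintype.card K := by exact_mod_cast h4
    intro h6
    linarith
  apply mul_left_cancel₀ h3
  rw [h1] at h2
  linear_combination -h2

private theorem sum_nb19 (s : Finset (K × K × K)) (h : K × K × K → ℝ) (c : ℕ)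
    (hc : ∀ x ∈ U K, (s.filter fun y => dot x y = 0).card = c) :
    ∑ y ∈ s, nb h y = (c : ℝ) * ∑ x ∈ U K, h x := by
  simp only [nb]
  rw [Finset.sum_comm, Finset.mul_sum]
  refine Finset.sum_congr rfl (fun x hx => ?_)
  rw [← Finset.sum_filter, Finset.sum_const, hc x hx, nsmul_eq_mul]

theorem sum_nb_U (hq : Fintype.card K % 4 = 3) (h : K × K × K → ℝ) :
    ∑ y ∈ U K, nb h y = ((Fintype.card K : ℝ) + 1) * ∑ x ∈ U K, h x := by
  rw [sum_nb19 (U K) h (Fintype.card K + 1) (fun x hx => card_perp_U hq hx)]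
  push_cast
  ring

theorem sum_nb_N (hq : Fintype.card K % 4 = 3) (h : K × K × K → ℝ) :
    ∑ y ∈ N K, nb h y = ((Fintype.card K : ℝ) + 1) * ∑ x ∈ U K, h x := by
  rw [sum_nb19 (N K) h (Fintype.card K + 1) (fun x hx => card_perp_N hq hx)]
  push_cast
  ring

end Pool.Agent.Helper81.PS
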