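import Pool.Agent.Helper81.PS.Grp

/-!
# Block PS-TR: all involutions of `PSL(2, q)`, `q` odd, are conjugate

`conj_J`: let `A` have trace `0`, rows `(a, b)`, `(c, -a)`, `a² + b c = -1`. For a vector `v = (x, y)` let
`P = (v | A v)` be the matrix with the columns `v`, `A v`. As `A² = -1`, `A P = (A v | -v) = P J` with
`J = (0, -1; 1, 0)`, and `det P = c x² - 2 a x y - b y²`. It remains to find `v` with `det P = 1`. If
`c ≠ 0`: `c (c x² - 2 a x y - b y²) = (c x - a y)² + y²`, and `X² + y² = c` has a solution in every finite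
field (`FiniteField.exists_root_sum_quadratic`; or pigeonhole), `x = (X + a y) / c`. If `c = 0` then
`a² = -1`; take `y = 1`, `x = -(1 + b) / (2 a)`.
-/

set_option autoImplicit false

namespace Pool.Agent.Helper81.PS

variable {K : Type*} [Field K] [Finite K]

/-- a sum of two squares is arbitrary in a finite field of odd order -/
private theorem sum_sq36 (h2 : (2 : K) ≠ 0) (c : K) : ∃ X y : K, X * X + y * y = c := by
  classical
  let _ := Fintype.ofFinite K
  have hodd : Fintype.card K % 2 = 1 := by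
    refine FiniteField.odd_card_of_char_ne_two fun h => h2 ?_
    have h3 := ringChar.Nat.cast_ringChar (R := K)
    rw [h] at h3
    exact_mod_cast h3
  obtain ⟨a, b, hab⟩ : ∃ a b : K, (Polynomial.X ^ 2 : Polynomial K).eval a
      + (Polynomial.X ^ 2 - Polynomial.C c : Polynomial K).eval b = 0 :=
    FiniteField.exists_root_sum_quadratic (Polynomial.degree_X_pow 2)
      (Polynomial.degree_X_pow_sub_C (by decide) _) hodd
  refine ⟨a, b, ?_⟩
  simp only [Polynomial.eval_pow, Polynomial.eval_X, Polynomial.eval_sub, Polynomial.eval_C] at hab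
  linear_combination hab

theorem conj_J (h2 : (2 : K) ≠ 0) (A : Matrix.SpecialLinearGroup (Fin 2) K) (hA : tr A = 0) :
    ∃ P : Matrix.SpecialLinearGroup (Fin 2) K, A.1 * P.1 = P.1 * !![0, -1; 1, 0] := by
  obtain ⟨M, hM⟩ := A
  have hd : M 0 0 * M 1 1 - M 0 1 * M 1 0 = 1 := by rw [← Matrix.det_fin_two, hM]
  have ht : M 1 1 = -M 0 0 := by
    have : M 0 0 + M 1 1 = 0 := hA
    linear_combination this
  rw [ht] at hd
  have key : ∃ x y : K, M 1 0 * x * x - 2 * M 0 0 * x * y - M 0 1 * y * y = 1 := by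
    by_cases hc : M 1 0 = 0
    · rw [hc] at hd ⊢
      have ha : M 0 0 ≠ 0 := by
        intro h
        rw [h] at hd
        simp at hd
      refine ⟨-(1 + M 0 1) / (2 * M 0 0), 1, ?_⟩
      field_simp
      ring
    · obtain ⟨X, y, h⟩ := sum_sq36 h2 (M 1 0)
      refine ⟨(X + M 0 0 * y) / M 1 0, y, ?_⟩
      field_simp
      linear_combination h + y ^ 2 * hd
  obtain ⟨x, y, hxy⟩ := key
  refine ⟨⟨!![x, M 0 0 * x + M 0 1 * y; y, M 1 0 * x - M 0 0 * y], ?_⟩, ?_⟩
  · rw [Matrix.det_fin_two]
    simp only [Matrix.of_apply, Matrix.cons_val', Matrix.cons_val_zero, Matrix.cons_val_one,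
      Matrix.cons_val_fin_one]
    linear_combination hxy
  · ext i j
    fin_cases i <;> fin_cases j <;>
      simp [Matrix.mul_apply, Fin.sum_univ_two, ht]
    · linear_combination (-x) * hd
    · ring
    · linear_combination (-y) * hd

theorem isConj_of_order_two (h2 : (2 : K) ≠ 0)
    {a b : Matrix.ProjectiveSpecialLinearGroup (Fin 2) K} (ha : orderOf a = 2)
    (hb : orderOf b = 2) : IsConj a b := by
  let J : Matrix.SpecialLinearGroup (Fin 2) K := ⟨!![0, -1; 1, 0], by simp [Matrix.det_fin_two]⟩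
  have key : ∀ A : Matrix.SpecialLinearGroup (Fin 2) K, tr A = 0 → IsConj J A := by
    intro A hA
    obtain ⟨P, hP⟩ := conj_J h2 A hA
    rw [isConj_iff]
    refine ⟨P, ?_⟩
    rw [mul_inv_eq_iff_eq_mul]
    exact Subtype.ext hP.symm
  obtain ⟨A, rfl⟩ := pr_surj a
  obtain ⟨B, rfl⟩ := pr_surj b
  exact (pr K).map_isConj
    ((key A ((order_two_iff h2 A).1 ha)).symm.trans (key B ((order_two_iff h2 B).1 hb)))

end Pool.Agent.Helper81.PS
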