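import Pool.Agent.Helper81.PS.CoO
import Pool.Agent.Helper81.PS.CoT
import Pool.Agent.Helper81.PS.Tra
import Pool.Agent.Helper2.AN.Qd

/-!
# Block PS-FI: the final assembly
-/

set_option autoImplicit false

namespace Pool.Agent.Helper81.PS

theorem noncomm81 {K : Type*} [Field K] (h2 : (2 : K) ≠ 0) :
    ∃ x y : Matrix.ProjectiveSpecialLinearGroup (Fin 2) K, x * y ≠ y * x := by
  refine ⟨pr K ⟨!![1, 1; 0, 1], by simp [Matrix.det_fin_two]⟩,
    pr K ⟨!![1, 0; 1, 1], by simp [Matrix.det_fin_two]⟩, fun h => ?_⟩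
  rw [← map_mul, ← map_mul, pr_eq_iff, Matrix.SpecialLinearGroup.coe_mul,
    Matrix.SpecialLinearGroup.coe_mul] at h
  rcases h with h | h
  · have h1 := congrFun (congrFun h 0) 0
    simp [Matrix.mul_apply] at h1
  · have h1 := congrFun (congrFun h 0) 1
    simp [Matrix.mul_apply] at h1
    apply h2
    linear_combination h1

/-- Block PS-FI. `D` is the set of all elements of order two (`isConj_of_order_two`; a conjugate of an
element of order two has order two). `Nat.card K % 4` is `1` or `3` because `K` is a field with `2 ≠ 0`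
(`FiniteField.odd_card_of_char_ne_two`), and `Nat.card K ≥ 5`, so at least `7` if it is `3` mod `4`. Use
`conj_one` (with `p = ringChar K`) resp. `conj_three`, and `extend_of_conj` with
`Matrix.ProjectiveSpecialLinearGroup.rank_two_simple`; the group is not commutative (two different
conjugate involutions, or: it has two non commuting elements because `D` has more than one element and
they are conjugate). `φ '' D = D`: from `φ a = τ a` and surjectivity of `τ`. -/
theorem final {K : Type*} [Field K] [Finite K] (h2 : (2 : K) ≠ 0) (h4 : 4 ≤ Nat.card K)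
    (D : Set (Matrix.ProjectiveSpecialLinearGroup (Fin 2) K))
    (hD : ∃ a₀ : Matrix.ProjectiveSpecialLinearGroup (Fin 2) K, orderOf a₀ = 2 ∧
      ∀ a, a ∈ D ↔ IsConj a₀ a) (τ : Equiv.Perm D)
    (hτ2 : ∀ a b : D, a ≠ b →
      (orderOf ((τ a : Matrix.ProjectiveSpecialLinearGroup (Fin 2) K) * τ b) = 2 ↔
        orderOf ((a : Matrix.ProjectiveSpecialLinearGroup (Fin 2) K) * b) = 2))
    (hτ3 : Nat.card K % 4 = 3 → Nat.card K < 27 → ∀ a b : D, a ≠ b →
      (orderOf ((τ a : Matrix.ProjectiveSpecialLinearGroup (Fin 2) K) * τ b) = 3 ↔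
        orderOf ((a : Matrix.ProjectiveSpecialLinearGroup (Fin 2) K) * b) = 3))
    (hτp : Nat.card K % 4 = 1 → ∀ a b : D, a ≠ b →
      (orderOf ((τ a : Matrix.ProjectiveSpecialLinearGroup (Fin 2) K) * τ b) = ringChar K ↔
        orderOf ((a : Matrix.ProjectiveSpecialLinearGroup (Fin 2) K) * b) = ringChar K)) :
    (∀ a, a ∈ D ↔ orderOf a = 2) ∧
    ∃ φ : Matrix.ProjectiveSpecialLinearGroup (Fin 2) K ≃*
      Matrix.ProjectiveSpecialLinearGroup (Fin 2) K, φ '' D = D ∧
        ∀ a : D, φ (a : Matrix.ProjectiveSpecialLinearGroup (Fin 2) K) = τ a := by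
  classical
  have : Fintype K := Fintype.ofFinite K
  have hcard : Nat.card K = Fintype.card K := Nat.card_eq_fintype_card
  obtain ⟨a₀, h₀, hD⟩ := hD
  have hord : ∀ {a b : Matrix.ProjectiveSpecialLinearGroup (Fin 2) K}, IsConj a b →
      orderOf b = orderOf a := by
    intro a b h
    obtain ⟨c, rfl⟩ := isConj_iff.1 h
    rw [← MulAut.conj_apply, ← MulEquiv.coe_toMonoidHom,
      orderOf_injective (MulAut.conj c).toMonoidHom (MulAut.conj c).injective a]
  have hD2 : ∀ a, a ∈ D ↔ orderOf a = 2 := by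
    intro a
    rw [hD]
    constructor
    · intro h
      rw [hord h, h₀]
    · intro h
      exact isConj_of_order_two h2 h₀ h
  refine ⟨hD2, ?_⟩
  have hchar : ringChar K ≠ 2 := by
    intro h
    apply h2
    have h3 : ((ringChar K : ℕ) : K) = 0 := CharP.cast_eq_zero K (ringChar K)
    rw [h] at h3
    exact_mod_cast h3
  have hodd := FiniteField.odd_card_of_char_ne_two hchar
  have hconj : ∀ a b c : D, (c : Matrix.ProjectiveSpecialLinearGroup (Fin 2) K) =
      a * b * (a : Matrix.ProjectiveSpecialLinearGroup (Fin 2) K)⁻¹ →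
      (τ c : Matrix.ProjectiveSpecialLinearGroup (Fin 2) K) =
        τ a * τ b * (τ a : Matrix.ProjectiveSpecialLinearGroup (Fin 2) K)⁻¹ := by
    rw [hcard] at hτ3 hτp h4
    rcases (by omega : Fintype.card K % 4 = 1 ∨ Fintype.card K % 4 = 3) with hq | hq
    · have hp : Fact (ringChar K).Prime := ⟨CharP.char_is_prime K (ringChar K)⟩
      exact conj_one hq hD2 τ hτ2 (hτp hq)
    · exact conj_three hq (by omega) hD2 τ hτ2 (hτ3 hq)
  have hDc : ∀ g : Matrix.ProjectiveSpecialLinearGroup (Fin 2) K, ∀ a ∈ D, g * a * g⁻¹ ∈ D := by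
    intro g a ha
    rw [hD2] at ha ⊢
    rw [hord (isConj_iff.2 ⟨g, rfl⟩), ha]
  have hsimple : IsSimpleGroup (Matrix.ProjectiveSpecialLinearGroup (Fin 2) K) :=
    Matrix.ProjectiveSpecialLinearGroup.rank_two_simple h4
  have hfin : Finite (Matrix.ProjectiveSpecialLinearGroup (Fin 2) K) :=
    Finite.of_surjective (pr K) pr_surj
  obtain ⟨φ, hφ⟩ := Pool.Agent.Helper2.AN.extend_of_conj hDc
    ⟨a₀, (hD2 a₀).2 h₀, fun h => by rw [h, orderOf_one] at h₀; omega⟩ (noncomm81 h2) τ
    (fun a b => Subtype.ext (hconj a b _ rfl))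
  refine ⟨φ, ?_, hφ⟩
  ext x
  constructor
  · rintro ⟨a, ha, rfl⟩
    have h1 := hφ ⟨a, ha⟩
    show φ a ∈ D
    rw [h1]
    exact (τ ⟨a, ha⟩).2
  · intro hx
    refine ⟨τ.symm ⟨x, hx⟩, (τ.symm ⟨x, hx⟩).2, ?_⟩
    show φ _ = x
    rw [hφ, Equiv.apply_symm_apply]

end Pool.Agent.Helper81.PS
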