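import Pool.Agent.Helper81.PS.Clos

/-!
# Block PS-FX: fixed points of `PT` maps

`PT.rho`: the map `rho ∘ T`; `rho e3 = e3`, and `rho x = -x` if `x.2.2 = 0`.
`fix_nb`: if `x` has two neighbours `y`, `y'` in the set with `y' ≠ ± y` then `T x` is orthogonal to
`T y = ± y` and `T y' = ± y'`, so `T x = ± x` by `eq_of_perp_two`. Otherwise all neighbours in the set
are contained in `{y, -y}`, and `nb` is at most two. `fix_all`: `clos`.
-/

set_option autoImplicit false

namespace Pool.Agent.Helper81.PS

variable {K : Type*} [Field K] [Fintype K] [DecidableEq K]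

theorem PT.rho {T : K × K × K → K × K × K} (hT : PT T) : PT fun x => rho (T x) := by
  refine ⟨fun x hx => rho_mem_U.2 (hT.mem x hx), ?_, ?_, ?_, ?_⟩
  · intro x hx
    rcases hT.neg x hx with h | h
    · left
      simp only [h]
    · right
      simp only [h, rho_neg]
  · intro x hx y hy
    rw [dot_rho_rho]
    exact hT.perp x hx y hy
  · have he : Pool.Agent.Helper81.PS.rho (e3 : K × K × K) = e3 := by
      simp [Pool.Agent.Helper81.PS.rho, e3]
    rcases hT.e with h | h
    · left
      simp only [h, he]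
    · right
      simp only [h, rho_neg, he]
  · intro x hx h0
    have he : Pool.Agent.Helper81.PS.rho x = -x := by
      ext <;> simp [Pool.Agent.Helper81.PS.rho, h0]
    rcases hT.eq x hx h0 with h | h
    · right
      simp only [h, he]
    · left
      simp only [h, rho_neg, he, neg_neg]

/-- The fixed points of `T` on the sphere modulo sign. -/
def Fx (T : K × K × K → K × K × K) : Finset (K × K × K) :=
  (U K).filter fun x => T x = x ∨ T x = -x

theorem neg_mem_Fx {T : K × K × K → K × K × K} (hT : PT T) {x : K × K × K} (hx : x ∈ Fx T) :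
    -x ∈ Fx T := by
  rw [Fx, Finset.mem_filter] at hx ⊢
  refine ⟨neg_mem_U.2 hx.1, ?_⟩
  rcases hx.2 with h | h <;> rcases hT.neg x hx.1 with h' | h' <;> rw [h', h]
  · right
    rw [neg_neg]
  · left
    rfl
  · left
    rfl
  · right
    rfl

theorem fix_nb {T : K × K × K → K × K × K} (hT : PT T) {x : K × K × K} (hx : x ∈ U K)
    (hf : x ∉ Fx T) : nb (fun y => if y ∈ Fx T then 1 else 0) x ≤ 2 := by
  have e : nb (fun y => if y ∈ Fx T then 1 else 0) x =
      (((U K).filter fun y => dot y x = 0 ∧ y ∈ Fx T).card : ℝ) := by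
    rw [nb, Finset.card_filter, Nat.cast_sum]
    refine Finset.sum_congr rfl fun y _ => ?_
    by_cases h1 : dot y x = 0 <;> by_cases h2 : y ∈ Fx T <;> simp [h1, h2]
  rw [e]
  have hle : ((U K).filter fun y => dot y x = 0 ∧ y ∈ Fx T).card ≤ 2 := by
    rcases ((U K).filter fun y => dot y x = 0 ∧ y ∈ Fx T).eq_empty_or_nonempty with h0 | ⟨y, hy⟩
    · rw [h0]
      simp
    · by_contra hcon
      push Not at hcon
      have hex : ∃ y' ∈ ((U K).filter fun y => dot y x = 0 ∧ y ∈ Fx T), y' ∉ ({y, -y} : Finset _) := by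
        by_contra hno
        push Not at hno
        have h3 := Finset.card_le_card (fun z hz => hno z hz)
        have h4 : ({y, -y} : Finset (K × K × K)).card ≤ 2 := Finset.card_le_two
        omega
      obtain ⟨y', hy', hne⟩ := hex
      rw [Finset.mem_insert, Finset.mem_singleton, not_or] at hne
      rw [Finset.mem_filter] at hy hy'
      obtain ⟨hyU, hyx, hyF⟩ := hy
      obtain ⟨hyU', hyx', hyF'⟩ := hy'
      have hperp : ∀ z ∈ U K, dot z x = 0 → z ∈ Fx T → dot (T x) z = 0 := by
        intro z hz h1 h2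
        rw [Fx, Finset.mem_filter] at h2
        have h3 := (hT.perp x hx z hz).2 (by rw [dot_comm]; exact h1)
        rcases h2.2 with h | h
        · rw [h] at h3
          exact h3
        · rw [h, dot_neg_right, neg_eq_zero] at h3
          exact h3
      have h5 := eq_of_perp_two hyU hyU' hne.1 hne.2 hx (hT.mem x hx) (by rw [dot_comm]; exact hyx)
        (by rw [dot_comm]; exact hyx') (hperp y hyU hyx hyF) (hperp y' hyU' hyx' hyF')
      exact hf (by rw [Fx, Finset.mem_filter]; exact ⟨hx, h5⟩)
  exact_mod_cast hle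

theorem fix_all (hq : Fintype.card K % 4 = 3) {T : K × K × K → K × K × K} (hT : PT T)
    (h1 : 0 < ((Fx T).card : ℝ) ^ 2 * ((Fintype.card K : ℝ) - 1) -
      4 * Fintype.card K * ((Fintype.card K : ℝ) + 2) * (Fx T).card +
      4 * (Fintype.card K : ℝ) ^ 2 * ((Fintype.card K : ℝ) - 1))
    (h2 : 2 * (Fintype.card K : ℝ) * ((Fintype.card K : ℝ) - 1) ≤
      ((Fintype.card K : ℝ) + 3) * (Fx T).card) : ∀ x ∈ U K, T x = x ∨ T x = -x := by
  intro x hx
  have h := clos hq (Fx T) (Finset.filter_subset _ _) (fun x hx => neg_mem_Fx hT hx)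
    (fun x hx hf => fix_nb hT hx hf) h1 h2
  rw [← h, Fx, Finset.mem_filter] at hx
  exact hx.2

/-- The fixed points in `W`, the points orthogonal to `e3` and `± e3`. -/
theorem card_Fx (hq : Fintype.card K % 4 = 3) {T : K × K × K → K × K × K} (hT : PT T) :
    ((W K).filter fun x => T x = x ∨ T x = -x).card + Fintype.card K + 3 ≤ (Fx T).card := by
  have h2 : (2 : K) ≠ 0 := two_ne_zero' hq
  have hB := card_perp_U hq (e3_mem_U (K := K))
  have hD : ({e3, -e3} : Finset (K × K × K)).card = 2 := by
    refine Finset.card_pair fun h => h2 ?_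
    have h3 := congrArg (fun z : K × K × K => z.2.2) h
    simp only [e3, Prod.snd_neg] at h3
    linear_combination h3
  have hAB : Disjoint ((W K).filter fun x => T x = x ∨ T x = -x)
      ((U K).filter fun y => dot e3 y = 0) := by
    rw [Finset.disjoint_left]
    intro x h3 h4
    rw [Finset.mem_filter] at h3 h4
    have h5 := (mem_W.1 h3.1).2.1
    rw [dot_comm, dot_e3] at h4
    exact h5 h4.2
  have hABD : Disjoint (((W K).filter fun x => T x = x ∨ T x = -x) ∪
      ((U K).filter fun y => dot e3 y = 0)) ({e3, -e3} : Finset (K × K × K)) := by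
    rw [Finset.disjoint_right]
    intro x h3 h4
    have h6 : x.2.2 * x.2.2 = 1 ∧ x.2.2 ≠ 0 := by
      rw [Finset.mem_insert, Finset.mem_singleton] at h3
      rcases h3 with h3 | h3 <;> rw [h3] <;> simp [e3]
    rw [Finset.mem_union, Finset.mem_filter, Finset.mem_filter] at h4
    rcases h4 with h4 | h4
    · obtain ⟨-, -, k, hk, hk2⟩ := mem_W.1 h4.1
      rw [h6.1, sub_self] at hk2
      exact hk (mul_self_eq_zero.1 hk2)
    · rw [dot_comm, dot_e3] at h4
      exact h6.2 h4.2
  have hsub : (((W K).filter fun x => T x = x ∨ T x = -x) ∪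
      ((U K).filter fun y => dot e3 y = 0)) ∪ ({e3, -e3} : Finset (K × K × K)) ⊆ Fx T := by
    have he : (e3 : K × K × K) ∈ Fx T := by
      rw [Fx, Finset.mem_filter]
      exact ⟨e3_mem_U, hT.e⟩
    intro x hx
    rw [Finset.mem_union, Finset.mem_union, Finset.mem_filter, Finset.mem_filter, Finset.mem_insert,
      Finset.mem_singleton] at hx
    rcases hx with (hx | hx) | hx | hx
    · rw [Fx, Finset.mem_filter]
      exact ⟨W_subset_U hx.1, hx.2⟩
    · rw [Fx, Finset.mem_filter]
      refine ⟨hx.1, hT.eq x hx.1 ?_⟩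
      rw [← dot_e3, dot_comm]
      exact hx.2
    · rw [hx]
      exact he
    · rw [hx]
      exact neg_mem_Fx hT he
  have h7 := Finset.card_le_card hsub
  rw [Finset.card_union_of_disjoint hABD, Finset.card_union_of_disjoint hAB, hB, hD] at h7
  omega

end Pool.Agent.Helper81.PS
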