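import Pool.Agent.Helper81.PS.Refl
import Pool.Agent.Helper81.PS.Circ

/-!
# Block PS-LI: the map `T ∘ rot a ∘ T'`

Let `a' = T a` and `S` a reflection as in `exists_refl` for `a'`. `lift_PT`: the map
`P x = S (T (rot a (T' (S x))))` is a `PT` map: it preserves orthogonality because `T`, `T'`, `rot a`, `S` do
(for `T'` use `right` and `perp`), signs by `neg`, `neg'`; `S e3 = ± a'`, `T' (± a') = ± a`,
`rot a (± a) = ± a`; if `x.2.2 = 0` then `S x ⊥ a'`, so `T' (S x) ⊥ a` and `rot a` is `-1` on it.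
`rot_of_core`: if `P x = ± x` for all unit vectors then (put `x = S (T b)`) `rot a b = ± b` for all unit
vectors `b` (`left`), which is false: take `c` with `c ≠ 0`, `c² ≠ 1` (`#K ≥ 7`), `w₁² + w₂² = 1 - c²`
(`exists_sum_sq`) and `b = S₀ (w₁, w₂, c)` for a reflection `S₀` with `S₀ a = ± e3` (`exists_refl` for `a`). So
`P x = ± rho x` for all unit vectors; put `x = S (T b)` again: `S (T (rot a b)) = ± rho (S (T b)) =
± S (rot a' (T b))`.
-/

set_option autoImplicit false

namespace Pool.Agent.Helper81.PS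

variable {K : Type*} [Field K] [Fintype K] [DecidableEq K]

omit [Fintype K] [DecidableEq K] in
theorem pm_dot {x x' y y' : K × K × K} (hx : x = x' ∨ x = -x') (hy : y = y' ∨ y = -y') :
    dot x y = 0 ↔ dot x' y' = 0 := by
  rcases hx with rfl | rfl <;> rcases hy with rfl | rfl <;>
    simp only [dot_neg_left, dot_neg_right, neg_eq_zero, neg_neg]

omit [Fintype K] [DecidableEq K] in
theorem pm_trans {x y z : K × K × K} (h1 : x = y ∨ x = -y) (h2 : y = z ∨ y = -z) :
    x = z ∨ x = -z := by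
  rcases h1 with rfl | rfl <;> rcases h2 with rfl | rfl <;> simp

omit [Fintype K] [DecidableEq K] in
theorem pm_symm {x y : K × K × K} (h1 : x = y ∨ x = -y) : y = x ∨ y = -x := by
  rcases h1 with rfl | rfl <;> simp

theorem LT.pmT {T T' : K × K × K → K × K × K} (hT : LT T T') {x y : K × K × K} (hy : y ∈ U K)
    (h : x = y ∨ x = -y) : T x = T y ∨ T x = -T y := by
  rcases h with rfl | rfl
  · exact Or.inl rfl
  · exact hT.neg y hy

theorem LT.pmT' {T T' : K × K × K → K × K × K} (hT : LT T T') {x y : K × K × K} (hy : y ∈ U K)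
    (h : x = y ∨ x = -y) : T' x = T' y ∨ T' x = -T' y := by
  rcases h with rfl | rfl
  · exact Or.inl rfl
  · exact hT.neg' y hy

omit [Fintype K] [DecidableEq K] in
theorem pm_rot (a : K × K × K) {x y : K × K × K} (h : x = y ∨ x = -y) :
    rot a x = rot a y ∨ rot a x = -rot a y := by
  rcases h with rfl | rfl
  · exact Or.inl rfl
  · exact Or.inr (rot_neg a y)

omit [Fintype K] [DecidableEq K] in
theorem pm_lin (S : (K × K × K) →ₗ[K] (K × K × K)) {x y : K × K × K} (h : x = y ∨ x = -y) :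
    S x = S y ∨ S x = -S y := by
  rcases h with rfl | rfl
  · exact Or.inl rfl
  · exact Or.inr (map_neg S y)

theorem LT.perp' {T T' : K × K × K → K × K × K} (hT : LT T T') {x y : K × K × K} (hx : x ∈ U K)
    (hy : y ∈ U K) : dot (T' x) (T' y) = 0 ↔ dot x y = 0 := by
  rw [← hT.perp _ (hT.mem' x hx) _ (hT.mem' y hy)]
  exact pm_dot (hT.right x hx) (hT.right y hy)

theorem lift_PT {T T' : K × K × K → K × K × K} (hT : LT T T') {a : K × K × K} (ha : a ∈ U K)
    {S : (K × K × K) →ₗ[K] (K × K × K)} (h1 : ∀ x y, dot (S x) (S y) = dot x y)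
    (h2 : ∀ x, S (S x) = x) (h3 : S (T a) = e3 ∨ S (T a) = -e3) :
    PT fun x => S (T (rot a (T' (S x)))) := by
  have hS : ∀ x ∈ U K, S x ∈ U K := fun x hx => by rw [mem_U, h1]; exact mem_U.1 hx
  have hR : ∀ x ∈ U K, rot a x ∈ U K := fun x hx => (rot_mem_U ha).2 hx
  have hTa := hT.mem a ha
  -- `S e3 = ± T a`
  have h4 : S e3 = T a ∨ S e3 = -T a := by
    have h5 := pm_symm (pm_lin S h3)
    rwa [h2] at h5
  have h5 : T' (S e3) = a ∨ T' (S e3) = -a := pm_trans (hT.pmT' hTa h4) (hT.left a ha)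
  refine ⟨fun x hx => hS _ (hT.mem _ (hR _ (hT.mem' _ (hS x hx)))), fun x hx => ?_, fun x hx y hy => ?_, ?_,
    fun x hx hx0 => ?_⟩
  · have h6 : T' (S (-x)) = T' (S x) ∨ T' (S (-x)) = -T' (S x) := hT.pmT' (hS x hx) (Or.inr (map_neg S x))
    exact pm_lin S (hT.pmT (hR _ (hT.mem' _ (hS x hx))) (pm_rot a h6))
  · rw [h1, hT.perp _ (hR _ (hT.mem' _ (hS x hx))) _ (hR _ (hT.mem' _ (hS y hy))), dot_rot_rot (mem_U.1 ha),
      hT.perp' (hS x hx) (hS y hy), h1]
  · have h6 : rot a (T' (S e3)) = a ∨ rot a (T' (S e3)) = -a := by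
      have := pm_rot a h5
      rwa [rot_self (mem_U.1 ha)] at this
    exact pm_trans (pm_lin S (hT.pmT ha h6)) h3
  · have h6 : dot (S x) (T a) = 0 := by
      rw [← pm_dot (Or.inl rfl) h4, h1, dot_e3]; exact hx0
    have h7 : dot (T' (S x)) a = 0 := by
      rw [← pm_dot (Or.inl rfl) (hT.left a ha), hT.perp' (hS x hx) hTa]; exact h6
    have h8 : rot a (T' (S x)) = -T' (S x) := by
      rw [rot, dot_comm, h7]; simp
    have h9 : T (rot a (T' (S x))) = S x ∨ T (rot a (T' (S x))) = -S x :=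
      pm_trans (hT.pmT (hT.mem' _ (hS x hx)) (Or.inr h8)) (hT.right _ (hS x hx))
    have h10 := pm_lin S h9
    rwa [h2] at h10

omit [DecidableEq K] in
theorem exists_not_pm_rot (hq : Fintype.card K % 4 = 3) (h7 : 7 ≤ Fintype.card K) {a : K × K × K}
    (ha : dot a a = 1) : ∃ b : K × K × K, dot b b = 1 ∧ rot a b ≠ b ∧ rot a b ≠ -b := by
  classical
  have h2 : (2 : K) ≠ 0 := two_ne_zero' hq
  obtain ⟨c, hc⟩ : ∃ c : K, c ∉ ({0, 1, -1} : Finset K) := by
    by_contra hcon
    push Not at hcon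
    have h1 : Finset.univ ⊆ ({0, 1, -1} : Finset K) := fun c _ => hcon c
    have h3 := Finset.card_le_card h1
    rw [Finset.card_univ] at h3
    have h4 : ({0, 1, -1} : Finset K).card ≤ 3 := Finset.card_le_three
    omega
  simp only [Finset.mem_insert, Finset.mem_singleton, not_or] at hc
  obtain ⟨w1, w2, hw⟩ := exists_sum_sq hq (1 - c * c)
  obtain ⟨S, hS1, hS2, hS3, -⟩ := exists_refl h2 ha
  have hb : dot (S (w1, w2, c)) (S (w1, w2, c)) = 1 := by
    rw [hS1]
    simp only [dot]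
    linear_combination hw
  have hab : dot a (S (w1, w2, c)) = c ∨ dot a (S (w1, w2, c)) = -c := by
    have h3 : dot a (S (w1, w2, c)) = dot (S a) (w1, w2, c) := by
      rw [← hS1 a, hS2]
    rw [h3]
    rcases hS3 with h | h <;> rw [h]
    · left; rw [dot_comm, dot_e3]
    · right; rw [dot_neg_left, dot_comm, dot_e3]
  have hab2 : dot a (S (w1, w2, c)) * dot a (S (w1, w2, c)) = c * c := by
    rcases hab with h | h <;> rw [h] <;> ring
  refine ⟨S (w1, w2, c), hb, fun h => ?_, fun h => ?_⟩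
  · have h3 : dot (rot a (S (w1, w2, c))) (S (w1, w2, c)) = 1 := by rw [h]; exact hb
    have h4 : dot (rot a (S (w1, w2, c))) (S (w1, w2, c)) =
        2 * (dot a (S (w1, w2, c)) * dot a (S (w1, w2, c))) - dot (S (w1, w2, c)) (S (w1, w2, c)) := by
      rw [rot, sub_eq_add_neg, dot_add_left, dot_neg_left, dot_smul_left]; ring
    rw [h3, hab2, hb] at h4
    have h5 : (c - 1) * (c + 1) = 0 := by
      have : 2 * ((c - 1) * (c + 1)) = 0 := by linear_combination -h4
      exact (mul_eq_zero.1 this).resolve_left h2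
    rcases mul_eq_zero.1 h5 with h6 | h6
    · exact hc.2.1 (sub_eq_zero.1 h6)
    · exact hc.2.2 (eq_neg_of_add_eq_zero_left h6)
  · have h3 := dot_rot ha (S (w1, w2, c))
    rw [h, dot_neg_right] at h3
    have h4 : dot a (S (w1, w2, c)) = 0 := by
      have : 2 * dot a (S (w1, w2, c)) = 0 := by linear_combination -h3
      exact (mul_eq_zero.1 this).resolve_left h2
    rw [h4] at hab2
    have h5 : c * c = 0 := by rw [← hab2]; ring
    exact hc.1 (mul_self_eq_zero.1 h5)

theorem rot_of_core (hq : Fintype.card K % 4 = 3) (h7 : 7 ≤ Fintype.card K)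
    (hcore : ∀ P : K × K × K → K × K × K, PT P →
      (∀ x ∈ U K, P x = x ∨ P x = -x) ∨ ∀ x ∈ U K, P x = rho x ∨ P x = -rho x)
    {T T' : K × K × K → K × K × K} (hT : LT T T') {a b : K × K × K} (ha : a ∈ U K)
    (hb : b ∈ U K) : T (rot a b) = rot (T a) (T b) ∨ T (rot a b) = -rot (T a) (T b) := by
  have hTa := hT.mem a ha
  obtain ⟨S, h1, h2, h3, h4⟩ := exists_refl (two_ne_zero' hq) (mem_U.1 hTa)
  have hS : ∀ x ∈ U K, S x ∈ U K := fun x hx => by rw [mem_U, h1]; exact mem_U.1 hx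
  -- the value at `S (T b)`
  have hval : ∀ b ∈ U K, T (rot a (T' (S (S (T b))))) = T (rot a b) ∨
      T (rot a (T' (S (S (T b))))) = -T (rot a b) := by
    intro b hb
    rw [h2]
    exact hT.pmT ((rot_mem_U ha).2 hb) (pm_rot a (hT.left b hb))
  rcases hcore _ (lift_PT hT ha h1 h2 h3) with h | h
  · exfalso
    obtain ⟨b, hb, hb1, hb2⟩ := exists_not_pm_rot hq h7 (mem_U.1 ha)
    have hb' : b ∈ U K := mem_U.2 hb
    have h5 := h (S (T b)) (hS _ (hT.mem b hb'))
    have h6 : T (rot a (T' (S (S (T b))))) = T b ∨ T (rot a (T' (S (S (T b))))) = -T b := by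
      have := pm_lin S h5
      simpa only [h2] using this
    have h7' : T (rot a b) = T b ∨ T (rot a b) = -T b := pm_trans (pm_symm (hval b hb')) h6
    have h8 : T' (T (rot a b)) = b ∨ T' (T (rot a b)) = -b :=
      pm_trans (hT.pmT' (hT.mem b hb') h7') (hT.left b hb')
    have h9 : rot a b = b ∨ rot a b = -b :=
      pm_trans (pm_symm (hT.left _ ((rot_mem_U ha).2 hb'))) h8
    rcases h9 with h9 | h9
    · exact hb1 h9
    · exact hb2 h9
  · have h5 := h (S (T b)) (hS _ (hT.mem b hb))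
    rw [← h4] at h5
    have h6 : T (rot a (T' (S (S (T b))))) = rot (T a) (T b) ∨
        T (rot a (T' (S (S (T b))))) = -rot (T a) (T b) := by
      have := pm_lin S h5
      simpa only [h2] using this
    exact pm_trans (pm_symm (hval b hb)) h6

end Pool.Agent.Helper81.PS
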