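import Pool.Agent.Helper81.PS.Defs

/-!
# Block PS-MM: the matrices of trace zero as vectors

`s² + t² = -1`. All identities entry by entry; the product of the three matrices: by
`M x * M x = -(x·x)` and `M x * M y + M y * M x = -2 (x·y)`. Injectivity and surjectivity: the third
coordinate is half the difference of the off-diagonal entries, and `(x₁, x₂)` is obtained from
`s x₁ - t x₂` and `t x₁ + s x₂` (determinant `s² + t² = -1`). Proofs: helper77.
-/

set_option autoImplicit false

namespace Pool.Agent.Helper81.PS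

variable {K : Type*} [Field K]

/-- The matrix of trace zero of a vector. -/
def Mm (s t : K) (x : K × K × K) : Matrix (Fin 2) (Fin 2) K :=
  !![s * x.1 - t * x.2.1, t * x.1 + s * x.2.1 - x.2.2;
    t * x.1 + s * x.2.1 + x.2.2, -(s * x.1 - t * x.2.1)]

theorem Mm_det {s t : K} (h : s * s + t * t = -1) (x : K × K × K) :
    (Mm s t x).det = dot x x := by
  simp only [Mm, Matrix.det_fin_two_of, dot]
  linear_combination (-(x.1 * x.1) - x.2.1 * x.2.1) * h

theorem Mm_trace (s t : K) (x : K × K × K) : Mm s t x 0 0 + Mm s t x 1 1 = 0 := by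
  simp [Mm]

theorem Mm_mul_trace {s t : K} (h : s * s + t * t = -1) (x y : K × K × K) :
    (Mm s t x * Mm s t y) 0 0 + (Mm s t x * Mm s t y) 1 1 = -(2 * dot x y) := by
  simp only [Mm, dot, Matrix.mul_apply, Fin.sum_univ_two, Matrix.of_apply, Matrix.cons_val',
    Matrix.cons_val_zero, Matrix.cons_val_one, Matrix.cons_val_fin_one]
  linear_combination (2 * (x.1 * y.1) + 2 * (x.2.1 * y.2.1)) * h

private theorem Mm_sq77 {s t : K} (h : s * s + t * t = -1) (x : K × K × K) :
    Mm s t x * Mm s t x = -(dot x x • (1 : Matrix (Fin 2) (Fin 2) K)) := by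
  ext i j
  fin_cases i <;> fin_cases j <;>
    simp [Mm, dot, Matrix.mul_apply, Fin.sum_univ_two]
  · linear_combination (x.1 * x.1 + x.2.1 * x.2.1) * h
  · ring
  · ring
  · linear_combination (x.1 * x.1 + x.2.1 * x.2.1) * h

private theorem Mm_comm77 {s t : K} (h : s * s + t * t = -1) (x y : K × K × K) :
    Mm s t x * Mm s t y = -((2 * dot x y) • (1 : Matrix (Fin 2) (Fin 2) K)) - Mm s t y * Mm s t x := by
  ext i j
  fin_cases i <;> fin_cases j <;>
    simp [Mm, dot, Matrix.mul_apply, Fin.sum_univ_two]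
  · linear_combination (2 * (x.1 * y.1) + 2 * (x.2.1 * y.2.1)) * h
  · ring
  · ring
  · linear_combination (2 * (x.1 * y.1) + 2 * (x.2.1 * y.2.1)) * h

private theorem Mm_lin77 (s t a b : K) (x y : K × K × K) :
    Mm s t (a • y - b • x) = a • Mm s t y - b • Mm s t x := by
  ext i j
  fin_cases i <;> fin_cases j <;> simp [Mm] <;> ring

theorem Mm_mul_mul {s t : K} (h : s * s + t * t = -1) (x y : K × K × K) :
    Mm s t x * Mm s t y * Mm s t x = Mm s t (dot x x • y - (2 * dot x y) • x) := by
  rw [Mm_comm77 h x y, Mm_lin77, sub_mul, Matrix.mul_assoc, Mm_sq77 h x]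
  simp only [neg_mul, Matrix.smul_mul, one_mul, Matrix.mul_neg, Matrix.mul_smul, mul_one]
  abel

theorem Mm_neg (s t : K) (x : K × K × K) : Mm s t (-x) = -Mm s t x := by
  ext i j
  fin_cases i <;> fin_cases j <;> simp [Mm] <;> ring

theorem Mm_inj (h2 : (2 : K) ≠ 0) {s t : K} (h : s * s + t * t = -1) {x y : K × K × K}
    (hxy : Mm s t x = Mm s t y) : x = y := by
  obtain ⟨x1, x2, x3⟩ := x
  obtain ⟨y1, y2, y3⟩ := y
  have e1 := congrFun (congrFun hxy 0) 0
  have e2 := congrFun (congrFun hxy 0) 1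
  have e3 := congrFun (congrFun hxy 1) 0
  simp only [Mm, Matrix.of_apply, Matrix.cons_val', Matrix.cons_val_zero, Matrix.cons_val_one,
    Matrix.cons_val_fin_one] at e1 e2 e3
  have h3 : x3 = y3 := mul_left_cancel₀ h2 (by linear_combination e3 - e2)
  have e4 : t * x1 + s * x2 = t * y1 + s * y2 := by linear_combination e2 + h3
  have h1 : x1 = y1 := by linear_combination (x1 - y1) * h - s * e1 - t * e4
  have h2' : x2 = y2 := by linear_combination (x2 - y2) * h + t * e1 - s * e4
  rw [h1, h2', h3]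

theorem Mm_surj (h2 : (2 : K) ≠ 0) {s t : K} (h : s * s + t * t = -1)
    (A : Matrix (Fin 2) (Fin 2) K) (hA : A 0 0 + A 1 1 = 0) : ∃ x, Mm s t x = A := by
  set a := A 0 0 with ha
  set b := (A 0 1 + A 1 0) / 2 with hb
  set c := (A 1 0 - A 0 1) / 2 with hc
  have hb' : 2 * b = A 0 1 + A 1 0 := by rw [hb]; field_simp
  have hc' : 2 * c = A 1 0 - A 0 1 := by rw [hc]; field_simp
  refine ⟨(-(s * a + t * b), t * a - s * b, c), ?_⟩
  ext i j
  fin_cases i <;> fin_cases j <;>
    simp only [Mm, Matrix.of_apply, Matrix.cons_val', Matrix.cons_val_zero, Matrix.cons_val_one,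
      Matrix.cons_val_fin_one, Fin.zero_eta, Fin.mk_one, Fin.isValue]
  · linear_combination (-a) * h
  · apply mul_left_cancel₀ h2
    linear_combination (-(2 * b)) * h + hb' - hc'
  · apply mul_left_cancel₀ h2
    linear_combination (-(2 * b)) * h + hb' + hc'
  · linear_combination a * h - hA

end Pool.Agent.Helper81.PS
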