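import Pool.Agent.Helper45.BP.Psl

/-!
The normaliser of the centraliser modulo the centre, in `SL_2(F)`, `|F| ≥ 6`.
-/

set_option autoImplicit false

namespace Pool.Agent.Helper81.PS

open Matrix Pool.Agent.Helper45.BP

variable {F : Type} [Field F]

theorem comm_span {S M : Matrix (Fin 2) (Fin 2) F} (hS : ∀ r : F, S ≠ r • (1 : Matrix (Fin 2) (Fin 2) F))
    (h : M * S = S * M) : ∃ l m : F, M = l • S + m • (1 : Matrix (Fin 2) (Fin 2) F) := by
  have e00 := congrFun (congrFun h 0) 0
  have e01 := congrFun (congrFun h 0) 1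
  have e10 := congrFun (congrFun h 1) 0
  simp only [Matrix.mul_apply, Fin.sum_univ_two] at e00 e01 e10
  by_cases hb : S 0 1 = 0
  · by_cases hc : S 1 0 = 0
    · have hd : S 0 0 - S 1 1 ≠ 0 := by
        intro h0
        apply hS (S 0 0)
        ext i j
        fin_cases i <;> fin_cases j <;> simp [hb, hc, sub_eq_zero.1 h0]
      have q0 : M 0 1 = 0 := by
        have : M 0 1 * (S 0 0 - S 1 1) = 0 := by
          rw [hb] at e01
          linear_combination -e01
        exact (mul_eq_zero.1 this).resolve_right hd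
      have r0 : M 1 0 = 0 := by
        have : M 1 0 * (S 0 0 - S 1 1) = 0 := by
          rw [hc] at e10
          linear_combination e10
        exact (mul_eq_zero.1 this).resolve_right hd
      refine ⟨(M 0 0 - M 1 1) / (S 0 0 - S 1 1), M 0 0 - (M 0 0 - M 1 1) / (S 0 0 - S 1 1) * S 0 0, ?_⟩
      ext i j
      fin_cases i <;> fin_cases j
      · simp
      · simp [hb, q0]
      · simp [hc, r0]
      · simp
        field_simp
        ring
    · refine ⟨M 1 0 / S 1 0, M 0 0 - M 1 0 / S 1 0 * S 0 0, ?_⟩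
      ext i j
      fin_cases i <;> fin_cases j
      · simp
      · simp
        field_simp
        rw [hb]
        rw [hb] at e00
        linear_combination e00
      · simp
        field_simp
      · simp
        field_simp
        linear_combination e10
  · refine ⟨M 0 1 / S 0 1, M 0 0 - M 0 1 / S 0 1 * S 0 0, ?_⟩
    ext i j
    fin_cases i <;> fin_cases j
    · simp
    · simp
      field_simp
    · simp
      field_simp
      linear_combination -e00
    · simp
      field_simp
      linear_combination -e01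

theorem not_scalar {s : SL2 F} (hs : s ∉ Subgroup.center (SL2 F)) (r : F) :
    (s : Matrix (Fin 2) (Fin 2) F) ≠ r • (1 : Matrix (Fin 2) (Fin 2) F) := by
  intro h
  apply hs
  rw [Matrix.SpecialLinearGroup.mem_center_iff]
  refine ⟨r, ?_, ?_⟩
  · have h1 := s.2
    rw [show (s.1 : Matrix (Fin 2) (Fin 2) F) = r • 1 from h, Matrix.det_smul, Matrix.det_one, mul_one] at h1
    exact h1
  · rw [h]
    ext i j
    simp [Matrix.scalar_apply, Matrix.diagonal, Matrix.one_apply, Matrix.smul_apply]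

/-- an element of the centre is `1` or `-1` -/
theorem center_cases {z : SL2 F} (hz : z ∈ Subgroup.center (SL2 F)) :
    (z : Matrix (Fin 2) (Fin 2) F) = 1 ∨ (z : Matrix (Fin 2) (Fin 2) F) = -1 := by
  obtain ⟨r, h1, h2⟩ := Matrix.SpecialLinearGroup.mem_center_iff.1 hz
  rw [Fintype.card_fin] at h1
  have h3 : (r - 1) * (r + 1) = 0 := by linear_combination h1
  have h4 : r = 1 ∨ r = -1 := by
    rcases mul_eq_zero.1 h3 with h | h
    · exact Or.inl (sub_eq_zero.1 h)
    · exact Or.inr (eq_neg_of_add_eq_zero_left h)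
  rcases h4 with h | h
  · left
    rw [← h2, h]
    ext i j
    simp [Matrix.scalar_apply, Matrix.diagonal, Matrix.one_apply]
  · right
    rw [← h2, h]
    ext i j
    simp only [Matrix.scalar_apply, Matrix.diagonal, Matrix.one_apply, Matrix.neg_apply, Matrix.of_apply]
    split_ifs <;> simp

theorem exists_ab [Finite F] (hF : 6 ≤ Nat.card F) (h2 : (2 : F) ≠ 0) :
    ∃ a b : F, a ≠ 0 ∧ b ≠ 0 ∧ a ^ 2 + b ^ 2 = 1 := by
  classical
  have := Fintype.ofFinite F
  obtain ⟨t, ht⟩ : ∃ t : F, t ^ 5 - t ≠ 0 := by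
    by_contra hcon
    push Not at hcon
    let P : Polynomial F := Polynomial.X ^ 5 - Polynomial.X
    have hP : P.natDegree = 5 := by
      simp only [P]
      compute_degree!
    have hP0 : P ≠ 0 := by
      intro h
      rw [h] at hP
      simp at hP
    have h1 : (Finset.univ : Finset F) ⊆ P.roots.toFinset := by
      intro t _
      rw [Multiset.mem_toFinset, Polynomial.mem_roots hP0]
      simp only [P, Polynomial.IsRoot, Polynomial.eval_sub, Polynomial.eval_pow, Polynomial.eval_X]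
      exact hcon t
    have h2 := Finset.card_le_card h1
    have h3 := (Multiset.toFinset_card_le P.roots).trans (Polynomial.card_roots' P)
    rw [Finset.card_univ, ← Nat.card_eq_fintype_card] at h2
    omega
  have h0 : t ≠ 0 := by
    rintro rfl
    simp at ht
  have h1 : 1 - t ^ 2 ≠ 0 := by
    intro h
    apply ht
    linear_combination (-t - t ^ 3) * h
  have h3 : 1 + t ^ 2 ≠ 0 := by
    intro h
    apply ht
    linear_combination (-t + t ^ 3) * h
  refine ⟨(1 - t ^ 2) / (1 + t ^ 2), 2 * t / (1 + t ^ 2), div_ne_zero h1 h3, div_ne_zero (mul_ne_zero h2 h0) h3, ?_⟩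
  field_simp
  ring

theorem norm_le [Finite F] (hF : 6 ≤ Nat.card F) {s : SL2 F} (hs : s ∉ Subgroup.center (SL2 F))
    {g : SL2 F} (hg : g ∈ Subgroup.normalizer (CZ s : Set (SL2 F))) :
    ∃ l m : F, ((g * s * g⁻¹ : SL2 F) : Matrix (Fin 2) (Fin 2) F) =
      l • (s : Matrix (Fin 2) (Fin 2) F) + m • (1 : Matrix (Fin 2) (Fin 2) F) := by
  have hmem : ∀ x : SL2 F, x ∈ CZ s → g * x * g⁻¹ ∈ CZ s := fun x hx =>
    (Subgroup.mem_normalizer_iff.1 hg x).1 hx
  have hcz : ∀ x : SL2 F, x ∈ CZ s → (x : Matrix (Fin 2) (Fin 2) F) * s = s * x ∨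
      (x : Matrix (Fin 2) (Fin 2) F) * s = -(s * x : Matrix (Fin 2) (Fin 2) F) := by
    intro x hx
    have hx' : x * s * x⁻¹ * s⁻¹ ∈ Subgroup.center (SL2 F) := hx
    have h1 : x * s = (x * s * x⁻¹ * s⁻¹) * (s * x) := by group
    have h2 : (x : Matrix (Fin 2) (Fin 2) F) * s = ((x * s * x⁻¹ * s⁻¹ : SL2 F) : Matrix (Fin 2) (Fin 2) F) * (s * x) := by
      rw [← Matrix.SpecialLinearGroup.coe_mul, ← Matrix.SpecialLinearGroup.coe_mul, ← Matrix.SpecialLinearGroup.coe_mul, ← h1]
    rcases center_cases hx' with h | h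
    · left
      rw [h2, h, one_mul]
    · right
      rw [h2, h, neg_mul, one_mul]
  have hss : s ∈ CZ s := by
    show s * s * s⁻¹ * s⁻¹ ∈ Subgroup.center (SL2 F)
    rw [mul_inv_cancel_right, mul_inv_cancel]
    exact one_mem _
  have hu := hcz _ (hmem s hss)
  obtain ⟨u, hud⟩ : ∃ u : SL2 F, u = g * s * g⁻¹ := ⟨_, rfl⟩
  rw [← hud] at hu ⊢
  have hS := not_scalar hs
  rcases hu with hu | hu
  · exact comm_span hS hu
  by_cases h2 : (2 : F) = 0
  · have hneg : ∀ M : Matrix (Fin 2) (Fin 2) F, -M = M := by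
      intro M
      ext i j
      rw [Matrix.neg_apply]
      linear_combination -(M i j) * h2
    rw [hneg] at hu
    exact comm_span hS hu
  exfalso
  obtain ⟨a, b, ha, hb, hab⟩ := exists_ab hF h2
  -- the trace of `s` is zero
  have htr : (s : Matrix (Fin 2) (Fin 2) F) 0 0 + (s : Matrix (Fin 2) (Fin 2) F) 1 1 = 0 := by
    have h1 : u * s * u⁻¹ * s = u * s * u⁻¹ * s := rfl
    have h3 : ((u * s * u⁻¹ : SL2 F) : Matrix (Fin 2) (Fin 2) F) = -(s : Matrix (Fin 2) (Fin 2) F) := by
      rw [Matrix.SpecialLinearGroup.coe_mul, Matrix.SpecialLinearGroup.coe_mul, hu, neg_mul, mul_assoc,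
        ← Matrix.SpecialLinearGroup.coe_mul, mul_inv_cancel, Matrix.SpecialLinearGroup.coe_one, mul_one]
    have h4 : Matrix.trace ((u * s * u⁻¹ : SL2 F) : Matrix (Fin 2) (Fin 2) F) = Matrix.trace (s : Matrix (Fin 2) (Fin 2) F) := by
      rw [Matrix.SpecialLinearGroup.coe_mul, Matrix.trace_mul_comm, ← Matrix.SpecialLinearGroup.coe_mul, inv_mul_cancel_left]
    rw [h3, Matrix.trace_neg, Matrix.trace_fin_two] at h4
    have h5 : 2 * ((s : Matrix (Fin 2) (Fin 2) F) 0 0 + (s : Matrix (Fin 2) (Fin 2) F) 1 1) = 0 := by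
      linear_combination -h4
    exact (mul_eq_zero.1 h5).resolve_left h2
  have hdet : (s : Matrix (Fin 2) (Fin 2) F) 0 0 * (s : Matrix (Fin 2) (Fin 2) F) 1 1 -
      (s : Matrix (Fin 2) (Fin 2) F) 0 1 * (s : Matrix (Fin 2) (Fin 2) F) 1 0 = 1 := by
    rw [← Matrix.det_fin_two]
    exact s.2
  have hedet : Matrix.det (a • (1 : Matrix (Fin 2) (Fin 2) F) + b • (s : Matrix (Fin 2) (Fin 2) F)) = 1 := by
    rw [Matrix.det_fin_two]
    simp
    linear_combination hab + (b ^ 2) * hdet + a * b * htr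
  let e : SL2 F := ⟨a • (1 : Matrix (Fin 2) (Fin 2) F) + b • (s : Matrix (Fin 2) (Fin 2) F), hedet⟩
  have hev : (e : Matrix (Fin 2) (Fin 2) F) = a • (1 : Matrix (Fin 2) (Fin 2) F) + b • (s : Matrix (Fin 2) (Fin 2) F) := rfl
  have hes : e ∈ CZ s := by
    show e * s * e⁻¹ * s⁻¹ ∈ Subgroup.center (SL2 F)
    have h1 : e * s = s * e := by
      apply Subtype.ext
      rw [Matrix.SpecialLinearGroup.coe_mul, Matrix.SpecialLinearGroup.coe_mul, hev, add_mul, mul_add,
        smul_mul_assoc, smul_mul_assoc, mul_smul_comm, mul_smul_comm, one_mul, mul_one]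
    rw [h1, mul_inv_cancel_right, mul_inv_cancel]
    exact one_mem _
  have hf := hcz _ (hmem e hes)
  have hfv : ((g * e * g⁻¹ : SL2 F) : Matrix (Fin 2) (Fin 2) F) = a • (1 : Matrix (Fin 2) (Fin 2) F) + b • (u : Matrix (Fin 2) (Fin 2) F) := by
    have h1 : (g : Matrix (Fin 2) (Fin 2) F) * ((g⁻¹ : SL2 F) : Matrix (Fin 2) (Fin 2) F) = 1 := by
      rw [← Matrix.SpecialLinearGroup.coe_mul, mul_inv_cancel, Matrix.SpecialLinearGroup.coe_one]
    rw [hud, Matrix.SpecialLinearGroup.coe_mul, Matrix.SpecialLinearGroup.coe_mul, hev, Matrix.SpecialLinearGroup.coe_mul,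
      Matrix.SpecialLinearGroup.coe_mul, mul_add, add_mul, mul_smul_comm, smul_mul_assoc, mul_one, h1, mul_smul_comm,
      smul_mul_assoc]
  rw [hfv] at hf
  -- `us = -su`
  have hsu0 : ∀ c : F, c • ((s : Matrix (Fin 2) (Fin 2) F) * u) = 0 → c = 0 := by
    intro c h
    by_contra hc
    have h1 : (s : Matrix (Fin 2) (Fin 2) F) * u = 0 := (smul_eq_zero.1 h).resolve_left hc
    have h3 : Matrix.det ((s : Matrix (Fin 2) (Fin 2) F) * (u : Matrix (Fin 2) (Fin 2) F)) = 1 := by
      rw [Matrix.det_mul, s.2, u.2, one_mul]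
    rw [h1, Matrix.det_zero] at h3
    exact zero_ne_one h3
  have hs0 : ∀ c : F, c • (s : Matrix (Fin 2) (Fin 2) F) = 0 → c = 0 := by
    intro c h
    by_contra hc
    have h1 : (s : Matrix (Fin 2) (Fin 2) F) = 0 := (smul_eq_zero.1 h).resolve_left hc
    have h3 : Matrix.det (s : Matrix (Fin 2) (Fin 2) F) = 1 := s.2
    rw [h1, Matrix.det_zero] at h3
    exact zero_ne_one h3
  rcases hf with hf | hf
  · rw [add_mul, mul_add, smul_mul_assoc, smul_mul_assoc, mul_smul_comm, mul_smul_comm, one_mul, mul_one, hu] at hf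
    have h1 : (2 * b) • ((s : Matrix (Fin 2) (Fin 2) F) * u) = 0 := by
      have h3 := add_left_cancel hf
      rw [smul_neg] at h3
      rw [two_mul, add_smul]
      nth_rewrite 1 [← h3]
      exact neg_add_cancel _
    have h4 := hsu0 _ h1
    exact (mul_ne_zero h2 hb) h4
  · rw [add_mul, mul_add, smul_mul_assoc, smul_mul_assoc, mul_smul_comm, mul_smul_comm, one_mul, mul_one, hu,
      neg_add, smul_neg] at hf
    have h3 := add_right_cancel hf
    have h1 : (2 * a) • (s : Matrix (Fin 2) (Fin 2) F) = 0 := by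
      rw [two_mul, add_smul]
      nth_rewrite 1 [h3]
      exact neg_add_cancel _
    have h4 := hs0 _ h1
    exact (mul_ne_zero h2 ha) h4

end Pool.Agent.Helper81.PS
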