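import Pool.Agent.Helper81.PS.Grp

/-!
# Block PS-OP: elements of order `p` in `PSL(2, K)`, `K` of characteristic `p > 2`

If `tr A = 2 e` with `e = 1` or `e = -1`, then `(A - e)² = A² - 2 e A + 1 = 0` (`cayley`), so
`A^p - e^p = (A - e)^p = 0` (`sub_pow_char_of_commute`, matrices over `K` have characteristic `p`) and
`e^p = e`, hence `(pr A)^p = 1` and the order is `p` if `pr A ≠ 1` (`orderOf_eq_prime`). Conversely
`(pr A)^p = 1` says `A^p = e`, so `(A - e)^p = 0`, and the trace of a nilpotent matrix is nilpotent: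
`tr A = 2 e`.
-/

set_option autoImplicit false

namespace Pool.Agent.Helper81.PS

variable {K : Type*} [Field K]

theorem order_char_iff {p : ℕ} [Fact p.Prime] [CharP K p] (hp : p ≠ 2)
    (A : Matrix.SpecialLinearGroup (Fin 2) K) :
    orderOf (pr K A) = p ↔ pr K A ≠ 1 ∧ (tr A = 2 ∨ tr A = -2) := by
  have hpp : p.Prime := Fact.out
  have hodd : Odd p := hpp.odd_of_ne_two hp
  have hsub : ∀ e : K, (A.1 - e • (1 : Matrix (Fin 2) (Fin 2) K)) ^ p =
      A.1 ^ p - (e ^ p) • (1 : Matrix (Fin 2) (Fin 2) K) := by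
    intro e
    have hc : Commute A.1 (e • (1 : Matrix (Fin 2) (Fin 2) K)) := (Commute.one_right A.1).smul_right e
    rw [sub_pow_char_of_commute p hc, smul_pow, one_pow]
  constructor
  · intro h
    have hne : pr K A ≠ 1 := by
      intro h1
      rw [h1, orderOf_one] at h
      exact hpp.one_lt.ne h
    refine ⟨hne, ?_⟩
    have h1 : pr K A ^ p = 1 := by
      rw [← h]
      exact pow_orderOf_eq_one _
    have h2 : pr K (A ^ p) = pr K 1 := by rw [map_pow, h1, map_one]
    have key : ∀ e : K, e ^ p = e → A.1 ^ p = e • (1 : Matrix (Fin 2) (Fin 2) K) → tr A = 2 * e := by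
      intro e he hA
      have h3 := hsub e
      rw [he, hA, sub_self] at h3
      have h4 : IsNilpotent (A.1 - e • (1 : Matrix (Fin 2) (Fin 2) K)) := ⟨p, h3⟩
      have h5 := (Matrix.isNilpotent_trace_of_isNilpotent h4).eq_zero
      have h6 : (A.1 - e • (1 : Matrix (Fin 2) (Fin 2) K)).trace = tr A - 2 * e := by
        rw [Matrix.trace_fin_two]
        simp [tr]
        ring
      rw [h6] at h5
      exact sub_eq_zero.1 h5
    rcases (pr_eq_iff (A ^ p) 1).1 h2 with h3 | h3
    · left
      have h4 : A.1 ^ p = (1 : K) • (1 : Matrix (Fin 2) (Fin 2) K) := by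
        rw [one_smul, ← Matrix.SpecialLinearGroup.coe_pow]
        exact h3
      rw [key 1 (one_pow p) h4, mul_one]
    · right
      have h4 : A.1 ^ p = (-1 : K) • (1 : Matrix (Fin 2) (Fin 2) K) := by
        rw [neg_one_smul, ← Matrix.SpecialLinearGroup.coe_pow]
        exact h3
      rw [key (-1) hodd.neg_one_pow h4]
      ring
  · rintro ⟨hne, ht⟩
    have key : ∀ e : K, e * e = 1 → e ^ p = e → tr A = 2 * e →
        A.1 ^ p = e • (1 : Matrix (Fin 2) (Fin 2) K) := by
      intro e he2 he htr
      have h1 : (A.1 - e • (1 : Matrix (Fin 2) (Fin 2) K)) ^ 2 = 0 := by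
        have hc := cayley A
        rw [pow_two, sub_mul, mul_sub, mul_sub, hc, htr]
        simp only [smul_mul_assoc, mul_smul_comm, one_mul, mul_one, smul_smul, he2]
        module
      have h2 : (A.1 - e • (1 : Matrix (Fin 2) (Fin 2) K)) ^ p = 0 :=
        pow_eq_zero_of_le hpp.two_le h1
      rw [hsub e, he] at h2
      exact sub_eq_zero.1 h2
    apply orderOf_eq_prime _ hne
    rw [← map_pow, ← map_one (pr K)]
    rw [pr_eq_iff]
    rcases ht with ht | ht
    · left
      have := key 1 (mul_one 1) (one_pow p) (by rw [ht, mul_one])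
      rw [one_smul, ← Matrix.SpecialLinearGroup.coe_pow] at this
      exact this
    · right
      have := key (-1) (by ring) hodd.neg_one_pow (by rw [ht]; ring)
      rw [neg_one_smul, ← Matrix.SpecialLinearGroup.coe_pow] at this
      exact this

end Pool.Agent.Helper81.PS
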