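import Pool.Agent.Helper81.PS.Circ

/-!
# Block PS-PE: the plane orthogonal to a unit vector

For `x ∈ U K` one of `u = x - e3`, `u = x + e3` has `dot u u ≠ 0` (the sum of the two norms is `4`), and
the reflection `R y = y - (2 dot u y / dot u u) u` is an involution which preserves `dot` and maps
`x` to `± e3` (`field_simp; ring`). Hence `R` gives a bijection between the vectors of norm `c`
orthogonal to `x` and those orthogonal to `e3`, that is the `(a, b, 0)` with `a² + b² = c`:
`card_circle`, `sum_sq_eq_zero`.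
-/

set_option autoImplicit false

namespace Pool.Agent.Helper81.PS

variable {K : Type*} [Field K] [Fintype K] [DecidableEq K]

/-- The reflection in `u`, where `d` is meant to be `dot u u`. -/
private def refl50 (u : K × K × K) (d : K) (y : K × K × K) : K × K × K :=
  y - (2 * dot u y / d) • u

omit [Fintype K] [DecidableEq K] in
private theorem dot_refl50 {u : K × K × K} {d : K} (hd : d ≠ 0) (hu : dot u u = d)
    (y : K × K × K) : dot (refl50 u d y) (refl50 u d y) = dot y y := by
  have h1 : dot (refl50 u d y) (refl50 u d y) =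
      dot y y - (2 * dot u y / d) * (2 * dot u y) + (2 * dot u y / d) ^ 2 * dot u u := by
    simp only [refl50, dot, Prod.smul_fst, Prod.smul_snd, Prod.fst_sub, Prod.snd_sub, smul_eq_mul]
    ring
  rw [h1, hu]
  field_simp
  ring

omit [Fintype K] [DecidableEq K] in
private theorem refl_refl50 {u : K × K × K} {d : K} (hd : d ≠ 0) (hu : dot u u = d)
    (y : K × K × K) : refl50 u d (refl50 u d y) = y := by
  have h1 : dot u (refl50 u d y) = dot u y - (2 * dot u y / d) * dot u u := by
    simp only [refl50, dot, Prod.smul_fst, Prod.smul_snd, Prod.fst_sub, Prod.snd_sub, smul_eq_mul]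
    ring
  have h2 : dot u (refl50 u d y) = -dot u y := by
    rw [h1, hu]
    field_simp
    ring
  rw [refl50, h2, refl50]
  have h3 : 2 * -dot u y / d = -(2 * dot u y / d) := by ring
  rw [h3]
  module

private theorem exists_refl50 (hq : Fintype.card K % 4 = 3) {x : K × K × K} (hx : x ∈ U K) :
    ∃ R : K × K × K → K × K × K, (∀ y, dot (R y) (R y) = dot y y) ∧ (∀ y, R (R y) = y) ∧
      (∀ y, dot x y = 0 ↔ (R y).2.2 = 0) ∧ R 0 = 0 := by
  have h2 : (2 : K) ≠ 0 := two_ne_zero' hq
  have hxx : dot x x = 1 := mem_U.1 hx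
  have key : ∃ s : K, s * s = 1 ∧ 1 - s * x.2.2 ≠ 0 := by
    by_contra hcon
    push Not at hcon
    have ha := hcon 1 (by ring)
    have hb := hcon (-1) (by ring)
    apply h2
    linear_combination ha + hb
  obtain ⟨s, hs, hne⟩ := key
  have hd : 2 * (1 - s * x.2.2) ≠ 0 := mul_ne_zero h2 hne
  have hu : dot (x - s • e3) (x - s • e3) = 2 * (1 - s * x.2.2) := by
    simp only [dot, e3, Prod.smul_fst, Prod.smul_snd, Prod.fst_sub, Prod.snd_sub, smul_eq_mul]
      at hxx ⊢
    linear_combination hxx + hs
  refine ⟨refl50 (x - s • e3) (2 * (1 - s * x.2.2)), dot_refl50 hd hu, refl_refl50 hd hu, ?_, ?_⟩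
  · intro y
    have h3 : (refl50 (x - s • e3) (2 * (1 - s * x.2.2)) y).2.2 = s * dot x y := by
      simp only [refl50, dot, e3, Prod.smul_fst, Prod.smul_snd, Prod.fst_sub, Prod.snd_sub,
        smul_eq_mul]
      field_simp
      linear_combination ((x.1 * y.1 + x.2.1 * y.2.1 + x.2.2 * y.2.2) * x.2.2 - y.2.2) * hs
    rw [h3]
    constructor
    · intro h
      rw [h, mul_zero]
    · intro h
      rcases mul_eq_zero.1 h with h | h
      · rw [h] at hs
        simp at hs
      · exact h
  · simp [refl50, dot]

private theorem card_perp50 (hq : Fintype.card K % 4 = 3) {x : K × K × K} (hx : x ∈ U K) {c : K}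
    (hc : c ≠ 0) : (Finset.univ.filter fun y : K × K × K => dot y y = c ∧ dot x y = 0).card =
      Fintype.card K + 1 := by
  obtain ⟨R, h1, h2, h3, h4⟩ := exists_refl50 hq hx
  rw [← card_circle hq hc]
  refine Finset.card_bij' (fun y _ => ((R y).1, (R y).2.1)) (fun z _ => R (z.1, z.2, 0)) ?_ ?_ ?_ ?_
  · intro y hy
    simp only [Finset.mem_filter, Finset.mem_univ, true_and] at hy ⊢
    have h5 := h1 y
    have h6 := (h3 y).1 hy.2
    rw [hy.1, dot, h6] at h5
    linear_combination h5
  · intro z hz
    simp only [Finset.mem_filter, Finset.mem_univ, true_and] at hz ⊢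
    constructor
    · rw [h1, dot]
      linear_combination hz
    · rw [h3, h2]
  · intro y hy
    simp only [Finset.mem_filter, Finset.mem_univ, true_and] at hy ⊢
    have h6 := (h3 y).1 hy.2
    have h7 : ((R y).1, (R y).2.1, (0 : K)) = R y := by
      rw [← h6]
    rw [h7, h2]
  · intro z hz
    simp only [h2]

theorem card_perp_U (hq : Fintype.card K % 4 = 3) {x : K × K × K} (hx : x ∈ U K) :
    ((U K).filter fun y => dot x y = 0).card = Fintype.card K + 1 := by
  rw [← card_perp50 hq hx one_ne_zero]
  congr 1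
  ext y
  simp [U]

theorem card_perp_N (hq : Fintype.card K % 4 = 3) {x : K × K × K} (hx : x ∈ U K) :
    ((N K).filter fun y => dot x y = 0).card = Fintype.card K + 1 := by
  rw [← card_perp50 hq hx (neg_ne_zero.2 one_ne_zero)]
  congr 1
  ext y
  simp [N]

theorem iso_perp (hq : Fintype.card K % 4 = 3) {x y : K × K × K} (hx : x ∈ U K)
    (hy : dot y y = 0) (h : dot x y = 0) : y = 0 := by
  obtain ⟨R, h1, h2, h3, h4⟩ := exists_refl50 hq hx
  have h5 := h1 y
  have h6 := (h3 y).1 h
  rw [hy, dot, h6] at h5
  have h7 := sum_sq_eq_zero hq (a := (R y).1) (b := (R y).2.1) (by linear_combination h5)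
  have h8 : R y = 0 := by
    ext
    · exact h7.1
    · exact h7.2
    · exact h6
  rw [← h2 y, h8, h4]

end Pool.Agent.Helper81.PS
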