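import Pool.Agent.Helper81.PS.Fin

/-!
# The coloured graph of the involutions of `PSL(2, q)`, `q` odd
-/

set_option autoImplicit false

namespace Pool.Agent.Helper81.PS.ProjectiveLineOld

/-- Let `K` be a finite field of odd order `q ≥ 5` and characteristic `p`, `L = PSL(2, K)` and `D` a
conjugacy class of involutions of `L`. Then `D` is the set of all involutions of `L`, and every
permutation `τ` of `D` which preserves
* the relation `|a b| = 2` if `q = 3 mod 4` and `q ≥ 27`,
* the relations `|a b| = 2` and `|a b| = 3` if `q = 3 mod 4` and `q < 27`,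
* the relations `|a b| = 2` and `|a b| = p` if `q = 1 mod 4`,
(in particular every `τ` which preserves the orders of all products of two different elements) is the
restriction of an automorphism of `L`, which maps `D` onto `D`. -/
theorem result {K : Type*} [Field K] [Finite K] (h2 : (2 : K) ≠ 0) (h4 : 4 ≤ Nat.card K)
    (D : Set (Matrix.ProjectiveSpecialLinearGroup (Fin 2) K))
    (hD : ∃ a₀ : Matrix.ProjectiveSpecialLinearGroup (Fin 2) K, orderOf a₀ = 2 ∧
      ∀ a, a ∈ D ↔ IsConj a₀ a) (τ : Equiv.Perm D)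
    (hτ2 : ∀ a b : D, a ≠ b →
      (orderOf ((τ a : Matrix.ProjectiveSpecialLinearGroup (Fin 2) K) * τ b) = 2 ↔
        orderOf ((a : Matrix.ProjectiveSpecialLinearGroup (Fin 2) K) * b) = 2))
    (hτ3 : Nat.card K % 4 = 3 → Nat.card K < 27 → ∀ a b : D, a ≠ b →
      (orderOf ((τ a : Matrix.ProjectiveSpecialLinearGroup (Fin 2) K) * τ b) = 3 ↔
        orderOf ((a : Matrix.ProjectiveSpecialLinearGroup (Fin 2) K) * b) = 3))
    (hτp : Nat.card K % 4 = 1 → ∀ a b : D, a ≠ b →
      (orderOf ((τ a : Matrix.ProjectiveSpecialLinearGroup (Fin 2) K) * τ b) = ringChar K ↔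
        orderOf ((a : Matrix.ProjectiveSpecialLinearGroup (Fin 2) K) * b) = ringChar K)) :
    (∀ a, a ∈ D ↔ orderOf a = 2) ∧
    ∃ φ : Matrix.ProjectiveSpecialLinearGroup (Fin 2) K ≃*
      Matrix.ProjectiveSpecialLinearGroup (Fin 2) K, φ '' D = D ∧
        ∀ a : D, φ (a : Matrix.ProjectiveSpecialLinearGroup (Fin 2) K) = τ a :=
  Pool.Agent.Helper81.PS.final h2 h4 D hD τ hτ2 hτ3 hτp

end Pool.Agent.Helper81.PS.ProjectiveLineOld
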