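import Pool.Agent.Helper81.PS.Pts
import Pool.Agent.Helper81.PS.OrdP

/-!
# Block PS-FQ: the product of two involutions has order `p` iff they share exactly one fixed point

Let `a`, `b` be involutions. If they share exactly one fixed point `K v` then `a b ≠ 1` and for
representatives `A`, `B` of trace zero `A v = e i v`, `B v = f i v` with `e, f = ± 1`, so `A B v = -e f v`; the
determinant is one, so `-e f` is the only eigenvalue of `A B` and `tr (A B) = -2 e f = ± 2`: order `p` by
`order_char_iff`. Conversely let `a b` have order `p`; `A B = ± u`, `(u - 1)² = 0`, `u ≠ 1`: `a b` has exactly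
one fixed point `R` (a matrix `u` with `(u - 1)² = 0`, `u ≠ 1` fixes exactly the kernel of `u - 1` and no
other line, since it has the only eigenvalue one). As `a (a b) a⁻¹ = b a = (a b)⁻¹` has the fixed points
of `a b`, `a` fixes `R`, and so does `b` (`b (a b) b⁻¹ = b a`). If they had two common fixed points they
would be equal (`fp_card`, `fp_inj`), but `a b ≠ 1`.
-/

set_option autoImplicit false
set_option linter.unusedSectionVars false

open scoped LinearAlgebra.Projectivization

namespace Pool.Agent.Helper81.PS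

variable {K : Type*} [Field K] [Fintype K] [DecidableEq K]

namespace PtP

theorem mem_fp_mk (A : Matrix.SpecialLinearGroup (Fin 2) K) (v : Fin 2 → K) (hv : v ≠ 0) :
    Projectivization.mk K v hv ∈ Fp (pr K A) ↔ ∃ c : K, A.1.mulVec v = c • v := by
  have h1 : pr K A • Projectivization.mk K v hv = A • Projectivization.mk K v hv :=
    Matrix.ProjectiveSpecialLinearGroup.smul_proj_mk A _
  simp only [Fp, Finset.mem_filter, Finset.mem_univ, true_and]
  rw [h1, Projectivization.smul_mk, Projectivization.mk_eq_mk_iff']
  constructor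
  · rintro ⟨c, hc⟩
    exact ⟨c, hc.symm⟩
  · rintro ⟨c, hc⟩
    exact ⟨c, hc.symm⟩

theorem mulVec_sq (A : Matrix.SpecialLinearGroup (Fin 2) K) (v : Fin 2 → K) :
    A.1.mulVec (A.1.mulVec v) = tr A • A.1.mulVec v - v := by
  rw [Matrix.mulVec_mulVec, cayley, Matrix.sub_mulVec, Matrix.smul_mulVec, Matrix.one_mulVec]

theorem eig (A : Matrix.SpecialLinearGroup (Fin 2) K) {v : Fin 2 → K} (hv : v ≠ 0) {c : K}
    (hc : A.1.mulVec v = c • v) : c * c = tr A * c - 1 := by
  have h := mulVec_sq A v
  rw [hc, Matrix.mulVec_smul, hc] at h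
  have h2 : (c * c - (tr A * c - 1)) • v = 0 := by
    have h3 : (c * c - (tr A * c - 1)) • v = c • c • v - (tr A • c • v - v) := by module
    rw [h3, h, sub_self]
  have := (smul_eq_zero.1 h2).resolve_right hv
  linear_combination this

theorem two_ne (hq : Fintype.card K % 4 = 1) : (2 : K) ≠ 0 := by
  intro h
  have hodd : Fintype.card K % 2 = 1 := by omega
  have h1 : ringChar K = 2 := by
    have hd : ringChar K ∣ 2 := (ringChar.spec K 2).1 (by exact_mod_cast h)
    rcases (Nat.dvd_prime Nat.prime_two).1 hd with h2 | h2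
    · exfalso
      have : ((1 : ℕ) : K) = 0 := (ringChar.spec K 1).2 (by rw [h2])
      simp at this
    · exact h2
  have h2 : Fintype.card K % 2 = 0 := FiniteField.even_card_of_char_two h1
  omega

theorem ne_two (hq : Fintype.card K % 4 = 1) {p : ℕ} [CharP K p] : p ≠ 2 := by
  rintro rfl
  apply two_ne hq
  have : ((2 : ℕ) : K) = 0 := CharP.cast_eq_zero K 2
  exact_mod_cast this

/-- A matrix with double eigenvalue `e` which is not a scalar has exactly one fixed point. -/
theorem fp_unique (U : Matrix.SpecialLinearGroup (Fin 2) K) {e : K} (he : e * e = 1)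
    (ht : tr U = 2 * e) (h1 : pr K U ≠ 1) : ∃ R, Fp (pr K U) = {R} := by
  have hne : U.1 ≠ e • (1 : Matrix (Fin 2) (Fin 2) K) := by
    intro h
    apply h1
    have : pr K U = pr K 1 := by
      rw [pr_eq_iff]
      have he' : e = 1 ∨ e = -1 := mul_self_eq_one_iff.1 he
      rcases he' with h' | h'
      · left; rw [h, h']; simp
      · right; rw [h, h']; simp
    rw [this, map_one]
  -- the nilpotent part
  obtain ⟨w, hw⟩ : ∃ w : Fin 2 → K, U.1.mulVec w - e • w ≠ 0 := by
    by_contra hcon
    push Not at hcon
    apply hne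
    apply Matrix.ext_of_mulVec_single
    intro i
    rw [Matrix.smul_mulVec, Matrix.one_mulVec]
    exact sub_eq_zero.1 (hcon _)
  set v := U.1.mulVec w - e • w with hvdef
  have hUv : U.1.mulVec v = e • v := by
    rw [hvdef, Matrix.mulVec_sub, Matrix.mulVec_smul, mulVec_sq, ht]
    have : w = (e * e) • w := by rw [he, one_smul]
    nth_rw 2 [this]
    module
  have key : ∀ x : Fin 2 → K, x ≠ 0 → ∀ c : K, U.1.mulVec x = c • x → c = e := by
    intro x hx c hc
    have h2 := eig U hx hc
    rw [ht] at h2
    have : (c - e) * (c - e) = 0 := by linear_combination h2 + he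
    have := mul_self_eq_zero.1 this
    linear_combination this
  refine ⟨Projectivization.mk K v hw, ?_⟩
  apply Finset.eq_singleton_iff_unique_mem.2
  refine ⟨(mem_fp_mk U v hw).2 ⟨e, hUv⟩, ?_⟩
  intro R hR
  induction R using Projectivization.ind with
  | _ x hx =>
    obtain ⟨c, hc⟩ := (mem_fp_mk U x hx).1 hR
    have hce := key x hx c hc
    subst hce
    by_contra hne2
    have hli : LinearIndependent K ![x, v] := by
      rw [LinearIndependent.pair_iff' hx]
      intro a ha
      apply hne2
      rw [Projectivization.mk_eq_mk_iff']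
      have ha0 : a ≠ 0 := by
        rintro rfl
        rw [zero_smul] at ha
        exact hw ha.symm
      exact ⟨a⁻¹, by rw [← ha, smul_smul, inv_mul_cancel₀ ha0, one_smul]⟩
    -- `U` is the scalar `c`
    have hspan : ∀ y : Fin 2 → K, ∃ s t : K, y = s • x + t • v := by
      intro y
      have hb := basisOfLinearIndependentOfCardEqFinrank hli (by simp)
      have htop : Submodule.span K (Set.range ![x, v]) = ⊤ :=
        hli.span_eq_top_of_card_eq_finrank (by simp)
      have hy : y ∈ Submodule.span K (Set.range ![x, v]) := by rw [htop]; trivial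
      rw [Matrix.range_cons, Matrix.range_cons, Matrix.range_empty, Set.union_empty,
        Set.singleton_union, Submodule.mem_span_pair] at hy
      obtain ⟨s, t, hst⟩ := hy
      exact ⟨s, t, hst.symm⟩
    obtain ⟨s, t, hst⟩ := hspan w
    apply hw
    rw [hvdef, hst, Matrix.mulVec_add, Matrix.mulVec_smul, Matrix.mulVec_smul, hc, hUv]
    module

end PtP

open PtP

theorem fp_ord (hq : Fintype.card K % 4 = 1) {p : ℕ} [Fact p.Prime] [CharP K p]
    {a b : Matrix.ProjectiveSpecialLinearGroup (Fin 2) K} (ha : orderOf a = 2)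
    (hb : orderOf b = 2) : orderOf (a * b) = p ↔ (Fp a ∩ Fp b).card = 1 := by
  have hp2 : p ≠ 2 := ne_two (K := K) hq
  obtain ⟨A, rfl⟩ := pr_surj a
  obtain ⟨B, rfl⟩ := pr_surj b
  have ha2 : pr K A * pr K A = 1 := by
    have h := pow_orderOf_eq_one (pr K A)
    rw [ha, sq] at h
    exact h
  have hb2 : pr K B * pr K B = 1 := by
    have h := pow_orderOf_eq_one (pr K B)
    rw [hb, sq] at h
    exact h
  have hainv : (pr K A)⁻¹ = pr K A := inv_eq_of_mul_eq_one_left ha2
  have hbinv : (pr K B)⁻¹ = pr K B := inv_eq_of_mul_eq_one_left hb2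
  rw [← map_mul, order_char_iff hp2]
  constructor
  · rintro ⟨h1, ht⟩
    obtain ⟨e, he, hte⟩ : ∃ e : K, e * e = 1 ∧ tr (A * B) = 2 * e := by
      rcases ht with h | h
      · exact ⟨1, by ring, by rw [h]; ring⟩
      · exact ⟨-1, by ring, by rw [h]; ring⟩
    obtain ⟨R, hR⟩ := fp_unique (A * B) he hte h1
    have hinvfix : ∀ S, S ∈ Fp ((pr K (A * B))⁻¹) → S = R := by
      intro S hS
      have : S ∈ Fp (pr K (A * B)) := by
        simp only [Fp, Finset.mem_filter, Finset.mem_univ, true_and] at hS ⊢
        rw [← hS, smul_inv_smul, hS]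
      rw [hR] at this
      exact Finset.mem_singleton.1 this
    have hRmem : R ∈ Fp (pr K (A * B)) := by rw [hR]; exact Finset.mem_singleton_self R
    have hinv : (pr K (A * B))⁻¹ = pr K B * pr K A := by
      rw [map_mul, mul_inv_rev, hainv, hbinv]
    have hRA : R ∈ Fp (pr K A) := by
      have h2 := (fp_conj (pr K A) (pr K (A * B)) R).2 hRmem
      have h3 : pr K A * pr K (A * B) * (pr K A)⁻¹ = (pr K (A * B))⁻¹ := by
        rw [hinv, map_mul, ← mul_assoc, ha2, one_mul, hainv]
      rw [h3] at h2
      have h4 := hinvfix _ h2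
      simp only [Fp, Finset.mem_filter, Finset.mem_univ, true_and]
      exact h4
    have hRB : R ∈ Fp (pr K B) := by
      have h2 := (fp_conj (pr K B) (pr K (A * B)) R).2 hRmem
      have h3 : pr K B * pr K (A * B) * (pr K B)⁻¹ = (pr K (A * B))⁻¹ := by
        rw [hinv, map_mul, hbinv, mul_assoc, mul_assoc, hb2, mul_one]
      rw [h3] at h2
      have h4 := hinvfix _ h2
      simp only [Fp, Finset.mem_filter, Finset.mem_univ, true_and]
      exact h4
    have hpos : 1 ≤ (Fp (pr K A) ∩ Fp (pr K B)).card :=
      Finset.card_pos.2 ⟨R, Finset.mem_inter.2 ⟨hRA, hRB⟩⟩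
    have hle : (Fp (pr K A) ∩ Fp (pr K B)).card ≤ 2 := by
      exact (Finset.card_le_card Finset.inter_subset_left).trans (fp_card hq ha).le
    by_contra hne
    have h2 : (Fp (pr K A) ∩ Fp (pr K B)).card = 2 := by omega
    have e1 : Fp (pr K A) ∩ Fp (pr K B) = Fp (pr K A) :=
      Finset.eq_of_subset_of_card_le Finset.inter_subset_left (by rw [h2, fp_card hq ha])
    have e2 : Fp (pr K A) ∩ Fp (pr K B) = Fp (pr K B) :=
      Finset.eq_of_subset_of_card_le Finset.inter_subset_right (by rw [h2, fp_card hq hb])
    have hab := fp_inj hq ha hb (e1.symm.trans e2)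
    apply h1
    rw [map_mul, ← hab, ha2]
  · intro hcard
    have hneab : pr K (A * B) ≠ 1 := by
      intro h
      rw [map_mul] at h
      have hab : pr K B = pr K A := by rw [← hainv]; exact (inv_eq_of_mul_eq_one_right h).symm
      rw [hab, Finset.inter_self, fp_card hq ha] at hcard
      omega
    refine ⟨hneab, ?_⟩
    obtain ⟨R, hR⟩ := Finset.card_eq_one.1 hcard
    have hRm : R ∈ Fp (pr K A) ∩ Fp (pr K B) := by rw [hR]; exact Finset.mem_singleton_self R
    rw [Finset.mem_inter] at hRm
    obtain ⟨hRA, hRB⟩ := hRm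
    induction R using Projectivization.ind with
    | _ v hv =>
      obtain ⟨c, hc⟩ := (mem_fp_mk A v hv).1 hRA
      obtain ⟨d, hd⟩ := (mem_fp_mk B v hv).1 hRB
      have h2 : (2 : K) ≠ 0 := two_ne hq
      have htA := (order_two_iff h2 A).1 ha
      have htB := (order_two_iff h2 B).1 hb
      have hcc := eig A hv hc
      have hdd := eig B hv hd
      rw [htA] at hcc
      rw [htB] at hdd
      have hcd : (A * B).1.mulVec v = (c * d) • v := by
        change (A.1 * B.1).mulVec v = _
        rw [← Matrix.mulVec_mulVec, hd, Matrix.mulVec_smul, hc, smul_smul, mul_comm]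
      have he := eig (A * B) hv hcd
      have hsq : (c * d) * (c * d) = 1 := by
        have : (c * d) * (c * d) = (c * c) * (d * d) := by ring
        rw [this, hcc, hdd]; ring
      rw [hsq] at he
      have hcd1 : c * d = 1 ∨ c * d = -1 := mul_self_eq_one_iff.1 hsq
      rcases hcd1 with h | h
      · left
        rw [h] at he
        linear_combination -he
      · right
        rw [h] at he
        linear_combination he

end Pool.Agent.Helper81.PS
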