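import Pool.Agent.Helper81.PS.Grp

/-!
# Block PS-FP: the fixed points of the involutions on the projective line, `q = 1 mod 4`

`Fp a`: the set of the fixed points of `a` on the projective line. Let `i² = -1`
(`FiniteField.isSquare_neg_one_iff`). If `orderOf a = 2` then `a = pr A`, `tr A = 0`, `A² = -1`
(`order_two_iff`, `cayley`). The vectors `v` with `A v = i v` and `w` with `A w = -i w` span the space
(`2 v = (v - i A v) + (v + i A v)`) and both spaces are different from `0` (`A` is not a scalar: `A = ± i`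
would have trace `± 2 i`). So `a` fixes exactly the two points `K v`, `K w` (`fp_card`).
`fp_surj`: for `P = K v`, `Q = K w` let `A` be the matrix with `A v = i v`, `A w = -i w`, determinant
`-i² = 1`, trace `0`. `fp_inj`: if `A`, `B` have determinant one and trace zero and the same two fixed
points `K v`, `K w`, then `A v = ± i v` and `A w = ∓ i w`, same for `B`, so `A = ± B`.
`fp_conj`: clear.
-/

set_option autoImplicit false

open scoped LinearAlgebra.Projectivization

namespace Pool.Agent.Helper81.PS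

variable {K : Type*} [Field K] [Fintype K] [DecidableEq K]

noncomputable instance instFintypePL : Fintype (ℙ K (Fin 2 → K)) := Fintype.ofFinite _

noncomputable instance instDecEqPL : DecidableEq (ℙ K (Fin 2 → K)) := Classical.decEq _

/-- The fixed points on the projective line. -/
noncomputable def Fp (a : Matrix.ProjectiveSpecialLinearGroup (Fin 2) K) :
    Finset (ℙ K (Fin 2 → K)) := Finset.univ.filter fun R => a • R = R

private def cr_h12 {K : Type*} [Field K] (u v : Fin 2 → K) : K := u 0 * v 1 - u 1 * v 0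

private theorem mk_eq_iff_h12 {K : Type*} [Field K] (u v : Fin 2 → K) (hu : u ≠ 0) (hv : v ≠ 0) :
    Projectivization.mk K u hu = Projectivization.mk K v hv ↔ cr_h12 u v = 0 := by
  rw [Projectivization.mk_eq_mk_iff']
  constructor
  · rintro ⟨a, rfl⟩
    simp only [cr_h12, Pi.smul_apply, smul_eq_mul]
    ring
  · intro h
    unfold cr_h12 at h
    have hv' : v 0 ≠ 0 ∨ v 1 ≠ 0 := by
      by_contra hc
      push Not at hc
      apply hv
      funext j
      fin_cases j
      · exact hc.1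
      · exact hc.2
    rcases hv' with h0 | h1
    · refine ⟨u 0 / v 0, ?_⟩
      funext j
      fin_cases j
      · simp [div_mul_cancel₀ _ h0]
      · simp only [Fin.mk_one, Pi.smul_apply, smul_eq_mul]
        rw [div_mul_eq_mul_div, div_eq_iff h0]
        linear_combination h
    · refine ⟨u 1 / v 1, ?_⟩
      funext j
      fin_cases j
      · simp only [Fin.zero_eta, Pi.smul_apply, smul_eq_mul]
        rw [div_mul_eq_mul_div, div_eq_iff h1]
        linear_combination -h
      · simp [div_mul_cancel₀ _ h1]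

private theorem cr_self_h12 {K : Type*} [Field K] (u : Fin 2 → K) : cr_h12 u u = 0 := by
  unfold cr_h12; ring

private theorem cr_comm_h12 {K : Type*} [Field K] (u v : Fin 2 → K) :
    cr_h12 u v = -cr_h12 v u := by
  unfold cr_h12; ring

private theorem ne_zero_of_cr_h12 {K : Type*} [Field K] {u v : Fin 2 → K} (h : cr_h12 u v ≠ 0) :
    u ≠ 0 ∧ v ≠ 0 := by
  constructor
  · rintro rfl
    exact h (by simp [cr_h12])
  · rintro rfl
    exact h (by simp [cr_h12])

private theorem mem_Fp_h12 (A : Matrix.SpecialLinearGroup (Fin 2) K) (u : Fin 2 → K)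
    (hu : u ≠ 0) : Projectivization.mk K u hu ∈ Fp (pr K A) ↔ cr_h12 (A.1.mulVec u) u = 0 := by
  have h1 : pr K A • Projectivization.mk K u hu = A • Projectivization.mk K u hu := rfl
  have h2 : A.1.mulVec u ≠ 0 := (smul_ne_zero_iff_ne A).mpr hu
  rw [← mk_eq_iff_h12 _ _ h2 hu]
  unfold Fp
  rw [Finset.mem_filter, h1]
  constructor
  · rintro ⟨-, h⟩
    exact h
  · intro h
    exact ⟨Finset.mem_univ _, h⟩

private def Fm_h12 {K : Type*} [Field K] (i : K) (v w : Fin 2 → K) : Matrix (Fin 2) (Fin 2) K :=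
  (i / cr_h12 v w) • !![v 0 * w 1 + v 1 * w 0, -(2 * v 0 * w 0);
    2 * v 1 * w 1, -(v 0 * w 1 + v 1 * w 0)]

private theorem Fm_det_h12 {K : Type*} [Field K] {i : K} (hi : i * i = -1) {v w : Fin 2 → K}
    (h : cr_h12 v w ≠ 0) : (Fm_h12 i v w).det = 1 := by
  rw [Fm_h12, Matrix.det_fin_two]
  simp only [Matrix.smul_apply, Matrix.of_apply, Matrix.cons_val', Matrix.cons_val_zero,
    Matrix.cons_val_one, Matrix.cons_val_fin_one, smul_eq_mul]
  have h1 : cr_h12 v w * cr_h12 v w = (v 0 * w 1 + v 1 * w 0) * (v 0 * w 1 + v 1 * w 0)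
      - 4 * (v 0 * w 0 * (v 1 * w 1)) := by unfold cr_h12; ring
  have h2 : i / cr_h12 v w * (i / cr_h12 v w) * (cr_h12 v w * cr_h12 v w) = -1 := by
    rw [← hi]; field_simp
  linear_combination -h2 + (i / cr_h12 v w * (i / cr_h12 v w)) * h1

private theorem Fm_tr_h12 {K : Type*} [Field K] (i : K) (v w : Fin 2 → K) :
    Fm_h12 i v w 0 0 + Fm_h12 i v w 1 1 = 0 := by
  simp only [Fm_h12, Matrix.smul_apply, Matrix.of_apply, Matrix.cons_val', Matrix.cons_val_zero,
    Matrix.cons_val_one, Matrix.cons_val_fin_one, smul_eq_mul]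
  ring

private theorem Fm_cr_h12 {K : Type*} [Field K] (i : K) (v w u : Fin 2 → K) :
    cr_h12 ((Fm_h12 i v w).mulVec u) u
      = -(2 * (i / cr_h12 v w)) * (cr_h12 u v * cr_h12 u w) := by
  have h0 : (Fm_h12 i v w).mulVec u 0 = (i / cr_h12 v w) * ((v 0 * w 1 + v 1 * w 0) * u 0
      - 2 * v 0 * w 0 * u 1) := by
    rw [Matrix.mulVec, dotProduct, Fin.sum_univ_two]
    simp only [Fm_h12, Matrix.smul_apply, Matrix.of_apply, Matrix.cons_val', Matrix.cons_val_zero,
      Matrix.cons_val_one, Matrix.cons_val_fin_one, smul_eq_mul]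
    ring
  have h1 : (Fm_h12 i v w).mulVec u 1 = (i / cr_h12 v w) * (2 * v 1 * w 1 * u 0
      - (v 0 * w 1 + v 1 * w 0) * u 1) := by
    rw [Matrix.mulVec, dotProduct, Fin.sum_univ_two]
    simp only [Fm_h12, Matrix.smul_apply, Matrix.of_apply, Matrix.cons_val', Matrix.cons_val_zero,
      Matrix.cons_val_one, Matrix.cons_val_fin_one, smul_eq_mul]
    ring
  generalize i / cr_h12 v w = c at *
  unfold cr_h12
  rw [h0, h1]
  ring

private theorem Fm_uniq_h12 {K : Type*} [Field K] {i : K} {v w : Fin 2 → K}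
    (h : cr_h12 v w ≠ 0) {A : Matrix (Fin 2) (Fin 2) K} (hv : A.mulVec v = i • v)
    (hw : A.mulVec w = (-i) • w) : A = Fm_h12 i v w := by
  have a0 := congrFun hv 0
  have a1 := congrFun hv 1
  have b0 := congrFun hw 0
  have b1 := congrFun hw 1
  simp only [Matrix.mulVec, dotProduct, Fin.sum_univ_two, Pi.smul_apply, smul_eq_mul] at a0 a1 b0 b1
  have e00 : A 0 0 * cr_h12 v w = i * (v 0 * w 1 + v 1 * w 0) := by
    unfold cr_h12
    linear_combination w 1 * a0 - v 1 * b0
  have e01 : A 0 1 * cr_h12 v w = i * (-(2 * v 0 * w 0)) := by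
    unfold cr_h12
    linear_combination -(w 0 * a0) + v 0 * b0
  have e10 : A 1 0 * cr_h12 v w = i * (2 * v 1 * w 1) := by
    unfold cr_h12
    linear_combination w 1 * a1 - v 1 * b1
  have e11 : A 1 1 * cr_h12 v w = i * (-(v 0 * w 1 + v 1 * w 0)) := by
    unfold cr_h12
    linear_combination -(w 0 * a1) + v 0 * b1
  have key : ∀ x y : K, x * cr_h12 v w = i * y → x = i / cr_h12 v w * y := by
    intro x y hxy
    rw [div_mul_eq_mul_div, eq_div_iff h, hxy]
  ext j k
  fin_cases j <;> fin_cases k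
  · simpa [Fm_h12] using key _ _ e00
  · simpa [Fm_h12] using key _ _ e01
  · simpa [Fm_h12] using key _ _ e10
  · simpa [Fm_h12] using key _ _ e11

private theorem two_ne_h12 (hq : Fintype.card K % 4 = 1) : (2 : K) ≠ 0 := by
  intro h
  have h1 : (Fintype.card K : K) = 0 := FiniteField.cast_card_eq_zero K
  have h2 : (Fintype.card K : K) = 1 := by
    have h3 : Fintype.card K = 2 * (2 * (Fintype.card K / 4)) + 1 := by omega
    rw [h3]
    push_cast
    rw [h]
    ring
  exact one_ne_zero (h2.symm.trans h1)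

private theorem exi_h12 (hq : Fintype.card K % 4 = 1) : ∃ i : K, i * i = -1 := by
  have h1 : IsSquare (-1 : K) := FiniteField.isSquare_neg_one_iff.2 (by omega)
  obtain ⟨i, hi⟩ := h1
  exact ⟨i, hi.symm⟩

private theorem normal_h12 (hq : Fintype.card K % 4 = 1) {i : K} (hi : i * i = -1)
    {a : Matrix.ProjectiveSpecialLinearGroup (Fin 2) K} (ha : orderOf a = 2) :
    ∃ (A : Matrix.SpecialLinearGroup (Fin 2) K) (v w : Fin 2 → K), pr K A = a ∧
      cr_h12 v w ≠ 0 ∧ A.1 = Fm_h12 i v w := by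
  have h2 := two_ne_h12 (K := K) hq
  obtain ⟨A, rfl⟩ := pr_surj a
  have ht := (order_two_iff h2 A).1 ha
  have hd := det81 A
  have hi0 : i ≠ 0 := by
    rintro rfl
    simp at hi
  have key : ∀ j : K, j * j = -1 → ∃ v : Fin 2 → K, v ≠ 0 ∧ A.1.mulVec v = j • v := by
    intro j hj
    have h3 : (A.1 - j • (1 : Matrix (Fin 2) (Fin 2) K)).det = 0 := by
      rw [Matrix.det_fin_two]
      simp only [Matrix.sub_apply, Matrix.smul_apply, Matrix.one_apply_eq, smul_eq_mul, mul_one,
        ne_eq, zero_ne_one, not_false_eq_true, Matrix.one_apply_ne, mul_zero, sub_zero,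
        one_ne_zero]
      unfold tr at ht
      linear_combination hd + hj - j * ht
    obtain ⟨v, hv, hv2⟩ := Matrix.exists_mulVec_eq_zero_iff.2 h3
    refine ⟨v, hv, ?_⟩
    rw [Matrix.sub_mulVec, Matrix.smul_mulVec, Matrix.one_mulVec, sub_eq_zero] at hv2
    exact hv2
  obtain ⟨v, hv, hv2⟩ := key i hi
  obtain ⟨w, hw, hw2⟩ := key (-i) (by rw [neg_mul_neg, hi])
  have hvw : cr_h12 v w ≠ 0 := by
    intro h
    have h4 := (mk_eq_iff_h12 v w hv hw).2 h
    rw [Projectivization.mk_eq_mk_iff'] at h4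
    obtain ⟨c, rfl⟩ := h4
    rw [Matrix.mulVec_smul, hw2] at hv2
    have h5 : (2 * i) • (c • w) = 0 := by
      have : (2 * i) • (c • w) = i • c • w - c • (-i) • w := by module
      rw [this, hv2, sub_self]
    rcases smul_eq_zero.1 h5 with h6 | h6
    · exact (mul_ne_zero h2 hi0) h6
    · exact hv h6
  exact ⟨A, v, w, rfl, hvw, Fm_uniq_h12 hvw hv2 hw2⟩

private theorem Fp_eq_h12 (h2 : (2 : K) ≠ 0) {i : K} (hi : i * i = -1)
    {A : Matrix.SpecialLinearGroup (Fin 2) K} {v w : Fin 2 → K} (h : cr_h12 v w ≠ 0)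
    (hA : A.1 = Fm_h12 i v w) :
    Fp (pr K A) = {Projectivization.mk K v (ne_zero_of_cr_h12 h).1,
      Projectivization.mk K w (ne_zero_of_cr_h12 h).2} := by
  have hi0 : i ≠ 0 := by
    rintro rfl
    simp at hi
  ext R
  induction R using Projectivization.ind with
  | _ u hu =>
    rw [mem_Fp_h12, hA, Fm_cr_h12, Finset.mem_insert, Finset.mem_singleton, mk_eq_iff_h12,
      mk_eq_iff_h12, mul_eq_zero, mul_eq_zero]
    have h3 : -(2 * (i / cr_h12 v w)) ≠ 0 :=
      neg_ne_zero.2 (mul_ne_zero h2 (div_ne_zero hi0 h))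
    constructor
    · rintro (h4 | h4)
      · exact absurd h4 h3
      · exact h4
    · intro h4
      exact Or.inr h4

private theorem mk_ne_h12 {v w : Fin 2 → K} (h : cr_h12 v w ≠ 0) :
    Projectivization.mk K v (ne_zero_of_cr_h12 h).1 ≠
      Projectivization.mk K w (ne_zero_of_cr_h12 h).2 := by
  intro h1
  exact h ((mk_eq_iff_h12 _ _ _ _).1 h1)

theorem card_PL : Fintype.card (ℙ K (Fin 2 → K)) = Fintype.card K + 1 := by
  have h := Projectivization.card_of_finrank_two K (Fin 2 → K) (by simp)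
  rwa [Nat.card_eq_fintype_card, Nat.card_eq_fintype_card] at h

theorem fp_card (hq : Fintype.card K % 4 = 1)
    {a : Matrix.ProjectiveSpecialLinearGroup (Fin 2) K} (ha : orderOf a = 2) :
    (Fp a).card = 2 := by
  obtain ⟨i, hi⟩ := exi_h12 (K := K) hq
  obtain ⟨A, v, w, rfl, h, hA⟩ := normal_h12 hq hi ha
  rw [Fp_eq_h12 (two_ne_h12 hq) hi h hA]
  exact Finset.card_pair (mk_ne_h12 h)

theorem fp_surj (hq : Fintype.card K % 4 = 1) {s : Finset (ℙ K (Fin 2 → K))}
    (hs : s.card = 2) : ∃ a : Matrix.ProjectiveSpecialLinearGroup (Fin 2) K,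
      orderOf a = 2 ∧ Fp a = s := by
  obtain ⟨i, hi⟩ := exi_h12 (K := K) hq
  obtain ⟨P, Q, hPQ, rfl⟩ := Finset.card_eq_two.1 hs
  induction P using Projectivization.ind with
  | _ v hv =>
    induction Q using Projectivization.ind with
    | _ w hw =>
      have h : cr_h12 v w ≠ 0 := by
        intro h
        exact hPQ ((mk_eq_iff_h12 _ _ _ _).2 h)
      refine ⟨pr K ⟨Fm_h12 i v w, Fm_det_h12 hi h⟩, ?_, ?_⟩
      · rw [order_two_iff (two_ne_h12 hq)]
        exact Fm_tr_h12 i v w
      · exact Fp_eq_h12 (two_ne_h12 hq) hi h rfl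

private theorem Fm_smul_h12 {K : Type*} [Field K] (i c d : K) (v w : Fin 2 → K) (hc : c ≠ 0)
    (hd : d ≠ 0) : Fm_h12 i (c • v) (d • w) = Fm_h12 i v w := by
  have h1 : cr_h12 (c • v) (d • w) = (c * d) * cr_h12 v w := by
    simp only [cr_h12, Pi.smul_apply, smul_eq_mul]
    ring
  have key : ∀ x : K, i / cr_h12 (c • v) (d • w) * ((c * d) * x) = i / cr_h12 v w * x := by
    intro x
    rw [h1]
    by_cases h : cr_h12 v w = 0
    · simp [h]
    · field_simp
  ext j k
  fin_cases j <;> fin_cases k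
  · have := key (v 0 * w 1 + v 1 * w 0)
    simp only [Fm_h12, Matrix.smul_apply, Matrix.of_apply, Matrix.cons_val', Matrix.cons_val_zero,
      Matrix.cons_val_one, Matrix.cons_val_fin_one, smul_eq_mul, Pi.smul_apply, Fin.zero_eta,
      Fin.mk_one]
    rw [← this]
    ring
  · have := key (-(2 * v 0 * w 0))
    simp only [Fm_h12, Matrix.smul_apply, Matrix.of_apply, Matrix.cons_val', Matrix.cons_val_zero,
      Matrix.cons_val_one, Matrix.cons_val_fin_one, smul_eq_mul, Pi.smul_apply, Fin.zero_eta,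
      Fin.mk_one]
    rw [← this]
    ring
  · have := key (2 * v 1 * w 1)
    simp only [Fm_h12, Matrix.smul_apply, Matrix.of_apply, Matrix.cons_val', Matrix.cons_val_zero,
      Matrix.cons_val_one, Matrix.cons_val_fin_one, smul_eq_mul, Pi.smul_apply, Fin.zero_eta,
      Fin.mk_one]
    rw [← this]
    ring
  · have := key (-(v 0 * w 1 + v 1 * w 0))
    simp only [Fm_h12, Matrix.smul_apply, Matrix.of_apply, Matrix.cons_val', Matrix.cons_val_zero,
      Matrix.cons_val_one, Matrix.cons_val_fin_one, smul_eq_mul, Pi.smul_apply, Fin.zero_eta,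
      Fin.mk_one]
    rw [← this]
    ring

private theorem Fm_swap_h12 {K : Type*} [Field K] (i : K) (v w : Fin 2 → K) :
    Fm_h12 i w v = -Fm_h12 i v w := by
  have h1 : i / cr_h12 w v = -(i / cr_h12 v w) := by
    rw [cr_comm_h12 w v, div_neg]
  unfold Fm_h12
  rw [h1, neg_smul]
  congr 2
  ext j k
  fin_cases j <;> fin_cases k <;> simp <;> ring

private theorem fp_rel_h12 {K : Type*} [Field K] {v v' : Fin 2 → K} (hv : v ≠ 0) (hv' : v' ≠ 0)
    (h : Projectivization.mk K v hv = Projectivization.mk K v' hv') :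
    ∃ c : K, c ≠ 0 ∧ c • v' = v := by
  obtain ⟨c, hc⟩ := (Projectivization.mk_eq_mk_iff' K v v' hv hv').1 h
  refine ⟨c, ?_, hc⟩
  rintro rfl
  rw [zero_smul] at hc
  exact hv hc.symm

theorem fp_inj (hq : Fintype.card K % 4 = 1)
    {a b : Matrix.ProjectiveSpecialLinearGroup (Fin 2) K} (ha : orderOf a = 2)
    (hb : orderOf b = 2) (h : Fp a = Fp b) : a = b := by
  have h2 := two_ne_h12 (K := K) hq
  obtain ⟨i, hi⟩ := exi_h12 (K := K) hq
  obtain ⟨A, v, w, rfl, hvw, hA⟩ := normal_h12 hq hi ha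
  obtain ⟨B, v', w', rfl, hvw', hB⟩ := normal_h12 hq hi hb
  rw [Fp_eq_h12 h2 hi hvw hA, Fp_eq_h12 h2 hi hvw' hB] at h
  rw [pr_eq_iff, hA, hB]
  have hne := mk_ne_h12 hvw
  have m1 : Projectivization.mk K v (ne_zero_of_cr_h12 hvw).1 ∈
      ({Projectivization.mk K v' (ne_zero_of_cr_h12 hvw').1,
        Projectivization.mk K w' (ne_zero_of_cr_h12 hvw').2} : Finset (ℙ K (Fin 2 → K))) := by
    rw [← h]; exact Finset.mem_insert_self _ _
  have m2 : Projectivization.mk K w (ne_zero_of_cr_h12 hvw).2 ∈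
      ({Projectivization.mk K v' (ne_zero_of_cr_h12 hvw').1,
        Projectivization.mk K w' (ne_zero_of_cr_h12 hvw').2} : Finset (ℙ K (Fin 2 → K))) := by
    rw [← h]; exact Finset.mem_insert_of_mem (Finset.mem_singleton_self _)
  rw [Finset.mem_insert, Finset.mem_singleton] at m1 m2
  rcases m1 with m1 | m1
  · rcases m2 with m2 | m2
    · exact absurd (m1.trans m2.symm) hne
    · left
      obtain ⟨c, hc, rfl⟩ := fp_rel_h12 _ _ m1
      obtain ⟨d, hd, rfl⟩ := fp_rel_h12 _ _ m2
      rw [Fm_smul_h12 _ _ _ _ _ hc hd]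
  · rcases m2 with m2 | m2
    · right
      obtain ⟨c, hc, rfl⟩ := fp_rel_h12 _ _ m1
      obtain ⟨d, hd, rfl⟩ := fp_rel_h12 _ _ m2
      rw [Fm_smul_h12 _ _ _ _ _ hc hd, Fm_swap_h12]
    · exact absurd (m1.trans m2.symm) hne

theorem fp_conj (a b : Matrix.ProjectiveSpecialLinearGroup (Fin 2) K) (R : ℙ K (Fin 2 → K)) :
    a • R ∈ Fp (a * b * a⁻¹) ↔ R ∈ Fp b := by
  unfold Fp
  rw [Finset.mem_filter, Finset.mem_filter, mul_smul, mul_smul, inv_smul_smul,
    smul_left_cancel_iff]
  simp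

end Pool.Agent.Helper81.PS
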