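import Pool.Agent.Helper81.PS.Defs

/-!
# Block PS-RF: a reflection which maps a given unit vector to `± e3`

For `a ∈ U K` one of `u = a - e3`, `u = a + e3` has `dot u u ≠ 0` (the sum of the two norms is `4`); take
`S y = y - (2 dot u y / dot u u) • u`. `S_rot`: `rot` is defined by `dot`, and
`rot (S a) = rot (± e3) = rho`.
-/

set_option autoImplicit false

namespace Pool.Agent.Helper81.PS

variable {K : Type*} [Field K]

private theorem refl86 {u : K × K × K} (hn : dot u u ≠ 0) :
    ∃ S : (K × K × K) →ₗ[K] (K × K × K), (∀ y, S y = y - (2 * dot u y / dot u u) • u) ∧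
      (∀ x y, dot (S x) (S y) = dot x y) ∧ (∀ x, S (S x) = x) := by
  let S : (K × K × K) →ₗ[K] (K × K × K) :=
    { toFun := fun y => y - (2 * dot u y / dot u u) • u
      map_add' := by
        intro x y
        rw [dot_add_right, mul_add, add_div, add_smul]
        abel
      map_smul' := by
        intro c x
        rw [dot_smul_right, RingHom.id_apply, smul_sub, smul_smul]
        congr 2
        ring }
  have hS : ∀ y, S y = y - (2 * dot u y / dot u u) • u := fun y => rfl
  have hu : ∀ y, dot u (S y) = -dot u y := by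
    intro y
    rw [hS, sub_eq_add_neg, dot_add_right, dot_neg_right, dot_smul_right]
    field_simp
    ring
  refine ⟨S, hS, ?_, ?_⟩
  · intro x y
    have h1 : dot (S x) (S y) = dot (S x) y - (2 * dot u y / dot u u) * dot (S x) u := by
      conv_lhs => rw [hS y, sub_eq_add_neg, dot_add_right, dot_neg_right, dot_smul_right]
      ring
    have h2 : dot (S x) y = dot x y - (2 * dot u x / dot u u) * dot u y := by
      conv_lhs => rw [hS x, sub_eq_add_neg, dot_add_left, dot_neg_left, dot_smul_left]
      ring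
    rw [h1, dot_comm (S x) u, hu, h2]
    field_simp
    ring
  · intro x
    rw [hS (S x), hu, hS x]
    rw [sub_sub, ← add_smul]
    have : 2 * dot u x / dot u u + 2 * -dot u x / dot u u = 0 := by
      field_simp
      ring
    rw [this, zero_smul, sub_zero]

theorem exists_refl (h2 : (2 : K) ≠ 0) {a : K × K × K} (ha : dot a a = 1) :
    ∃ S : (K × K × K) →ₗ[K] (K × K × K), (∀ x y, dot (S x) (S y) = dot x y) ∧
      (∀ x, S (S x) = x) ∧ (S a = e3 ∨ S a = -e3) ∧ ∀ x, S (rot a x) = rho (S x) := by
  have he : dot (e3 : K × K × K) e3 = 1 := by simp [dot, e3]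
  have key : ∀ S : (K × K × K) →ₗ[K] (K × K × K), (∀ x y, dot (S x) (S y) = dot x y) →
      (S a = e3 ∨ S a = -e3) → ∀ x, S (rot a x) = rho (S x) := by
    intro S hS h x
    have h1 : S (rot a x) = rot (S a) (S x) := by
      rw [rot, rot, map_sub, map_smul, hS]
    rw [h1]
    rcases h with h | h
    · rw [h, rot_e3]
    · rw [h, neg_rot, rot_e3]
  have h3 : dot a e3 = a.2.2 := dot_e3 a
  by_cases hm : 1 - a.2.2 = 0
  · -- use a + e3
    have hn : dot (a + e3) (a + e3) = 2 * (1 + a.2.2) := by
      rw [dot_add_left, dot_add_right, dot_add_right, ha, he, dot_comm e3 a, h3]; ring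
    have hp : (1 + a.2.2) ≠ 0 := by
      have : 1 + a.2.2 = 2 := by linear_combination -hm
      rw [this]; exact h2
    have hn0 : dot (a + e3) (a + e3) ≠ 0 := by rw [hn]; exact mul_ne_zero h2 hp
    obtain ⟨S, hS, hS1, hS2⟩ := refl86 hn0
    have hSa : S a = -e3 := by
      rw [hS, hn, dot_add_left, ha, dot_comm e3 a, h3]
      have : 2 * (1 + a.2.2) / (2 * (1 + a.2.2)) = 1 := div_self (mul_ne_zero h2 hp)
      rw [this, one_smul]; abel
    exact ⟨S, hS1, hS2, Or.inr hSa, key S hS1 (Or.inr hSa)⟩
  · have hn : dot (a - e3) (a - e3) = 2 * (1 - a.2.2) := by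
      rw [sub_eq_add_neg, dot_add_left, dot_add_right, dot_add_right, dot_neg_left, dot_neg_left,
        dot_neg_right, dot_neg_right, ha, he, dot_comm e3 a, h3]; ring
    have hn0 : dot (a - e3) (a - e3) ≠ 0 := by rw [hn]; exact mul_ne_zero h2 hm
    obtain ⟨S, hS, hS1, hS2⟩ := refl86 hn0
    have hSa : S a = e3 := by
      rw [hS, hn]
      have h4 : dot (a - e3) a = 1 - a.2.2 := by
        rw [sub_eq_add_neg, dot_add_left, dot_neg_left, ha, dot_comm e3 a, h3]; ring
      rw [h4]
      have : 2 * (1 - a.2.2) / (2 * (1 - a.2.2)) = 1 := div_self (mul_ne_zero h2 hm)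
      rw [this, one_smul]; abel
    exact ⟨S, hS1, hS2, Or.inl hSa, key S hS1 (Or.inl hSa)⟩

end Pool.Agent.Helper81.PS
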