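import Pool.Agent.Helper81.PS.Small
import Pool.Agent.Helper81.PS.Core

/-!
# Block PS-RA: half turns are preserved, all `q = 3 mod 4`, `q ≥ 7`

If `27 ≤ q`: `core_big`, `rot_of_core`. Otherwise `q` is one of `7`, `11`, `15`, `19`, `23`, and `15` is not the
number of elements of a field (`FiniteField.card`, or `Fintype.isPrimePow_card_of_field`): `rot_small`.
-/

set_option autoImplicit false

namespace Pool.Agent.Helper81.PS

variable {K : Type*} [Field K] [Fintype K] [DecidableEq K]

theorem card_ne81 : Fintype.card K ≠ 15 := by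
  intro h
  have h1 : IsPrimePow (Fintype.card K) := Fintype.isPrimePow_card_of_field
  rw [h] at h1
  obtain ⟨p, n, hp, -, hpn⟩ := (isPrimePow_nat_iff _).1 h1
  have h3 : 3 ∣ p ^ n := by rw [hpn]; norm_num
  have h5 : 5 ∣ p ^ n := by rw [hpn]; norm_num
  have h3' := (Nat.prime_dvd_prime_iff_eq Nat.prime_three hp).1 (Nat.prime_three.dvd_of_dvd_pow h3)
  have h5' := (Nat.prime_dvd_prime_iff_eq Nat.prime_five hp).1 (Nat.prime_five.dvd_of_dvd_pow h5)
  omega

theorem rot_all (hq : Fintype.card K % 4 = 3) (h7 : 7 ≤ Fintype.card K)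
    {T T' : K × K × K → K × K × K} (hT : LT T T')
    (hr : Fintype.card K < 27 → ∀ x ∈ U K, ∀ y ∈ U K,
      4 * (dot (T x) (T y) * dot (T x) (T y)) = 1 ↔ 4 * (dot x y * dot x y) = 1)
    {a b : K × K × K} (ha : a ∈ U K) (hb : b ∈ U K) :
    T (rot a b) = rot (T a) (T b) ∨ T (rot a b) = -rot (T a) (T b) := by
  by_cases h27 : 27 ≤ Fintype.card K
  · exact rot_of_core hq h7 (fun P hP => core_big hq h27 hP) hT ha hb
  · have h15 := card_ne81 (K := K)
    exact rot_small (by omega) hT (hr (by omega)) ha hb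

end Pool.Agent.Helper81.PS
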