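import Pool.Agent.Helper81.PS.Two

/-!
# Block PS-VS: fixed points of a `PT` map with given third coordinate

`val_step`: let `x = (w₁, w₂, c)` be a unit vector, so `n = w₁² + w₂² = 1 - c² ≠ 0`. The two vectors
`y = ((-c s w₁ - k w₂) / n, (-c s w₂ + k w₁) / n, s)` and `y' = ((-c s w₁ + k w₂) / n, (-c s w₂ - k w₁) / n, s)`
are unit vectors orthogonal to `x` with third coordinate `s`; `y' ≠ y` because `k ≠ 0`, `2 ≠ 0` and `w ≠ 0`,
`y' ≠ -y` because `s ≠ 0`. As `P y = ± y`, `P y' = ± y'`, `P x` is orthogonal to `y` and `y'`, so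
`P x = ± x` by `eq_of_perp_two`.
-/

set_option autoImplicit false

namespace Pool.Agent.Helper81.PS

variable {K : Type*} [Field K] [Fintype K] [DecidableEq K]

/-- the vector orthogonal to `(w₁, w₂, c)` with third coordinate `s` -/
private def yv32 (w1 w2 c s k n : K) : K × K × K :=
  ((-c * s * w1 - k * w2) / n, (-c * s * w2 + k * w1) / n, s)

omit [Fintype K] [DecidableEq K] in
private theorem yv_perp32 {w1 w2 c s k n : K} (hn : n ≠ 0) (h : w1 * w1 + w2 * w2 = n) :
    dot (w1, w2, c) (yv32 w1 w2 c s k n) = 0 := by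
  simp only [dot, yv32]
  field_simp
  linear_combination (-c * s) * h

omit [Fintype K] [DecidableEq K] in
private theorem yv_unit32 {w1 w2 c s k n : K} (hn : n ≠ 0) (h : w1 * w1 + w2 * w2 = n)
    (hn1 : n = 1 - c * c) (hk : k * k = 1 - c * c - s * s) :
    dot (yv32 w1 w2 c s k n) (yv32 w1 w2 c s k n) = 1 := by
  simp only [dot, yv32]
  field_simp
  linear_combination (c ^ 2 * s ^ 2 + k ^ 2) * h + n * hk - (1 - s ^ 2) * n * hn1

theorem val_step (h2 : (2 : K) ≠ 0) {P : K × K × K → K × K × K} (hP : PT P) {c s k : K}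
    (hc : c * c ≠ 1) (hs : s ≠ 0) (hk : k ≠ 0) (h : k * k = 1 - c * c - s * s)
    (hf : ∀ x ∈ U K, x.2.2 = s → P x = x ∨ P x = -x) :
    ∀ x ∈ U K, x.2.2 = c → P x = x ∨ P x = -x := by
  intro x hx hxc
  obtain ⟨w1, w2, c'⟩ := x
  simp only at hxc
  subst hxc
  have hx1 := mem_U.1 hx
  simp only [dot] at hx1
  set n : K := 1 - c' * c' with hn
  have hn0 : n ≠ 0 := by
    intro h0
    apply hc
    rw [hn] at h0
    linear_combination -h0
  have hw : w1 * w1 + w2 * w2 = n := by
    rw [hn]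
    linear_combination hx1
  have hk' : (-k) * (-k) = 1 - c' * c' - s * s := by linear_combination h
  have y1 : yv32 w1 w2 c' s k n ∈ U K := mem_U.2 (yv_unit32 hn0 hw hn h)
  have y2 : yv32 w1 w2 c' s (-k) n ∈ U K := mem_U.2 (yv_unit32 hn0 hw hn hk')
  have p1 : dot (w1, w2, c') (yv32 w1 w2 c' s k n) = 0 := yv_perp32 hn0 hw
  have p2 : dot (w1, w2, c') (yv32 w1 w2 c' s (-k) n) = 0 := yv_perp32 hn0 hw
  have key : ∀ y ∈ U K, dot (w1, w2, c') y = 0 → y.2.2 = s → dot (P (w1, w2, c')) y = 0 := by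
    intro y hy h1 h3
    have h4 := (hP.perp _ hx _ hy).2 h1
    rcases hf y hy h3 with h5 | h5
    · rwa [h5] at h4
    · rw [h5, dot_neg_right, neg_eq_zero] at h4
      exact h4
  refine eq_of_perp_two y1 y2 ?_ ?_ hx (hP.mem _ hx) p1 p2 (key _ y1 p1 rfl) (key _ y2 p2 rfl)
  · intro heq
    have e1 : (-c' * s * w1 - (-k) * w2) / n = (-c' * s * w1 - k * w2) / n := congrArg (fun v => v.1) heq
    have e2 : (-c' * s * w2 + (-k) * w1) / n = (-c' * s * w2 + k * w1) / n := congrArg (fun v => v.2.1) heq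
    rw [div_left_inj' hn0] at e1 e2
    have f1 : (2 * k) * w2 = 0 := by linear_combination e1
    have f2 : (2 * k) * w1 = 0 := by linear_combination -e2
    have h2k : 2 * k ≠ 0 := mul_ne_zero h2 hk
    have g1 : w2 = 0 := (mul_eq_zero.1 f1).resolve_left h2k
    have g2 : w1 = 0 := (mul_eq_zero.1 f2).resolve_left h2k
    apply hn0
    rw [← hw, g1, g2]
    ring
  · intro heq
    have e3 : s = -s := congrArg (fun v => v.2.2) heq
    have f3 : 2 * s = 0 := by linear_combination e3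
    exact mul_ne_zero h2 hs f3

end Pool.Agent.Helper81.PS
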