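import Pool.Agent.Helper81.PS.Thr
import Pool.Agent.Helper81.PS.Val
import Pool.Agent.Helper81.PS.Chain
import Pool.Agent.Helper81.PS.Lift

/-!
# Block PS-SM: the small fields

Let `a' = T a`, `S` a reflection with `S a' = ± e3` (`exists_refl`), `P x = S (T (rot a (T' (S x))))` (a `PT` map by
`lift_PT`) and `Q = rho ∘ P`, again a `PT` map (`rho e3 = e3`, `rho x = -x` if `x.2.2 = 0`, `dot_rho_rho`).
`Q x = ± x` for all unit vectors `x` with `4 x₃² = 1`: for `y = S x` one has `4 (y·a')² = 1`, for `b = T' y` hence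
`4 (b·a)² = 1` (`hr`, `right`) and `rot_three` gives `T (rot a b) = ± rot a' (T b) = ± rot a' y`, so
`P x = ± S (rot a' y) = ± rho x` (last property of `exists_refl`). Also `Q x = ± x` if `x₃ = 0` (`PT.eq`), and if
`x₃² = 1`, since then `x = ± e3` (`sum_sq_eq_zero`). With `chain`, `val_step` for
`V c := ∀ x ∈ U K, x.2.2 = c → Q x = x ∨ Q x = -x` we get `Q x = ± x` for all unit vectors. Put
`x = S (T b)`.
-/

set_option autoImplicit false

namespace Pool.Agent.Helper81.PS

variable {K : Type*} [Field K] [Fintype K] [DecidableEq K]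

omit [Fintype K] [DecidableEq K] in
private theorem pm_rho {x y : K × K × K} (h : x = y ∨ x = -y) : rho x = rho y ∨ rho x = -rho y := by
  rcases h with rfl | rfl
  · exact Or.inl rfl
  · exact Or.inr (rho_neg y)

omit [Fintype K] [DecidableEq K] in
private theorem pm_sq {x x' y y' : K × K × K} (hx : x = x' ∨ x = -x') (hy : y = y' ∨ y = -y') :
    dot x y * dot x y = dot x' y' * dot x' y' := by
  rcases hx with rfl | rfl <;> rcases hy with rfl | rfl <;>
    simp only [dot_neg_left, dot_neg_right, neg_neg, mul_neg, neg_mul]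

omit [DecidableEq K] in
private theorem small_three (hq : Fintype.card K = 7 ∨ Fintype.card K = 11 ∨ Fintype.card K = 19 ∨
    Fintype.card K = 23) : (3 : K) ≠ 0 := by
  intro h3
  have h0 : ((Fintype.card K : ℕ) : K) = 0 := FiniteField.cast_card_eq_zero K
  have h1 : (1 : K) ≠ 0 := one_ne_zero
  rcases hq with h | h | h | h <;> rw [h] at h0 <;> push_cast at h0
  · exact h1 (by linear_combination h0 - 2 * h3)
  · exact h1 (by linear_combination 4 * h3 - h0)
  · exact h1 (by linear_combination h0 - 6 * h3)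
  · exact h1 (by linear_combination 8 * h3 - h0)

/-- `rho ∘ P` is a `PT` map. -/
private theorem PT_rho {P : K × K × K → K × K × K} (hP : PT P) : PT fun x => rho (P x) := by
  refine ⟨fun x hx => rho_mem_U.2 (hP.mem x hx), fun x hx => pm_rho (hP.neg x hx),
    fun x hx y hy => ?_, ?_, fun x hx hx0 => ?_⟩
  · rw [dot_rho_rho]; exact hP.perp x hx y hy
  · have h1 := pm_rho hP.e
    have h2 : rho (e3 : K × K × K) = e3 := by simp [rho, e3]
    rwa [h2] at h1
  · have h1 := pm_rho (hP.eq x hx hx0)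
    have h2 : rho x = -x := by
      ext <;> simp [rho, hx0]
    rw [h2] at h1
    rcases h1 with h1 | h1
    · exact Or.inr h1
    · exact Or.inl (by rw [h1, neg_neg])

theorem rot_small (hq : Fintype.card K = 7 ∨ Fintype.card K = 11 ∨ Fintype.card K = 19 ∨
    Fintype.card K = 23) {T T' : K × K × K → K × K × K} (hT : LT T T')
    (hr : ∀ x ∈ U K, ∀ y ∈ U K, 4 * (dot (T x) (T y) * dot (T x) (T y)) = 1 ↔
      4 * (dot x y * dot x y) = 1) {a b : K × K × K} (ha : a ∈ U K) (hb : b ∈ U K) :
    T (rot a b) = rot (T a) (T b) ∨ T (rot a b) = -rot (T a) (T b) := by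
  have hq4 : Fintype.card K % 4 = 3 := by omega
  have h3 := small_three hq
  have hTa := hT.mem a ha
  obtain ⟨S, g1, g2, g3, g4⟩ := exists_refl (two_ne_zero' hq4) (mem_U.1 hTa)
  have hS : ∀ x ∈ U K, S x ∈ U K := fun x hx => by rw [mem_U, g1]; exact mem_U.1 hx
  have hQ : PT fun x => rho (S (T (rot a (T' (S x))))) := PT_rho (lift_PT hT ha g1 g2 g3)
  -- the points `4 x₃² = 1`
  have hQ4 : ∀ x ∈ U K, 4 * (x.2.2 * x.2.2) = 1 →
      rho (S (T (rot a (T' (S x))))) = x ∨ rho (S (T (rot a (T' (S x))))) = -x := by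
    intro x hx hx4
    have e1 : dot (S x) (T a) = dot x (S (T a)) := by rw [← g1, g2]
    have e2 : dot (S x) (T a) * dot (S x) (T a) = x.2.2 * x.2.2 := by
      rw [e1, pm_sq (Or.inl (rfl : x = x)) g3, dot_e3]
    have e3' : 4 * (dot (T (T' (S x))) (T a) * dot (T (T' (S x))) (T a)) = 1 := by
      rw [pm_sq (hT.right _ (hS x hx)) (Or.inl (rfl : T a = T a)), e2, hx4]
    have e4 : 4 * (dot a (T' (S x)) * dot a (T' (S x))) = 1 := by
      rw [dot_comm]
      exact (hr _ (hT.mem' _ (hS x hx)) a ha).1 e3'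
    have e5 := rot_three hq4 h3 hT hr ha (hT.mem' _ (hS x hx)) e4
    have e6 : T (rot a (T' (S x))) = rot (T a) (S x) ∨ T (rot a (T' (S x))) = -rot (T a) (S x) :=
      pm_trans e5 (pm_rot (T a) (hT.right _ (hS x hx)))
    have e7 := pm_rho (pm_lin S e6)
    rwa [g4, g2, rho_rho] at e7
  have hall : ∀ c : K, ∀ x ∈ U K, x.2.2 = c →
      rho (S (T (rot a (T' (S x))))) = x ∨ rho (S (T (rot a (T' (S x))))) = -x := by
    refine chain hq (fun c => ∀ x ∈ U K, x.2.2 = c →
      rho (S (T (rot a (T' (S x))))) = x ∨ rho (S (T (rot a (T' (S x))))) = -x) ?_ ?_ ?_ ?_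
    · exact fun x hx hx0 => hQ.eq x hx hx0
    · intro c hc x hx hxc
      have f1 := mem_U.1 hx
      simp only [dot] at f1
      have f2 : x.1 * x.1 + x.2.1 * x.2.1 = 0 := by
        rw [hxc] at f1
        linear_combination f1 - hc
      obtain ⟨f3, f4⟩ := sum_sq_eq_zero hq4 f2
      have f5 : x = e3 ∨ x = -e3 := by
        rcases mul_self_eq_one_iff.1 hc with h | h
        · left
          ext
          · simp [e3, f3]
          · simp [e3, f4]
          · simp [e3, hxc, h]
        · right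
          ext
          · simp [e3, f3]
          · simp [e3, f4]
          · simp [e3, hxc, h]
      rcases f5 with rfl | rfl
      · exact hQ.e
      · have f6 := pm_trans (hQ.neg e3 e3_mem_U) hQ.e
        rw [neg_neg]
        exact f6.symm
    · intro c hc x hx hxc
      exact hQ4 x hx (by rw [hxc]; exact hc)
    · intro c s k hc hs hk h hf
      exact val_step (two_ne_zero' hq4) hQ hc hs hk h hf
  have h5 := hall _ (S (T b)) (hS _ (hT.mem b hb)) rfl
  have h6 := pm_rho h5
  rw [rho_rho, ← g4] at h6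
  have h7 := pm_lin S h6
  simp only [g2] at h7
  have h8 : T (rot a (T' (T b))) = T (rot a b) ∨ T (rot a (T' (T b))) = -T (rot a b) :=
    hT.pmT ((rot_mem_U ha).2 hb) (pm_rot a (hT.left b hb))
  exact pm_trans (pm_symm h8) h7

end Pool.Agent.Helper81.PS
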