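import Pool.Agent.Helper81.PS.Perp

/-!
# Block PS-TH: the relation `4 (x·y)² = 1` determines the half turns

Write `x ~ y` for `4 (x·y)² = 1`. Let `a ~ b` be unit vectors. Claim: a unit vector `z` with `z ~ a`, `z ~ b` is
`± rot a b` if and only if `z' · z = 0` for every unit vector `z'` with `z' ~ a`, `z' ~ b`, `z' ≠ ± z`
(`good_iff`). Change signs so that `a·b = 1/2`, `z·a = 1/2`; `rot a b = a - b`. If `z·b = -1/2` then
`z - (a - b)` has norm `0` and is orthogonal to `a`, so it is `0` (`iso_perp`). Otherwise `z·b = 1/2`, hence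
`z · (a - b) = 0`: this is one direction. For the other, let `z·a = z·b = 1/2` and
`z' = (2/3) (a + b) - z`: a unit vector with `z'·a = z'·b = 1/2` and `z'·z = -1/3`, which is neither `0` nor
`± 1`; so `z` does not have the property (and it is not `± rot a b` because `1/3 ≠ ...`: the vectors
`z` and `a - b` are orthogonal).
`rot_three`: `T` preserves `~` and orthogonality in both directions and is bijective up to signs
(`right`), so `T (rot a b)` has the property of the claim for `T a`, `T b`.
-/

set_option autoImplicit false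

namespace Pool.Agent.Helper81.PS

variable {K : Type*} [Field K] [Fintype K] [DecidableEq K]

namespace TH

theorem two_ne_of_card (hq : Fintype.card K % 4 = 3) : (2 : K) ≠ 0 := by
  intro h
  have h1 : IsSquare (-1 : K) := ⟨1, by linear_combination -h⟩
  exact (FiniteField.isSquare_neg_one_iff.1 h1) hq

theorem dot_rot_left (a b : K × K × K) (z : K × K × K) :
    dot z (rot a b) = 2 * dot a b * dot z a - dot z b := by
  simp only [rot, dot, Prod.smul_fst, Prod.smul_snd, Prod.fst_sub, Prod.snd_sub, smul_eq_mul]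
  ring

theorem thr_dich (hq : Fintype.card K % 4 = 3) (h3 : (3 : K) ≠ 0) {a b z : K × K × K}
    (ha : a ∈ U K) (hb : b ∈ U K) (hz : z ∈ U K) (hab : 4 * (dot a b * dot a b) = 1)
    (hza : 4 * (dot z a * dot z a) = 1) (hzb : 4 * (dot z b * dot z b) = 1) :
    (dot z (rot a b) = 0 ∧ ∃ z' ∈ U K, 4 * (dot z' a * dot z' a) = 1 ∧
      4 * (dot z' b * dot z' b) = 1 ∧ z' ≠ z ∧ z' ≠ -z ∧ dot z' z ≠ 0) ∨
    (z = rot a b ∨ z = -rot a b) := by
  have h2 := two_ne_of_card hq
  have ha' := mem_U.1 ha
  have hb' := mem_U.1 hb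
  have hz' := mem_U.1 hz
  obtain ⟨t, ht⟩ : ∃ t : K, 3 * t = 1 := ⟨3⁻¹, mul_inv_cancel₀ h3⟩
  have ht0 : t ≠ 0 := by
    rintro rfl
    simp at ht
  obtain ⟨p, hp'⟩ : ∃ p : K, dot a b = p := ⟨_, rfl⟩
  obtain ⟨x, hx'⟩ : ∃ x : K, dot z a = x := ⟨_, rfl⟩
  obtain ⟨y, hy'⟩ : ∃ y : K, dot z b = y := ⟨_, rfl⟩
  have hr : dot z (rot a b) = 2 * p * x - y := by
    rw [dot_rot_left, hp', hx', hy']
  rw [hp'] at hab
  rw [hx'] at hza
  rw [hy'] at hzb
  have hcase : 2 * p * x = y ∨ 2 * p * x = -y := by
    have h1 : (2 * p * x - y) * (2 * p * x + y) = 0 := by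
      have h4 : (4 : K) ≠ 0 := by
        have : (4 : K) = 2 * 2 := by norm_num
        rw [this]; exact mul_ne_zero h2 h2
      have : 4 * ((2 * p * x - y) * (2 * p * x + y)) = 0 := by
        linear_combination (4 * x * x) * hab + hza - hzb
      exact (mul_eq_zero.1 this).resolve_left h4
    rcases mul_eq_zero.1 h1 with h | h
    · exact Or.inl (by linear_combination h)
    · exact Or.inr (by linear_combination h)
  rcases hcase with h | h
  · left
    have hz0 : dot z (rot a b) = 0 := by rw [hr, h]; ring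
    have hzz : dot ((2 * t) • ((2 * x) • a + (2 * y) • b) + -z) z = -t := by
      rw [dot_add_left, dot_smul_left, dot_add_left, dot_smul_left, dot_smul_left, dot_neg_left,
        dot_comm a z, dot_comm b z, hx', hy', hz']
      linear_combination t * hza + t * hzb + ht
    refine ⟨hz0, (2 * t) • ((2 * x) • a + (2 * y) • b) + -z, ?_, ?_, ?_, ?_, ?_, ?_⟩
    · rw [mem_U]
      simp only [dot_add_left, dot_add_right, dot_smul_left, dot_smul_right, dot_neg_left,
        dot_neg_right]
      rw [ha', hb', hz', dot_comm a z, dot_comm b z, dot_comm b a, hx', hy', hp']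
      linear_combination (8 * t * t - 2 * t) * hza + (4 * t * t - 2 * t) * hzb -
        (32 * t * t * x * p) * h + (16 * t * t * x * x) * hab + 4 * t * ht
    · have e : dot ((2 * t) • ((2 * x) • a + (2 * y) • b) + -z) a = x := by
        rw [dot_add_left, dot_smul_left, dot_add_left, dot_smul_left, dot_smul_left, dot_neg_left,
          ha', dot_comm b a, hp', hx']
        linear_combination (-4 * t * p) * h + (2 * t * x) * hab + (2 * x) * ht
      rw [e]; exact hza
    · have e : dot ((2 * t) • ((2 * x) • a + (2 * y) • b) + -z) b = y := by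
        rw [dot_add_left, dot_smul_left, dot_add_left, dot_smul_left, dot_smul_left, dot_neg_left,
          hb', hp', hy']
        linear_combination (2 * t) * h + (2 * y) * ht
      rw [e]; exact hzb
    · intro he
      rw [he, hz'] at hzz
      apply h2
      have : (4 : K) = 0 := by linear_combination -ht + 3 * hzz
      have h4 : (2 : K) * 2 = 0 := by linear_combination this
      simpa using h4
    · intro he
      rw [he, dot_neg_left, hz'] at hzz
      apply h2
      linear_combination ht - 3 * hzz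
    · rw [hzz]
      exact neg_ne_zero.2 ht0
  · right
    have hrr : dot (rot a b) (rot a b) = 1 := by rw [dot_rot_rot ha', hb']
    have hra : dot a (rot a b) = p := by rw [dot_rot ha', hp']
    have hzr : dot z (rot a b) = -(2 * y) := by rw [hr, h]; ring
    have hyy : (2 * y) * (2 * y) = 1 := by linear_combination hzb
    have h0 : z + (2 * y) • rot a b = 0 := by
      apply iso_perp hq ha
      · simp only [dot_add_left, dot_add_right, dot_smul_left, dot_smul_right]
        rw [hz', hrr, hzr, dot_comm (rot a b) z, hzr]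
        linear_combination -hyy
      · rw [dot_add_right, dot_smul_right, hra, dot_comm a z, hx']
        linear_combination 2 * p * h - x * hab
    rcases (by
      have h1 : (2 * y - 1) * (2 * y + 1) = 0 := by linear_combination hyy
      rcases mul_eq_zero.1 h1 with h5 | h5
      · exact Or.inl (by linear_combination h5)
      · exact Or.inr (by linear_combination h5) : 2 * y = 1 ∨ 2 * y = -1) with h5 | h5
    · right
      rw [h5, one_smul] at h0
      exact eq_neg_of_add_eq_zero_left h0
    · left
      rw [h5, neg_one_smul] at h0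
      exact (add_neg_eq_zero.1 h0)

end TH

open TH in
theorem good_iff (hq : Fintype.card K % 4 = 3) (h3 : (3 : K) ≠ 0) {a b z : K × K × K}
    (ha : a ∈ U K) (hb : b ∈ U K) (hz : z ∈ U K) (hab : 4 * (dot a b * dot a b) = 1)
    (hza : 4 * (dot z a * dot z a) = 1) (hzb : 4 * (dot z b * dot z b) = 1) :
    (z = rot a b ∨ z = -rot a b) ↔ ∀ z' ∈ U K, 4 * (dot z' a * dot z' a) = 1 →
      4 * (dot z' b * dot z' b) = 1 → z' ≠ z → z' ≠ -z → dot z' z = 0 := by
  have ha' := mem_U.1 ha
  have hb' := mem_U.1 hb
  have hz' := mem_U.1 hz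
  have hrr : dot (rot a b) (rot a b) = 1 := by rw [dot_rot_rot ha', hb']
  constructor
  · intro h z' hz1 h1 h4 h5 h6
    rcases thr_dich hq h3 ha hb hz1 hab h1 h4 with ⟨h7, -⟩ | h7
    · rcases h with h | h
      · rw [h]; exact h7
      · rw [h, dot_neg_right, h7, neg_zero]
    · exfalso
      rcases h with h | h <;> rcases h7 with h7 | h7
      · exact h5 (h7.trans h.symm)
      · exact h6 (by rw [h7, h])
      · exact h6 (by rw [h7, h, neg_neg])
      · exact h5 (h7.trans h.symm)
  · intro h
    rcases thr_dich hq h3 ha hb hz hab hza hzb with ⟨-, z', h1, h4, h5, h6, h7, h8⟩ | h7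
    · exact absurd (h z' h1 h4 h5 h6 h7) h8
    · exact h7

open TH in
theorem rot_three (hq : Fintype.card K % 4 = 3) (h3 : (3 : K) ≠ 0)
    {T T' : K × K × K → K × K × K} (hT : LT T T')
    (hr : ∀ x ∈ U K, ∀ y ∈ U K, 4 * (dot (T x) (T y) * dot (T x) (T y)) = 1 ↔
      4 * (dot x y * dot x y) = 1) {a b : K × K × K} (ha : a ∈ U K) (hb : b ∈ U K)
    (hab : 4 * (dot a b * dot a b) = 1) :
    T (rot a b) = rot (T a) (T b) ∨ T (rot a b) = -rot (T a) (T b) := by
  have ha' := mem_U.1 ha
  have hb' := mem_U.1 hb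
  have hz0 : rot a b ∈ U K := (rot_mem_U ha).2 hb
  have hza : 4 * (dot (rot a b) a * dot (rot a b) a) = 1 := by
    rw [dot_comm, dot_rot ha']; exact hab
  have hzb : 4 * (dot (rot a b) b * dot (rot a b) b) = 1 := by
    rw [dot_comm, dot_rot_left, hb', dot_comm b a]
    linear_combination (4 * (dot a b * dot a b) - 3) * hab
  refine (good_iff hq h3 (hT.mem a ha) (hT.mem b hb) (hT.mem _ hz0) ((hr a ha b hb).2 hab)
    ((hr _ hz0 a ha).2 hza) ((hr _ hz0 b hb).2 hzb)).2 ?_
  intro z' h1 h4 h5 h6 h7
  have hw : T' z' ∈ U K := hT.mem' z' h1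
  have hw1 := hT.right z' h1
  have hsq : ∀ v : K × K × K, dot (T (T' z')) v * dot (T (T' z')) v = dot z' v * dot z' v := by
    intro v
    rcases hw1 with h | h
    · rw [h]
    · rw [h, dot_neg_left, neg_mul_neg]
  have k := (good_iff hq h3 ha hb hz0 hab hza hzb).1 (Or.inl rfl) (T' z') hw
    ((hr _ hw a ha).1 (by rw [hsq]; exact h4)) ((hr _ hw b hb).1 (by rw [hsq]; exact h5))
  have hA : T' z' ≠ rot a b := by
    intro h
    rw [h] at hw1
    rcases hw1 with h8 | h8
    · exact h6 h8.symm
    · exact h7 (by rw [h8, neg_neg])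
  have hB : T' z' ≠ -rot a b := by
    intro h
    rw [h] at hw1
    rcases hT.neg _ hz0 with h9 | h9 <;> rw [h9] at hw1 <;> rcases hw1 with h8 | h8
    · exact h6 h8.symm
    · exact h7 (by rw [h8, neg_neg])
    · exact h7 h8.symm
    · exact h6 (neg_injective h8).symm
  have h10 := k hA hB
  have h11 := (hT.perp _ hw _ hz0).2 h10
  have h12 := hsq (T (rot a b))
  rw [h11, mul_zero] at h12
  exact mul_self_eq_zero.1 h12.symm

end Pool.Agent.Helper81.PS
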