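import Pool.Agent.Helper81.PS.Circ

/-!
# Block PS-TW: vectors orthogonal to one or two unit vectors (any finite field)

Two unit vectors `x`, `x'` with `x' ≠ ± x` are linearly independent (`x' = c x` gives `c² = 1`). The
linear map `y ↦ (dot x y, dot x' y)` onto `K²` (resp. `y ↦ dot x y` onto `K`) is surjective, so its
kernel has dimension one (resp. two). `eq_of_perp_two`: `x` and `z` are unit vectors in a space of
dimension one.
-/

set_option autoImplicit false

namespace Pool.Agent.Helper81.PS

variable {K : Type*} [Field K] [Fintype K] [DecidableEq K]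

/-- The linear functional `dot x`. -/
private def dotL (x : K × K × K) : (K × K × K) →ₗ[K] K where
  toFun := dot x
  map_add' := dot_add_right x
  map_smul' := fun c y => by rw [dot_smul_right]; rfl

theorem card_perp_one {x : K × K × K} (hx : x ∈ U K) :
    (Finset.univ.filter fun y : K × K × K => dot x y = 0).card =
      Fintype.card K * Fintype.card K := by
  classical
  rw [mem_U] at hx
  have hsurj : Function.Surjective (dotL x) := by
    intro c
    refine ⟨c • x, ?_⟩
    change dot x (c • x) = c
    rw [dot_smul_right, hx, mul_one]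
  have h1 := LinearMap.finrank_range_add_finrank_ker (dotL x)
  rw [LinearMap.range_eq_top.2 hsurj, finrank_top] at h1
  have h3 : Module.finrank K (K × K × K) = 3 := by simp
  rw [h3, Module.finrank_self] at h1
  have h2 : Module.finrank K (LinearMap.ker (dotL x)) = 2 := by omega
  have h4 : Fintype.card (LinearMap.ker (dotL x)) = Fintype.card K ^ 2 := by
    rw [Module.card_eq_pow_finrank (K := K) (V := LinearMap.ker (dotL x)), h2]
  have h5 : (Finset.univ.filter fun y : K × K × K => dot x y = 0).card =
      Fintype.card (LinearMap.ker (dotL x)) := by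
    rw [← Fintype.card_coe]
    refine Fintype.card_congr (Equiv.subtypeEquivRight fun y => ?_)
    simp only [Finset.mem_filter, Finset.mem_univ, true_and, LinearMap.mem_ker]
    rfl
  rw [h5, h4, sq]

/-- The vector product. -/
private def cr (x y : K × K × K) : K × K × K :=
  (x.2.1 * y.2.2 - x.2.2 * y.2.1, x.2.2 * y.1 - x.1 * y.2.2, x.1 * y.2.1 - x.2.1 * y.1)

private theorem cr_ne {x x' : K × K × K} (hx : x ∈ U K) (hx' : x' ∈ U K) (h : x' ≠ x)
    (h' : x' ≠ -x) : cr x x' ≠ 0 := by
  intro h0
  rw [mem_U] at hx hx'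
  have e1 : x.2.1 * x'.2.2 - x.2.2 * x'.2.1 = 0 := congrArg (fun v => v.1) h0
  have e2 : x.2.2 * x'.1 - x.1 * x'.2.2 = 0 := congrArg (fun v => v.2.1) h0
  have e3 : x.1 * x'.2.1 - x.2.1 * x'.1 = 0 := congrArg (fun v => v.2.2) h0
  have hd : x' = dot x x' • x := by
    unfold dot at hx
    ext
    · simp only [dot, Prod.smul_fst, smul_eq_mul]
      linear_combination (-x'.1) * hx + x.2.2 * e2 - x.2.1 * e3
    · simp only [dot, Prod.smul_fst, Prod.smul_snd, smul_eq_mul]
      linear_combination (-x'.2.1) * hx + x.1 * e3 - x.2.2 * e1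
    · simp only [dot, Prod.smul_snd, smul_eq_mul]
      linear_combination (-x'.2.2) * hx + x.2.1 * e1 - x.1 * e2
  have hs : (dot x x' - 1) * (dot x x' + 1) = 0 := by
    have h1 : dot x' x' = dot x x' * dot x x' := by
      conv_lhs => rw [hd]
      rw [dot_smul_left, dot_smul_right, hx, mul_one]
    rw [hx'] at h1
    linear_combination -h1
  rcases mul_eq_zero.1 hs with h1 | h1
  · apply h
    rw [hd, sub_eq_zero.1 h1, one_smul]
  · apply h'
    rw [hd, eq_neg_of_add_eq_zero_left h1, neg_one_smul]

private theorem mul_cr {x x' y : K × K × K} (h : cr x x' ≠ 0) (h1 : dot x y = 0)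
    (h2 : dot x' y = 0) : ∃ t : K, y = t • cr x x' := by
  have e1 : (cr x x').2.1 * y.2.2 - (cr x x').2.2 * y.2.1 = 0 := by
    simp only [cr, dot] at *
    linear_combination x'.1 * h1 - x.1 * h2
  have e2 : (cr x x').2.2 * y.1 - (cr x x').1 * y.2.2 = 0 := by
    simp only [cr, dot] at *
    linear_combination x'.2.1 * h1 - x.2.1 * h2
  have e3 : (cr x x').1 * y.2.1 - (cr x x').2.1 * y.1 = 0 := by
    simp only [cr, dot] at *
    linear_combination x'.2.2 * h1 - x.2.2 * h2
  generalize cr x x' = c at h e1 e2 e3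
  obtain ⟨c1, c2, c3⟩ := c
  obtain ⟨y1, y2, y3⟩ := y
  simp only at e1 e2 e3
  by_cases hc1 : c1 = 0
  · by_cases hc2 : c2 = 0
    · have hc3 : c3 ≠ 0 := by
        intro hc3
        exact h (by rw [hc1, hc2, hc3]; rfl)
      refine ⟨y3 / c3, ?_⟩
      subst hc1 hc2
      ext <;> simp only [Prod.smul_fst, Prod.smul_snd, smul_eq_mul] <;> field_simp
      · have : c3 * y1 = 0 := by linear_combination e2
        rcases mul_eq_zero.1 this with h' | h'
        · exact absurd h' hc3
        · rw [h']; ring
      · have : c3 * y2 = 0 := by linear_combination -e1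
        rcases mul_eq_zero.1 this with h' | h'
        · exact absurd h' hc3
        · rw [h']; ring
    · refine ⟨y2 / c2, ?_⟩
      ext <;> simp only [Prod.smul_fst, Prod.smul_snd, smul_eq_mul] <;> field_simp
      · linear_combination -e3
      · linear_combination e1
  · refine ⟨y1 / c1, ?_⟩
    ext <;> simp only [Prod.smul_fst, Prod.smul_snd, smul_eq_mul] <;> field_simp
    · linear_combination e3
    · linear_combination -e2

private theorem dot_cr (x x' : K × K × K) : dot x (cr x x') = 0 ∧ dot x' (cr x x') = 0 := by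
  constructor <;> simp only [cr, dot] <;> ring

theorem card_perp_two {x x' : K × K × K} (hx : x ∈ U K) (hx' : x' ∈ U K) (h : x' ≠ x)
    (h' : x' ≠ -x) :
    (Finset.univ.filter fun y : K × K × K => dot x y = 0 ∧ dot x' y = 0).card =
      Fintype.card K := by
  classical
  have hc := cr_ne hx hx' h h'
  have e : (Finset.univ.filter fun y : K × K × K => dot x y = 0 ∧ dot x' y = 0) =
      Finset.univ.image fun t : K => t • cr x x' := by
    ext y
    simp only [Finset.mem_filter, Finset.mem_univ, true_and, Finset.mem_image]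
    constructor
    · rintro ⟨h1, h2⟩
      obtain ⟨t, ht⟩ := mul_cr hc h1 h2
      exact ⟨t, ht.symm⟩
    · rintro ⟨t, rfl⟩
      rw [dot_smul_right, dot_smul_right, (dot_cr x x').1, (dot_cr x x').2]
      simp
  rw [e, Finset.card_image_of_injective _ (smul_left_injective K hc), Finset.card_univ]

theorem eq_of_perp_two {y y' x z : K × K × K} (hy : y ∈ U K) (hy' : y' ∈ U K) (h : y' ≠ y)
    (h' : y' ≠ -y) (hx : x ∈ U K) (hz : z ∈ U K) (h1 : dot x y = 0) (h2 : dot x y' = 0)
    (h3 : dot z y = 0) (h4 : dot z y' = 0) : z = x ∨ z = -x := by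
  have hc := cr_ne hy hy' h h'
  rw [dot_comm] at h1 h2 h3 h4
  obtain ⟨t, ht⟩ := mul_cr hc h1 h2
  obtain ⟨s, hs⟩ := mul_cr hc h3 h4
  rw [mem_U] at hx hz
  rw [ht, dot_smul_left, dot_smul_right] at hx
  rw [hs, dot_smul_left, dot_smul_right] at hz
  have hd : dot (cr y y') (cr y y') ≠ 0 := by
    intro h0
    rw [h0] at hx
    simp at hx
  have h5 : (s - t) * (s + t) = 0 := by
    have : dot (cr y y') (cr y y') * ((s - t) * (s + t)) = 0 := by
      linear_combination hz - hx
    rcases mul_eq_zero.1 this with h6 | h6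
    · exact absurd h6 hd
    · exact h6
  rcases mul_eq_zero.1 h5 with h6 | h6
  · left
    rw [ht, hs, sub_eq_zero.1 h6]
  · right
    rw [ht, hs, eq_neg_of_add_eq_zero_left h6, neg_smul]

end Pool.Agent.Helper81.PS
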